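import Pool.Agent.Lib.MP_0e3b4a_gt.H14.MonoC

/-! # Integrality and local constancy of codes -/

set_option autoImplicit false

namespace Pool.Agent.MetSard

open MeasureTheory Set Polynomial Filter Topology

theorem relX : RelS := by
  intro B _ f H hf
  have hfin : Module.Finite B (AdjoinRoot f) := hf.finite_adjoinRoot
  have hint : IsIntegral B (AdjoinRoot.mk f H) := IsIntegral.of_finite B _
  obtain ⟨Q, hQ, h⟩ := hint
  refine ⟨Q, hQ, ?_⟩
  rw [← AdjoinRoot.mk_eq_zero, Polynomial.comp, Polynomial.hom_eval₂]
  exact h

theorem brkX : BrkS := by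
  intro D f Q hQ m hm x₀ y₀ he h0
  have hval : ∀ j : ℕ, ∀ x y : ℝ, (derivative^[j] (f.map (evalRingHom x))).eval y =
      (derivative^[j] f).evalEval x y := by
    intro j x y
    rw [iterate_derivative_map, map_evalRingHom_eval]
  have hj : ∀ j : Fin (D + 1), ∀ᶠ q : ℝ × ℝ in nhds (x₀, y₀), f.evalEval q.1 q.2 = 0 →
      SignType.sign ((derivative^[(j : ℕ)] f).evalEval q.1 q.2) =
        SignType.sign ((derivative^[(j : ℕ)] f).evalEval x₀ y₀) := by
    intro j
    have hc := Mono.evalEval_cont (derivative^[(j : ℕ)] f)
    have hjD : (j : ℕ) ≤ D := by omega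
    by_cases hz : (derivative^[(j : ℕ)] f).evalEval x₀ y₀ = 0
    · -- the relation
      set h := derivative^[(j : ℕ)] f with hh
      let k : ℝ × ℝ → ℝ := fun q => ∑ i ∈ Finset.range ((Q j).natDegree + 1),
        ((Q j).coeff (i + m j)).eval q.1 * (h.evalEval q.1 q.2) ^ i
      have hk : Continuous k := by
        refine continuous_finsetSum _ fun i _ => ?_
        exact (((Q j).coeff (i + m j)).continuous.comp continuous_fst).mul (hc.pow i)
      have hk0 : k (x₀, y₀) ≠ 0 := by
        have : k (x₀, y₀) = ((Q j).coeff (m j)).eval x₀ := by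
          show ∑ i ∈ Finset.range ((Q j).natDegree + 1),
            ((Q j).coeff (i + m j)).eval x₀ * (h.evalEval x₀ y₀) ^ i = _
          rw [hz, Finset.sum_eq_single 0]
          · simp
          · intro i _ hi
            rw [zero_pow hi, mul_zero]
          · simp
        rw [this]
        exact he j hjD
      have hne : ∀ᶠ q in nhds (x₀, y₀), k q ≠ 0 := hk.continuousAt.eventually_ne hk0
      filter_upwards [hne] with q hq hf0
      rw [hz, sign_zero, sign_eq_zero_iff]
      obtain ⟨w, hw⟩ := hQ j hjD
      have h1 : ((Q j).comp h).evalEval q.1 q.2 = 0 := by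
        rw [hw, evalEval_mul, hf0, zero_mul]
      have h2 : ((Q j).comp h).evalEval q.1 q.2 =
          ∑ i ∈ Finset.range ((Q j).natDegree + 1 + m j),
            ((Q j).coeff i).eval q.1 * (h.evalEval q.1 q.2) ^ i := by
        rw [Polynomial.comp, Polynomial.eval₂_eq_sum_range' C
          (show (Q j).natDegree < (Q j).natDegree + 1 + m j by omega), evalEval_finsetSum]
        refine Finset.sum_congr rfl fun i _ => ?_
        rw [evalEval_mul, evalEval_C, evalEval_pow]
      have h3 : ∑ i ∈ Finset.range ((Q j).natDegree + 1 + m j),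
            ((Q j).coeff i).eval q.1 * (h.evalEval q.1 q.2) ^ i =
          (h.evalEval q.1 q.2) ^ (m j) * k q := by
        rw [add_comm ((Q j).natDegree + 1) (m j), Finset.sum_range_add, Finset.sum_eq_zero, zero_add]
        · rw [Finset.mul_sum]
          refine Finset.sum_congr rfl fun i _ => ?_
          rw [add_comm (m j) i, pow_add]
          ring
        · intro i hi
          rw [hm j hjD i (Finset.mem_range.1 hi), eval_zero, zero_mul]
      rw [h2, h3] at h1
      rcases mul_eq_zero.1 h1 with h4 | h4
      · have hm0 : m j ≠ 0 := fun hm0 => by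
          rw [hm0, pow_zero] at h4
          exact one_ne_zero h4
        exact (pow_eq_zero_iff hm0).1 h4
      · exact absurd h4 hq
    · rcases lt_or_gt_of_ne hz with hlt | hgt
      · have : ∀ᶠ q : ℝ × ℝ in nhds (x₀, y₀), (derivative^[(j : ℕ)] f).evalEval q.1 q.2 < 0 :=
          hc.continuousAt.eventually_lt continuousAt_const hlt
        filter_upwards [this] with q hq _
        rw [sign_neg hq, sign_neg hlt]
      · have : ∀ᶠ q : ℝ × ℝ in nhds (x₀, y₀), 0 < (derivative^[(j : ℕ)] f).evalEval q.1 q.2 :=
          continuousAt_const.eventually_lt hc.continuousAt hgt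
        filter_upwards [this] with q hq _
        rw [sign_pos hq, sign_pos hgt]
  filter_upwards [eventually_all.2 hj] with q hq hf0
  funext j
  show SignType.sign _ = SignType.sign _
  rw [hval, hval]
  exact hq j hf0

end Pool.Agent.MetSard
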