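import Pool.Agent.Lib.MP_0e3b4a_gt.H14.Grp2
import Pool.Agent.Lib.MP_0e3b4a_gt.All

/-! # Rank two: covectors on the second derived algebra -/

set_option autoImplicit false
set_option linter.unusedSectionVars false

namespace Pool.Agent.MetSard

open MeasureTheory Set Filter Topology
open Pool.Agent.CutLoci Pool.Agent.CutLoci.H21

section

variable {g : Type} [NormedAddCommGroup g] [NormedSpace ℝ g] [FiniteDimensional ℝ g]

theorem kills_K2 (C : Carnot g 2) (l : g →L[ℝ] ℝ)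
    (h : ∀ x y z w, l (C.br (C.br x y) (C.br z w)) = 0) : ∀ z ∈ K2 C, l z = 0 := by
  have h1 : ∀ x ∈ K1 C, ∀ y ∈ K1 C, l (C.br x y) = 0 := by
    intro x hx y hy
    induction hx using Submodule.span_induction with
    | mem x hx =>
      obtain ⟨a, b, rfl⟩ := hx
      induction hy using Submodule.span_induction with
      | mem y hy =>
        obtain ⟨c, d, rfl⟩ := hy
        exact h a b c d
      | zero => simp
      | add a b _ _ ha hb => simp [ha, hb]
      | smul c a _ ha => simp [ha]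
    | zero => simp
    | add a b _ _ ha hb => simp [ha, hb]
    | smul c a _ ha => simp [ha]
  intro z hz
  induction hz using Submodule.span_induction with
  | mem z hz =>
    obtain ⟨x, hx, y, hy, rfl⟩ := hz
    exact h1 x hx y hy
  | zero => simp
  | add a b _ _ ha hb => simp [ha, hb]
  | smul c a _ ha => simp [ha]

theorem nontriv (C : Carnot g 2) : Nontrivial g := by
  refine ⟨C.X (EuclideanSpace.single 0 1), 0, fun h => ?_⟩
  have h1 := C.X_inj (h.trans (map_zero C.X).symm)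
  have h2 := congrArg (fun v : EE 2 => v 0) h1
  simp at h2

/-- Almost no point is the endpoint of a curve with a covector which kills the second derived
algebra. -/
theorem sard (hP : PlanarS) [MeasurableSpace g] [BorelSpace g] (μ : Measure g)
    [μ.IsAddHaarMeasure] (C : Carnot g 2) :
    ∀ᵐ x ∂μ, ∀ u, C.Joins u x → ∀ γ, C.IsCurve u γ → ∀ l : g →L[ℝ] ℝ, l ≠ 0 →
      (∀ t ∈ Icc (0 : ℝ) 1, ∀ a, l (Carnot.lin (γ t) (C.X a)) = 0) →
      ∃ y z y' z', l (C.br (C.br y z) (C.br y' z')) ≠ 0 := by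
  have H := All.curveHyp g 2
  have h0 := bad_null hP (All.struc g 2) (All.grade g 2) C μ
  have h1 := ae_of_chart H C μ (fun b => b ∉ Bad C) (measure_eq_zero_iff_ae_notMem.1 h0)
  filter_upwards [h1] with x hx u hj γ hγ l hl0 hl
  by_contra hcon
  push Not at hcon
  refine hx ⟨u, hγ.1, ((joins_iff H C u x).1 hj).2, l, hl0, kills_K2 C l hcon, fun t ht a => ?_⟩
  have h2 := curve_iff H C u γ hγ ht
  show l (Carnot.lin (C.Gam u t) (C.X a)) = 0
  rw [← h2]
  exact hl t ht a

theorem ae_min (hP : PlanarS) [MeasurableSpace g] [BorelSpace g] (μ : Measure g)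
    [μ.IsAddHaarMeasure] (C : Carnot g 2) :
    ∀ᵐ x ∂μ, (∀ u, C.Joins u x → ∀ γ, C.IsCurve u γ → ∀ l : g →L[ℝ] ℝ, l ≠ 0 →
      (∀ t ∈ Icc (0 : ℝ) 1, ∀ a, l (Carnot.lin (γ t) (C.X a)) = 0) →
      ∃ y z y' z', l (C.br (C.br y z) (C.br y' z')) ≠ 0) ∧
      (C.Smooth x ∨ ∃ u, C.IsMin u x ∧ C.Abnormal u ∧ ¬ ∃ l, C.IsNormal u l) := by
  have := nontriv C
  have h1 := sard hP μ C
  have h2 := All.thm_A μ C
  filter_upwards [h1, h2] with x hx1 hx2
  refine ⟨hx1, ?_⟩
  rcases hx2 with hx2 | ⟨u, hu, hn, l, hl0, γ, hγ, hl, _⟩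
  · exact Or.inl hx2
  · exact Or.inr ⟨u, hu, ⟨γ, hγ, l, hl0, hl⟩, hn⟩

theorem metabelian (hP : PlanarS) [MeasurableSpace g] [BorelSpace g] (μ : Measure g)
    [μ.IsAddHaarMeasure] (C : Carnot g 2)
    (hm : ∀ x y z w, C.br (C.br x y) (C.br z w) = 0) : μ C.cut = 0 := by
  have h1 := ae_min hP μ C
  have h2 : ∀ᵐ x ∂μ, C.Smooth x := by
    filter_upwards [h1] with x hx
    rcases hx.2 with h | ⟨u, hu, ⟨γ, hγ, l, hl0, hl⟩, _⟩
    · exact h
    · obtain ⟨y, z, y', z', h3⟩ := hx.1 u hu.1 γ hγ l hl0 hl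
      rw [hm, map_zero] at h3
      exact absurd rfl h3
  exact h2

end

end Pool.Agent.MetSard
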