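import Pool.Agent.Lib.MP_0e3b4a_gt.H14.Defs

/-! # Packing numbers of the sign pseudo-metric -/

set_option autoImplicit false

namespace Pool.Agent.MetSard

open MeasureTheory Set Polynomial

namespace NET

theorem sign_eq_iff (x y : ℝ) : SignType.sign x = SignType.sign y ↔
    ((0 < x ↔ 0 < y) ∧ (x < 0 ↔ y < 0)) := by
  rcases lt_trichotomy x 0 with hx | hx | hx <;> rcases lt_trichotomy y 0 with hy | hy | hy <;>
    simp [hx, hy, sign_neg, sign_pos, not_lt.2 hx.le, not_lt.2 hy.le]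

theorem continuous_elim {d : ℕ} (b : Fin d → ℝ) :
    Continuous fun q : Fin 2 → ℝ => (Sum.elim b q : Fin d ⊕ Fin 2 → ℝ) := by
  apply continuous_pi
  rintro (i | j)
  · exact continuous_const
  · exact continuous_apply j

theorem measurable_dis {d : ℕ} {ι : Type} [Finite ι] (p : ι → MvPolynomial (Fin d ⊕ Fin 2) ℝ)
    {B : Set (Fin 2 → ℝ)} (hB : MeasurableSet B) (a a' : Fin d → ℝ) :
    MeasurableSet (dis p B a a') := by
  have hc : ∀ (b : Fin d → ℝ) (i : ι),
      Measurable fun q : Fin 2 → ℝ => MvPolynomial.eval (Sum.elim b q) (p i) := by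
    intro b i
    apply Continuous.measurable
    exact (MvPolynomial.continuous_eval (p i)).comp (continuous_elim b)
  have h1 : dis p B a a' = B ∩ ⋃ i, {q | SignType.sign (MvPolynomial.eval (Sum.elim a q) (p i)) ≠
    SignType.sign (MvPolynomial.eval (Sum.elim a' q) (p i))} := by
    ext q
    simp [dis]
  rw [h1]
  refine hB.inter (MeasurableSet.iUnion fun i => ?_)
  have h2 : {q | SignType.sign (MvPolynomial.eval (Sum.elim a q) (p i)) ≠
    SignType.sign (MvPolynomial.eval (Sum.elim a' q) (p i))} =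
      ({q | (0 < MvPolynomial.eval (Sum.elim a q) (p i) ↔
        0 < MvPolynomial.eval (Sum.elim a' q) (p i))} ∩
        {q | (MvPolynomial.eval (Sum.elim a q) (p i) < 0 ↔
          MvPolynomial.eval (Sum.elim a' q) (p i) < 0)})ᶜ := by
    ext q
    exact not_congr (sign_eq_iff _ _)
  rw [h2]
  refine MeasurableSet.compl (MeasurableSet.inter ?_ ?_)
  · exact MeasurableSet.iff (measurableSet_lt measurable_const (hc a i))
      (measurableSet_lt measurable_const (hc a' i))
  · exact MeasurableSet.iff (measurableSet_lt (hc a i) measurable_const)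
      (measurableSet_lt (hc a' i) measurable_const)

theorem dis_sub {d : ℕ} {ι : Type} (p : ι → MvPolynomial (Fin d ⊕ Fin 2) ℝ)
    (B : Set (Fin 2 → ℝ)) (a a' : Fin d → ℝ) : dis p B a a' ⊆ B := fun _ h => h.1

open Classical in
/-- One sample point distinguishes a fixed proportion of the pairs. -/
theorem step {d : ℕ} {ι : Type} [Finite ι] (p : ι → MvPolynomial (Fin d ⊕ Fin 2) ℝ)
    {B : Set (Fin 2 → ℝ)} (hB : MeasurableSet B) (hf : volume B ≠ ⊤) (h0 : volume B ≠ 0)
    (ε : ℝ) (P : Finset ((Fin d → ℝ) × (Fin d → ℝ)))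
    (hP : ∀ x ∈ P, ε ≤ (volume (dis p B x.1 x.2)).toReal) :
    ∃ q ∈ B, ε / (volume B).toReal * P.card ≤
      ((P.filter fun x => q ∈ dis p B x.1 x.2).card : ℝ) := by
  set f : (Fin 2 → ℝ) → ℝ := fun q => ∑ x ∈ P, (dis p B x.1 x.2).indicator (fun _ => (1 : ℝ)) q
    with hfdef
  have hfin : ∀ x ∈ P, IntegrableOn ((dis p B x.1 x.2).indicator fun _ => (1 : ℝ)) B := by
    intro x _
    apply IntegrableOn.indicator _ (measurable_dis p hB _ _)
    exact integrableOn_const hf
  have hfi : IntegrableOn f B := by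
    rw [hfdef]
    exact integrable_finsetSum P hfin
  obtain ⟨q, hq, hle⟩ := exists_setAverage_le h0 hf hfi
  refine ⟨q, hq, ?_⟩
  have hv : 0 < (volume B).toReal := ENNReal.toReal_pos h0 hf
  have h1 : ∫ a in B, f a = ∑ x ∈ P, (volume (dis p B x.1 x.2)).toReal := by
    rw [hfdef, integral_finsetSum P hfin]
    refine Finset.sum_congr rfl fun x _ => ?_
    rw [setIntegral_indicator (measurable_dis p hB _ _), inter_eq_right.2 (dis_sub p B _ _)]
    simp [Measure.real]
  have h2 : ε * P.card ≤ ∫ a in B, f a := by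
    rw [h1, mul_comm, ← nsmul_eq_mul]
    exact Finset.card_nsmul_le_sum P _ _ hP
  have h3 : f q = ((P.filter fun x => q ∈ dis p B x.1 x.2).card : ℝ) := by
    simp [hfdef, indicator_apply]
  rw [← h3]
  refine le_trans ?_ hle
  rw [setAverage_eq, smul_eq_mul, div_mul_eq_mul_div, div_le_iff₀ hv, Measure.real]
  refine h2.trans (le_of_eq ?_)
  field_simp

open Classical in
/-- After `M` sample points only a small proportion of the pairs is left. -/
theorem iter {d : ℕ} {ι : Type} [Finite ι] (p : ι → MvPolynomial (Fin d ⊕ Fin 2) ℝ)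
    {B : Set (Fin 2 → ℝ)} (hB : MeasurableSet B) (hf : volume B ≠ ⊤) (h0 : volume B ≠ 0)
    (ε : ℝ) (hε : ε ≤ (volume B).toReal) (P : Finset ((Fin d → ℝ) × (Fin d → ℝ)))
    (hP : ∀ x ∈ P, ε ≤ (volume (dis p B x.1 x.2)).toReal) (M : ℕ) :
    ∃ Q : Finset (Fin 2 → ℝ), (∀ q ∈ Q, q ∈ B) ∧ Q.card ≤ M ∧
      ((P.filter fun x => ∀ q ∈ Q, q ∉ dis p B x.1 x.2).card : ℝ) ≤
        (1 - ε / (volume B).toReal) ^ M * P.card := by
  have hv : 0 < (volume B).toReal := ENNReal.toReal_pos h0 hf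
  have hr : 0 ≤ 1 - ε / (volume B).toReal := by
    rw [sub_nonneg, div_le_one hv]
    exact hε
  induction M with
  | zero => exact ⟨∅, by simp, by simp, by simp⟩
  | succ M ih =>
    obtain ⟨Q, hQB, hQc, hQ⟩ := ih
    set P' := P.filter fun x => ∀ q ∈ Q, q ∉ dis p B x.1 x.2 with hP'
    obtain ⟨q, hq, hle⟩ := step p hB hf h0 ε P' fun x hx => hP x (Finset.mem_of_mem_filter x hx)
    refine ⟨insert q Q, ?_, (Finset.card_insert_le _ _).trans (by omega), ?_⟩
    · intro q' hq'
      rcases Finset.mem_insert.1 hq' with rfl | h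
      · exact hq
      · exact hQB _ h
    · have h1 : (P.filter fun x => ∀ q' ∈ insert q Q, q' ∉ dis p B x.1 x.2) =
          P'.filter fun x => q ∉ dis p B x.1 x.2 := by
        ext x
        simp only [Finset.mem_filter, Finset.forall_mem_insert, hP']
        tauto
      have h2 := Finset.card_filter_add_card_filter_not (s := P')
        (fun x => q ∈ dis p B x.1 x.2)
      have h3 : ((P'.filter fun x => q ∈ dis p B x.1 x.2).card : ℝ) +
          ((P'.filter fun x => q ∉ dis p B x.1 x.2).card : ℝ) = P'.card := by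
        exact_mod_cast h2
      rw [h1, pow_succ, mul_assoc, mul_comm (1 - ε / (volume B).toReal) (P.card : ℝ), ← mul_assoc]
      calc ((P'.filter fun x => q ∉ dis p B x.1 x.2).card : ℝ)
          ≤ P'.card - ε / (volume B).toReal * P'.card := by linarith
        _ = (P'.card : ℝ) * (1 - ε / (volume B).toReal) := by ring
        _ ≤ _ := mul_le_mul_of_nonneg_right hQ hr

/-- Substituting the last two variables. -/
noncomputable def subst {d : ℕ} (q : Fin 2 → ℝ) (P : MvPolynomial (Fin d ⊕ Fin 2) ℝ) :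
    MvPolynomial (Fin d) ℝ :=
  MvPolynomial.aeval (Sum.elim MvPolynomial.X fun j => MvPolynomial.C (q j)) P

theorem eval_subst {d : ℕ} (q : Fin 2 → ℝ) (P : MvPolynomial (Fin d ⊕ Fin 2) ℝ) (a : Fin d → ℝ) :
    MvPolynomial.eval a (subst q P) = MvPolynomial.eval (Sum.elim a q) P := by
  rw [subst, ← MvPolynomial.coe_aeval_eq_eval, ← MvPolynomial.coe_aeval_eq_eval,
    AlgHom.coe_toRingHom, AlgHom.coe_toRingHom, ← AlgHom.comp_apply]
  congr 1
  apply MvPolynomial.algHom_ext
  rintro (i | j) <;> simp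

theorem totalDegree_subst {d : ℕ} (q : Fin 2 → ℝ) (P : MvPolynomial (Fin d ⊕ Fin 2) ℝ) :
    (subst q P).totalDegree ≤ P.totalDegree := by
  rw [subst, MvPolynomial.aeval_def, MvPolynomial.eval₂_eq]
  refine MvPolynomial.totalDegree_finsetSum_le fun m hm => ?_
  refine (MvPolynomial.totalDegree_mul _ _).trans ?_
  have h1 : (algebraMap ℝ (MvPolynomial (Fin d) ℝ) (P.coeff m)).totalDegree = 0 :=
    MvPolynomial.totalDegree_C _
  rw [h1, zero_add]
  refine (MvPolynomial.totalDegree_finsetProd _ _).trans ?_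
  refine le_trans ?_ (MvPolynomial.le_totalDegree hm)
  rw [Finsupp.sum]
  refine Finset.sum_le_sum fun x _ => ?_
  refine (MvPolynomial.totalDegree_pow _ _).trans ?_
  have h2 : (Sum.elim (MvPolynomial.X : Fin d → MvPolynomial (Fin d) ℝ)
      (fun j => MvPolynomial.C (q j)) x).totalDegree ≤ 1 := by
    rcases x with i | j
    · exact (MvPolynomial.totalDegree_X i).le
    · simp
  calc m x * _ ≤ m x * 1 := Nat.mul_le_mul_left _ h2
    _ = m x := mul_one _

open Classical in
/-- A separated set is bounded as soon as the sample is large enough. -/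
theorem card_le (hsgn : ∀ (d K T : ℕ) (f : Fin K → MvPolynomial (Fin d) ℝ),
      (∀ k, (f k).totalDegree ≤ T) → ∀ S : Finset (Fin d → ℝ),
      (∀ a ∈ S, ∀ b ∈ S, (∀ k, SignType.sign (MvPolynomial.eval a (f k)) =
        SignType.sign (MvPolynomial.eval b (f k))) → a = b) →
      S.card ≤ (d * (2 * K * T + 1)) ^ d)
    {d : ℕ} {ι : Type} [Fintype ι] (p : ι → MvPolynomial (Fin d ⊕ Fin 2) ℝ) (T : ℕ)
    (hT : ∀ i, (p i).totalDegree ≤ T)
    {B : Set (Fin 2 → ℝ)} (hB : MeasurableSet B) (hf : volume B ≠ ⊤) (h0 : volume B ≠ 0)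
    (ε : ℝ) (hε : ε ≤ (volume B).toReal) (S : Finset (Fin d → ℝ))
    (hS : ∀ a ∈ S, ∀ a' ∈ S, a ≠ a' → ε < (volume (dis p B a a')).toReal) (M : ℕ)
    (hM : (1 - ε / (volume B).toReal) ^ M * (S.card : ℝ) ^ 2 < 1) :
    S.card ≤ (d * (2 * (M * Fintype.card ι) * T + 1)) ^ d := by
  have hv : 0 < (volume B).toReal := ENNReal.toReal_pos h0 hf
  have hr : 0 ≤ 1 - ε / (volume B).toReal := by
    rw [sub_nonneg, div_le_one hv]
    exact hε
  obtain ⟨Q, hQB, hQc, hQ⟩ := iter p hB hf h0 ε hε S.offDiag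
    (fun x hx => by
      rw [Finset.mem_offDiag] at hx
      exact (hS _ hx.1 _ hx.2.1 hx.2.2).le) M
  have hlt : ((S.offDiag.filter fun x => ∀ q ∈ Q, q ∉ dis p B x.1 x.2).card : ℝ) < 1 := by
    refine lt_of_le_of_lt hQ (lt_of_le_of_lt ?_ hM)
    apply mul_le_mul_of_nonneg_left _ (pow_nonneg hr M)
    rw [Finset.offDiag_card, pow_two]
    exact_mod_cast Nat.sub_le _ _
  have hemp : (S.offDiag.filter fun x => ∀ q ∈ Q, q ∉ dis p B x.1 x.2) = ∅ := by
    rw [← Finset.card_eq_zero]
    have : (S.offDiag.filter fun x => ∀ q ∈ Q, q ∉ dis p B x.1 x.2).card < 1 := by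
      exact_mod_cast hlt
    omega
  let e := Fintype.equivFin (Q × ι)
  have key := hsgn d (Fintype.card (Q × ι)) T
    (fun k => subst ((e.symm k).1 : Fin 2 → ℝ) (p (e.symm k).2))
    (fun k => (totalDegree_subst _ _).trans (hT _)) S (by
      intro a ha b hb hab
      by_contra hne
      have hmem : (a, b) ∈ S.offDiag := by
        rw [Finset.mem_offDiag]
        exact ⟨ha, hb, hne⟩
      have hnot := Finset.filter_eq_empty_iff.1 hemp hmem
      push Not at hnot
      obtain ⟨q, hq, hqd⟩ := hnot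
      obtain ⟨i, hi⟩ := hqd.2
      apply hi
      have := hab (e (⟨q, hq⟩, i))
      simp only [Equiv.symm_apply_apply, eval_subst] at this
      exact this)
  refine key.trans (Nat.pow_le_pow_left ?_ d)
  apply Nat.mul_le_mul_left
  apply Nat.add_le_add_right
  apply Nat.mul_le_mul_right
  apply Nat.mul_le_mul_left
  rw [Fintype.card_prod, Fintype.card_coe]
  exact Nat.mul_le_mul_right _ hQc

/-- Solving the inequality for `N`. -/
theorem analytic (d : ℕ) (A b N x : ℝ) (hA : 0 ≤ A) (hbd : b * d < 1)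
    (hle : d / (1 - b * d) ≤ (d : ℝ) + 1 / 2) (hN : 1 ≤ N) (hx : 1 ≤ x)
    (h : N ≤ (A * N ^ b * x) ^ d) :
    N ≤ (A ^ d) ^ (1 / (1 - b * d)) * x ^ ((d : ℝ) + 1 / 2) := by
  have hN0 : 0 < N := by linarith
  have hx0 : 0 < x := by linarith
  have hp : 0 < 1 - b * d := by linarith
  have h1 : N ^ (1 - b * d) ≤ A ^ d * x ^ (d : ℝ) := by
    rw [Real.rpow_sub hN0, Real.rpow_one, div_le_iff₀ (Real.rpow_pos_of_pos hN0 _)]
    refine h.trans (le_of_eq ?_)
    rw [mul_pow, mul_pow, ← Real.rpow_natCast (N ^ b), ← Real.rpow_mul hN0.le,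
      ← Real.rpow_natCast x d]
    ring
  calc N = (N ^ (1 - b * d)) ^ (1 / (1 - b * d)) := by
        rw [← Real.rpow_mul hN0.le, mul_one_div_cancel hp.ne', Real.rpow_one]
    _ ≤ (A ^ d * x ^ (d : ℝ)) ^ (1 / (1 - b * d)) :=
        Real.rpow_le_rpow (by positivity) h1 (by positivity)
    _ = (A ^ d) ^ (1 / (1 - b * d)) * x ^ ((d : ℝ) / (1 - b * d)) := by
        rw [Real.mul_rpow (by positivity) (by positivity), ← Real.rpow_mul hx0.le]
        ring_nf
    _ ≤ _ := by
        apply mul_le_mul_of_nonneg_left _ (by positivity)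
        exact Real.rpow_le_rpow_of_exponent_le hx hle

end NET

/-- NET: sets separated by `ε` have at most `C ε^(-d-1/2)` elements. -/
theorem net_of (hsgn : ∀ (d K T : ℕ) (f : Fin K → MvPolynomial (Fin d) ℝ),
      (∀ k, (f k).totalDegree ≤ T) → ∀ S : Finset (Fin d → ℝ),
      (∀ a ∈ S, ∀ b ∈ S, (∀ k, SignType.sign (MvPolynomial.eval a (f k)) =
        SignType.sign (MvPolynomial.eval b (f k))) → a = b) →
      S.card ≤ (d * (2 * K * T + 1)) ^ d)
    {d : ℕ} {ι : Type} [Finite ι] (p : ι → MvPolynomial (Fin d ⊕ Fin 2) ℝ)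
    (B : Set (Fin 2 → ℝ)) (hB : MeasurableSet B) (hf : volume B ≠ ⊤) :
    ∃ C : ℝ, ∀ ε : ℝ, 0 < ε → ε ≤ 1 → ∀ S : Finset (Fin d → ℝ),
      (∀ a ∈ S, ∀ a' ∈ S, a ≠ a' → ε < (volume (dis p B a a')).toReal) →
      (S.card : ℝ) ≤ C * ε⁻¹ ^ ((d : ℝ) + 1 / 2) := by
  classical
  have := Fintype.ofFinite ι
  obtain ⟨T, hT⟩ : ∃ T : ℕ, ∀ i, (p i).totalDegree ≤ T :=
    ⟨∑ i, (p i).totalDegree, fun i => Finset.single_le_sum (f := fun i => (p i).totalDegree)
      (fun _ _ => Nat.zero_le _) (Finset.mem_univ i)⟩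
  set v : ℝ := (volume B).toReal with hvdef
  set n : ℕ := Fintype.card ι with hn
  set b : ℝ := 1 / (2 * ((d : ℝ) + 1) ^ 2) with hb
  have hb0 : 0 < b := by positivity
  have hv0 : 0 ≤ v := ENNReal.toReal_nonneg
  set c₁ : ℝ := 2 * v / b + 1 with hc₁
  have hc₁0 : 0 ≤ c₁ := by positivity
  set A : ℝ := d * (2 * (c₁ * n) * T + 1) with hAdef
  have hA0 : 0 ≤ A := by positivity
  refine ⟨max 1 ((A ^ d) ^ (1 / (1 - b * d))), fun ε hε hε1 S hS => ?_⟩
  have hx1 : 1 ≤ ε⁻¹ := (one_le_inv₀ hε).2 hε1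
  have hpow1 : 1 ≤ ε⁻¹ ^ ((d : ℝ) + 1 / 2) := Real.one_le_rpow hx1 (by positivity)
  by_cases hcard : S.card ≤ 1
  · have h1 : (S.card : ℝ) ≤ 1 := by exact_mod_cast hcard
    calc (S.card : ℝ) ≤ 1 * 1 := by linarith
      _ ≤ _ := mul_le_mul (le_max_left _ _) hpow1 (by norm_num)
        (le_trans zero_le_one (le_max_left _ _))
  · push Not at hcard
    obtain ⟨a, ha, a', ha', hne⟩ := Finset.one_lt_card.1 hcard
    have hsub : (volume (dis p B a a')).toReal ≤ v :=
      ENNReal.toReal_mono hf (measure_mono (NET.dis_sub p B a a'))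
    have hεv : ε < v := (hS a ha a' ha' hne).trans_le hsub
    have hv : 0 < v := hε.trans hεv
    have h0 : volume B ≠ 0 := fun h => by
      rw [hvdef, h] at hv
      simp at hv
    set N : ℝ := (S.card : ℝ) with hN
    have hN1 : 1 ≤ N := by
      rw [hN]
      exact_mod_cast hcard.le
    have hN0 : 0 < N := by linarith
    have hlog : 0 ≤ Real.log N := Real.log_nonneg hN1
    set M : ℕ := ⌊2 * v / ε * Real.log N⌋₊ + 1 with hM
    have hM1 : 2 * v / ε * Real.log N < M := by
      rw [hM]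
      push_cast
      exact Nat.lt_floor_add_one _
    have hM2 : (M : ℝ) ≤ 2 * v / ε * Real.log N + 1 := by
      rw [hM]
      push_cast
      have := Nat.floor_le (show 0 ≤ 2 * v / ε * Real.log N by positivity)
      linarith
    have hlt : (1 - ε / v) ^ M * N ^ 2 < 1 := by
      have h2 : (1 - ε / v) ^ M ≤ Real.exp (-(ε / v) * M) := by
        rw [mul_comm, Real.exp_nat_mul]
        apply pow_le_pow_left₀
        · rw [sub_nonneg, div_le_one hv]
          exact hεv.le
        · have := Real.add_one_le_exp (-(ε / v))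
          linarith
      have h3 : N ^ 2 = Real.exp (2 * Real.log N) := by
        rw [mul_comm, Real.exp_mul, Real.exp_log hN0]
        norm_cast
      have h4 : 2 * Real.log N < ε / v * M := by
        have h5 := mul_lt_mul_of_pos_left hM1 (show 0 < ε / v by positivity)
        have h6 : ε / v * (2 * v / ε * Real.log N) = 2 * Real.log N := by
          field_simp
        linarith
      calc (1 - ε / v) ^ M * N ^ 2 ≤ Real.exp (-(ε / v) * M) * N ^ 2 :=
            mul_le_mul_of_nonneg_right h2 (by positivity)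
        _ = Real.exp (-(ε / v) * M + 2 * Real.log N) := by rw [h3, Real.exp_add]
        _ < 1 := by
            rw [Real.exp_lt_one_iff]
            linarith
    have hcle := NET.card_le hsgn p T hT hB hf h0 ε hεv.le S hS M hlt
    have hcle' : N ≤ (d * (2 * (M * n) * T + 1)) ^ d := by
      rw [hN]
      exact_mod_cast hcle
    have hNb : 1 ≤ N ^ b := Real.one_le_rpow hN1 hb0.le
    have hMb : (M : ℝ) ≤ c₁ * N ^ b * ε⁻¹ := by
      have h7 : Real.log N ≤ N ^ b / b := Real.log_le_rpow_div hN0.le hb0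
      have h8 : 2 * v / ε * Real.log N ≤ 2 * v / b * N ^ b * ε⁻¹ := by
        calc 2 * v / ε * Real.log N ≤ 2 * v / ε * (N ^ b / b) :=
              mul_le_mul_of_nonneg_left h7 (by positivity)
          _ = _ := by field_simp
      have h9 : 1 ≤ N ^ b * ε⁻¹ := one_le_mul_of_one_le_of_one_le hNb hx1
      calc (M : ℝ) ≤ 2 * v / b * N ^ b * ε⁻¹ + N ^ b * ε⁻¹ := by linarith
        _ = c₁ * N ^ b * ε⁻¹ := by rw [hc₁]; ring
    have hbase : (d * (2 * (M * n) * T + 1) : ℝ) ≤ A * N ^ b * ε⁻¹ := by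
      have h9 : 1 ≤ N ^ b * ε⁻¹ := one_le_mul_of_one_le_of_one_le hNb hx1
      have h10 : 2 * ((M : ℝ) * n) * T + 1 ≤ (2 * (c₁ * n) * T + 1) * (N ^ b * ε⁻¹) := by
        have h11 : (M : ℝ) * (2 * n * T) ≤ c₁ * N ^ b * ε⁻¹ * (2 * n * T) :=
          mul_le_mul_of_nonneg_right hMb (by positivity)
        nlinarith
      calc (d * (2 * (M * n) * T + 1) : ℝ) ≤ d * ((2 * (c₁ * n) * T + 1) * (N ^ b * ε⁻¹)) :=
            mul_le_mul_of_nonneg_left h10 (by positivity)
        _ = A * N ^ b * ε⁻¹ := by rw [hAdef]; ring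
    have hbd : b * d ≤ 1 / 2 := by
      rw [hb, div_mul_eq_mul_div, one_mul, div_le_iff₀ (by positivity)]
      have : (0 : ℝ) ≤ d := Nat.cast_nonneg d
      nlinarith
    have hfin := NET.analytic d A b N ε⁻¹ hA0 (by linarith) (by
      rw [div_le_iff₀ (by linarith)]
      have hd0 : (0 : ℝ) ≤ d := Nat.cast_nonneg d
      have h12 : b * d * ((d : ℝ) + 1 / 2) ≤ 1 / 2 := by
        rw [hb, div_mul_eq_mul_div, one_mul, div_mul_eq_mul_div, div_le_iff₀ (by positivity)]
        nlinarith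
      nlinarith) hN1 hx1 (hcle'.trans (pow_le_pow_left₀ (by positivity) hbase d))
    exact hfin.trans (mul_le_mul_of_nonneg_right (le_max_right _ _) (by positivity))

end Pool.Agent.MetSard
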