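import Pool.Agent.Lib.MP_0e3b4a_gt.H14.Defs

/-! # The Warren bound for sign vectors -/

set_option autoImplicit false

namespace Pool.Agent.MetSard

open MeasureTheory Set

namespace Sgn

variable {d : ℕ}

/-- The derivative of the evaluation of a polynomial. -/
theorem hasFDerivAt_eval (P : MvPolynomial (Fin d) ℝ) (x : Fin d → ℝ) :
    HasFDerivAt (fun y : Fin d → ℝ => MvPolynomial.eval y P)
      (∑ i, MvPolynomial.eval x (MvPolynomial.pderiv i P) •
        (ContinuousLinearMap.proj i : (Fin d → ℝ) →L[ℝ] ℝ)) x := by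
  induction P using MvPolynomial.induction_on with
  | C a =>
    have h : (∑ i, MvPolynomial.eval x (MvPolynomial.pderiv i (MvPolynomial.C a)) •
        (ContinuousLinearMap.proj i : (Fin d → ℝ) →L[ℝ] ℝ)) = 0 := by
      refine Finset.sum_eq_zero fun i _ => ?_
      rw [MvPolynomial.pderiv_C, map_zero, zero_smul]
    rw [h]
    simpa using hasFDerivAt_const a x
  | add P Q hP hQ =>
    have h := hP.add hQ
    refine (h.congr_fderiv ?_).congr_of_eventuallyEq ?_
    · rw [← Finset.sum_add_distrib]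
      refine Finset.sum_congr rfl fun i _ => ?_
      rw [map_add, map_add, add_smul]
    · exact Filter.Eventually.of_forall fun y => by simp
  | mul_X P j hP =>
    have h := hP.mul (hasFDerivAt_apply (𝕜 := ℝ) j x)
    refine (h.congr_fderiv ?_).congr_of_eventuallyEq ?_
    · ext v
      simp only [_root_.add_apply, _root_.smul_apply,
        ContinuousLinearMap.proj_apply, smul_eq_mul, _root_.sum_apply,
        MvPolynomial.pderiv_mul, map_add, map_mul, MvPolynomial.eval_X, MvPolynomial.pderiv_X]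
      have h1 : ∀ i, (MvPolynomial.eval x ((Pi.single (M := fun _ => MvPolynomial (Fin d) ℝ)
          i 1 : Fin d → MvPolynomial (Fin d) ℝ) j)) = if i = j then (1 : ℝ) else 0 := by
        intro i
        by_cases hij : i = j
        · subst hij; simp
        · simp [hij]
      simp only [h1, add_mul, Finset.sum_add_distrib, Finset.mul_sum]
      rw [add_comm]
      congr 1
      · refine Finset.sum_congr rfl fun i _ => by ring
      · simp
    · exact Filter.Eventually.of_forall fun y => by simp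

theorem totalDegree_pderiv_le (P : MvPolynomial (Fin d) ℝ) (i : Fin d) (n : ℕ)
    (h : P.totalDegree ≤ n + 1) : (MvPolynomial.pderiv i P).totalDegree ≤ n := by
  rw [MvPolynomial.totalDegree]
  refine Finset.sup_le fun m hm => ?_
  have h1 : MvPolynomial.coeff (m + Finsupp.single i 1) P ≠ 0 := by
    intro h0
    rw [MvPolynomial.mem_support_iff, MvPolynomial.coeff_pderiv, h0, zero_mul] at hm
    exact hm rfl
  have h2 := MvPolynomial.le_totalDegree (MvPolynomial.mem_support_iff.2 h1)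
  have h3 : ((m + Finsupp.single i 1).sum fun _ e => e) = (m.sum fun _ e => e) + 1 := by
    rw [Finsupp.sum_add_index' (fun _ => rfl) (fun _ _ _ => rfl), Finsupp.sum_single_index rfl]
  omega

variable {K : ℕ} (f : Fin K → MvPolynomial (Fin d) ℝ) (R δ : ℝ)

/-- The polynomial which vanishes on the boundaries of the cells. -/
noncomputable def G : MvPolynomial (Fin d) ℝ :=
  (MvPolynomial.C R - ∑ i, MvPolynomial.X i ^ 2) * ∏ k, (f k ^ 2 - MvPolynomial.C (δ ^ 2))

theorem eval_G (x : Fin d → ℝ) : MvPolynomial.eval x (G f R δ) =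
    (R - ∑ i, x i ^ 2) * ∏ k, ((MvPolynomial.eval x (f k)) ^ 2 - δ ^ 2) := by
  simp [G]

theorem totalDegree_G (T : ℕ) (hf : ∀ k, (f k).totalDegree ≤ T) :
    (G f R δ).totalDegree ≤ (2 * K * T + 1) + 1 := by
  have h1 : (MvPolynomial.C R - ∑ i, MvPolynomial.X i ^ 2 :
      MvPolynomial (Fin d) ℝ).totalDegree ≤ 2 := by
    refine (MvPolynomial.totalDegree_sub _ _).trans (max_le (by simp) ?_)
    refine MvPolynomial.totalDegree_finsetSum_le fun i _ => ?_
    rw [MvPolynomial.totalDegree_X_pow]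
  have h2 : (∏ k, (f k ^ 2 - MvPolynomial.C (δ ^ 2))).totalDegree ≤ 2 * K * T := by
    refine (MvPolynomial.totalDegree_finsetProd _ _).trans ?_
    calc ∑ k, (f k ^ 2 - MvPolynomial.C (δ ^ 2)).totalDegree ≤ ∑ _k : Fin K, 2 * T := by
          refine Finset.sum_le_sum fun k _ => ?_
          refine (MvPolynomial.totalDegree_sub _ _).trans (max_le ?_
            (by rw [MvPolynomial.totalDegree_C]; exact Nat.zero_le _))
          exact (MvPolynomial.totalDegree_pow _ _).trans (Nat.mul_le_mul_left 2 (hf k))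
      _ = 2 * K * T := by simp; ring
  refine (MvPolynomial.totalDegree_mul _ _).trans ?_
  omega

open Classical in
/-- The function which is positive on the cell of `a` (for the polynomial `f k`). -/
noncomputable def g (a : Fin d → ℝ) (k : Fin K) (x : Fin d → ℝ) : ℝ :=
  if 0 < MvPolynomial.eval a (f k) then MvPolynomial.eval x (f k) - δ
  else if MvPolynomial.eval a (f k) < 0 then -δ - MvPolynomial.eval x (f k)
  else δ - |MvPolynomial.eval x (f k)|

theorem continuous_g (a : Fin d → ℝ) (k : Fin K) : Continuous (g f δ a k) := by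
  have h : Continuous fun x : Fin d → ℝ => MvPolynomial.eval x (f k) :=
    MvPolynomial.continuous_eval _
  unfold g
  split_ifs
  · exact h.sub continuous_const
  · exact continuous_const.sub h
  · exact continuous_const.sub h.abs

theorem g_zero {a : Fin d → ℝ} {k : Fin K} {x : Fin d → ℝ} (h : g f δ a k x = 0) :
    (MvPolynomial.eval x (f k)) ^ 2 - δ ^ 2 = 0 := by
  unfold g at h
  split_ifs at h
  · have : MvPolynomial.eval x (f k) = δ := by linarith
    rw [this]; ring
  · have : MvPolynomial.eval x (f k) = -δ := by linarith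
    rw [this]; ring
  · have : |MvPolynomial.eval x (f k)| = δ := by linarith
    rw [← this, sq_abs]; ring

theorem g_self {a : Fin d → ℝ} {k : Fin K} (hδ : 0 < δ)
    (h : MvPolynomial.eval a (f k) ≠ 0 → δ < |MvPolynomial.eval a (f k)|) :
    0 < g f δ a k a := by
  unfold g
  split_ifs with h1 h2
  · have := h h1.ne'
    rw [abs_of_pos h1] at this
    linarith
  · have := h h2.ne
    rw [abs_of_neg h2] at this
    linarith
  · have : MvPolynomial.eval a (f k) = 0 := le_antisymm (not_lt.1 h1) (not_lt.1 h2)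
    rw [this, abs_zero]
    linarith

theorem g_sign {a b x : Fin d → ℝ} {k : Fin K} (hδ : 0 < δ) (ha : 0 < g f δ a k x)
    (hb : 0 < g f δ b k x) :
    SignType.sign (MvPolynomial.eval a (f k)) = SignType.sign (MvPolynomial.eval b (f k)) := by
  have key : ∀ c : Fin d → ℝ, 0 < g f δ c k x →
      (0 < MvPolynomial.eval c (f k) ↔ δ < MvPolynomial.eval x (f k)) ∧
      (MvPolynomial.eval c (f k) < 0 ↔ MvPolynomial.eval x (f k) < -δ) := by
    intro c hc
    unfold g at hc
    split_ifs at hc with h1 h2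
    · refine ⟨⟨fun _ => by linarith, fun _ => h1⟩, ⟨fun h => absurd h (not_lt.2 h1.le), fun h => ?_⟩⟩
      linarith
    · refine ⟨⟨fun h => absurd h h1, fun h => ?_⟩, ⟨fun h => by linarith, fun _ => h2⟩⟩
      linarith
    · have h3 := abs_lt.1 (show |MvPolynomial.eval x (f k)| < δ by linarith)
      exact ⟨⟨fun h => absurd h h1, fun h => by linarith⟩,
        ⟨fun h => absurd h h2, fun h => by linarith⟩⟩
  have h1 := key a ha
  have h2 := key b hb
  rcases lt_trichotomy (MvPolynomial.eval a (f k)) 0 with h | h | h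
  · rw [sign_neg h, sign_neg (h2.2.2 (h1.2.1 h))]
  · have h3 : MvPolynomial.eval b (f k) = 0 := by
      refine le_antisymm (not_lt.1 fun h4 => ?_) (not_lt.1 fun h4 => ?_)
      · exact absurd (h1.1.2 (h2.1.1 h4)) (by rw [h]; exact lt_irrefl _)
      · exact absurd (h1.2.2 (h2.2.1 h4)) (by rw [h]; exact lt_irrefl _)
    rw [h, h3]
  · rw [sign_pos h, sign_pos (h2.1.2 (h1.1.1 h))]

/-- The open cell. -/
def U (a : Fin d → ℝ) : Set (Fin d → ℝ) := {x | ∑ i, x i ^ 2 < R ∧ ∀ k, 0 < g f δ a k x}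

/-- The closed cell. -/
def V (a : Fin d → ℝ) : Set (Fin d → ℝ) := {x | ∑ i, x i ^ 2 ≤ R ∧ ∀ k, 0 ≤ g f δ a k x}

theorem continuous_q : Continuous fun x : Fin d → ℝ => ∑ i, x i ^ 2 :=
  continuous_finsetSum _ fun i _ => (continuous_apply i).pow 2

theorem isOpen_U (a : Fin d → ℝ) : IsOpen (U f R δ a) := by
  have h : U f R δ a = {x | ∑ i, x i ^ 2 < R} ∩ ⋂ k, {x | 0 < g f δ a k x} := by
    ext x; simp [U]
  rw [h]
  exact (isOpen_lt continuous_q continuous_const).inter
    (isOpen_iInter_of_finite fun k => isOpen_lt continuous_const (continuous_g f δ a k))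

theorem norm_le_of_q {x : Fin d → ℝ} (h : ∑ i, x i ^ 2 ≤ R) (i : Fin d) : |x i| ≤ 1 + R := by
  have h1 : x i ^ 2 ≤ ∑ i, x i ^ 2 :=
    Finset.single_le_sum (f := fun i => x i ^ 2) (fun j _ => sq_nonneg _) (Finset.mem_univ i)
  have h2 : |x i| ^ 2 ≤ R := by rw [sq_abs]; exact h1.trans h
  nlinarith [abs_nonneg (x i), sq_nonneg (|x i| - 1)]

theorem isCompact_V (a : Fin d → ℝ) (hR : 0 ≤ R) : IsCompact (V f R δ a) := by
  have h : V f R δ a = {x | ∑ i, x i ^ 2 ≤ R} ∩ ⋂ k, {x | 0 ≤ g f δ a k x} := by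
    ext x; simp [V]
  refine Metric.isCompact_of_isClosed_isBounded ?_ ?_
  · rw [h]
    exact (isClosed_le continuous_q continuous_const).inter
      (isClosed_iInter fun k => isClosed_le continuous_const (continuous_g f δ a k))
  · refine (Metric.isBounded_closedBall (x := (0 : Fin d → ℝ)) (r := 1 + R)).subset fun x hx => ?_
    rw [mem_closedBall_zero_iff]
    refine (pi_norm_le_iff_of_nonneg (by linarith)).2 fun i => ?_
    exact norm_le_of_q R hx.1 i

theorem G_zero {a x : Fin d → ℝ} (h : x ∈ V f R δ a) (h' : x ∉ U f R δ a) :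
    MvPolynomial.eval x (G f R δ) = 0 := by
  rw [eval_G]
  by_cases h1 : ∑ i, x i ^ 2 < R
  · have h2 : ¬ ∀ k, 0 < g f δ a k x := fun h3 => h' ⟨h1, h3⟩
    push Not at h2
    obtain ⟨k, hk⟩ := h2
    have h3 : g f δ a k x = 0 := le_antisymm hk (h.2 k)
    rw [Finset.prod_eq_zero (Finset.mem_univ k) (g_zero f δ h3), mul_zero]
  · have h2 : ∑ i, x i ^ 2 = R := le_antisymm h.1 (not_lt.1 h1)
    rw [h2, sub_self, zero_mul]

theorem G_ne_zero {a : Fin d → ℝ} (hδ : 0 < δ) (hR : ∑ i, a i ^ 2 < R)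
    (h : ∀ k, MvPolynomial.eval a (f k) ≠ 0 → δ < |MvPolynomial.eval a (f k)|) :
    MvPolynomial.eval a (G f R δ) ≠ 0 := by
  rw [eval_G]
  refine mul_ne_zero (by linarith) (Finset.prod_ne_zero_iff.2 fun k _ => ?_)
  by_cases h0 : MvPolynomial.eval a (f k) = 0
  · rw [h0]
    have := pow_pos hδ 2
    intro h1
    linarith
  · have h1 := h k h0
    have h2 : δ ^ 2 < |MvPolynomial.eval a (f k)| ^ 2 := by gcongr
    rw [sq_abs] at h2
    linarith

theorem lam_le {lam x : Fin d → ℝ} (h : ∑ i, x i ^ 2 ≤ R) :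
    |∑ i, lam i * x i| ≤ ‖lam‖ * (d * (1 + R)) := by
  calc |∑ i, lam i * x i| ≤ ∑ i, |lam i * x i| := Finset.abs_sum_le_sum_abs _ _
    _ ≤ ∑ _i : Fin d, ‖lam‖ * (1 + R) := by
        refine Finset.sum_le_sum fun i _ => ?_
        rw [abs_mul]
        exact mul_le_mul (norm_le_pi_norm lam i) (norm_le_of_q R h i) (abs_nonneg _)
          (norm_nonneg _)
    _ = ‖lam‖ * (d * (1 + R)) := by simp; ring

/-- In the cell of `a` the gradient of `G` takes every small value. -/
theorem exists_crit {a : Fin d → ℝ} (hδ : 0 < δ) (hR : ∑ i, a i ^ 2 < R)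
    (h : ∀ k, MvPolynomial.eval a (f k) ≠ 0 → δ < |MvPolynomial.eval a (f k)|)
    (lam : Fin d → ℝ)
    (hlam : 2 * (‖lam‖ * (d * (1 + R))) < |MvPolynomial.eval a (G f R δ)|) :
    ∃ x ∈ U f R δ a, ∀ i, MvPolynomial.eval x (MvPolynomial.pderiv i (G f R δ)) + lam i = 0 := by
  have hR0 : 0 ≤ R := (Finset.sum_nonneg fun i _ => sq_nonneg (a i)).trans hR.le
  set H : MvPolynomial (Fin d) ℝ := G f R δ + ∑ i, MvPolynomial.C (lam i) * MvPolynomial.X i
    with hH
  have hHe : ∀ x, MvPolynomial.eval x H = MvPolynomial.eval x (G f R δ) + ∑ i, lam i * x i := by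
    intro x; simp [hH]
  have hHd : ∀ i, MvPolynomial.pderiv i H = MvPolynomial.pderiv i (G f R δ) +
      MvPolynomial.C (lam i) := by
    intro i
    rw [hH, map_add, map_sum]
    congr 1
    rw [Finset.sum_eq_single i]
    · rw [MvPolynomial.pderiv_C_mul, MvPolynomial.pderiv_X_self, mul_one]
    · intro j _ hj
      rw [MvPolynomial.pderiv_C_mul, MvPolynomial.pderiv_X_of_ne hj, mul_zero]
    · intro hi; exact absurd (Finset.mem_univ i) hi
  have hau : a ∈ U f R δ a := ⟨hR, fun k => g_self f δ hδ (h k)⟩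
  have hav : a ∈ V f R δ a := ⟨hau.1.le, fun k => (hau.2 k).le⟩
  have hG0 := G_ne_zero f R δ hδ hR h
  obtain ⟨e, he, hea⟩ : ∃ e : ℝ, (e = 1 ∨ e = -1) ∧
      e * MvPolynomial.eval a (G f R δ) = |MvPolynomial.eval a (G f R δ)| := by
    rcases lt_or_gt_of_ne hG0 with h1 | h1
    · exact ⟨-1, Or.inr rfl, by rw [abs_of_neg h1]; ring⟩
    · exact ⟨1, Or.inl rfl, by rw [abs_of_pos h1]; ring⟩
  have he1 : |e| = 1 := by rcases he with rfl | rfl <;> simp
  have hcont : Continuous fun x : Fin d → ℝ => e * MvPolynomial.eval x H :=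
    continuous_const.mul (MvPolynomial.continuous_eval _)
  obtain ⟨x, hxV, hx⟩ := (isCompact_V f R δ a hR0).exists_isMaxOn ⟨a, hav⟩ hcont.continuousOn
  have hxU : x ∈ U f R δ a := by
    by_contra hxU
    have h1 := G_zero f R δ hxV hxU
    have h2 : e * MvPolynomial.eval a H ≤ e * MvPolynomial.eval x H := hx hav
    rw [hHe, hHe, h1, mul_add, hea, zero_add] at h2
    have h3 := lam_le R (lam := lam) hxV.1
    have h4 := lam_le R (lam := lam) hav.1
    have h5 : |e * ∑ i, lam i * x i| ≤ ‖lam‖ * (d * (1 + R)) := by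
      rw [abs_mul, he1, one_mul]; exact h3
    have h6 : |e * ∑ i, lam i * a i| ≤ ‖lam‖ * (d * (1 + R)) := by
      rw [abs_mul, he1, one_mul]; exact h4
    have h7 := (abs_le.1 h5).2
    have h8 := (abs_le.1 h6).1
    linarith
  refine ⟨x, hxU, ?_⟩
  have hloc : IsLocalMax (fun x : Fin d → ℝ => e * MvPolynomial.eval x H) x := by
    filter_upwards [(isOpen_U f R δ a).mem_nhds hxU] with y hy
    exact hx ⟨hy.1.le, fun k => (hy.2 k).le⟩
  have hd := hloc.hasFDerivAt_eq_zero ((hasFDerivAt_eval H x).const_mul e)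
  intro i
  have h1 := congrArg (fun L : (Fin d → ℝ) →L[ℝ] ℝ => L (Pi.single i 1)) hd
  simp only [_root_.smul_apply, _root_.sum_apply, ContinuousLinearMap.proj_apply,
    smul_eq_mul, _root_.zero_apply] at h1
  rw [Finset.sum_eq_single i] at h1
  · rw [Pi.single_eq_same, mul_one, hHd, map_add, MvPolynomial.eval_C] at h1
    rcases he with rfl | rfl <;> linarith
  · intro j _ hj
    rw [Pi.single_eq_of_ne hj, mul_zero]
  · intro hi; exact absurd (Finset.mem_univ i) hi

/-- The matrix of second derivatives. -/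
noncomputable def hess (P : MvPolynomial (Fin d) ℝ) (x : Fin d → ℝ) : Matrix (Fin d) (Fin d) ℝ :=
  Matrix.of fun i j => MvPolynomial.eval x (MvPolynomial.pderiv j (MvPolynomial.pderiv i P))

/-- Sard's theorem for the gradient. -/
theorem sard (P : MvPolynomial (Fin d) ℝ) :
    volume ((fun x : Fin d → ℝ => fun i => MvPolynomial.eval x (MvPolynomial.pderiv i P)) ''
      {x | (hess P x).det = 0}) = 0 := by
  refine addHaar_image_eq_zero_of_det_fderivWithin_eq_zero volume
    (f' := fun x => ContinuousLinearMap.pi fun i => ∑ j,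
      MvPolynomial.eval x (MvPolynomial.pderiv j (MvPolynomial.pderiv i P)) •
        (ContinuousLinearMap.proj j : (Fin d → ℝ) →L[ℝ] ℝ)) (fun x _ => ?_) (fun x hx => ?_)
  · refine HasFDerivAt.hasFDerivWithinAt ?_
    exact hasFDerivAt_pi.2 fun i => hasFDerivAt_eval _ x
  · have h : ((ContinuousLinearMap.pi fun i => ∑ j,
        MvPolynomial.eval x (MvPolynomial.pderiv j (MvPolynomial.pderiv i P)) •
        (ContinuousLinearMap.proj j : (Fin d → ℝ) →L[ℝ] ℝ) :
          (Fin d → ℝ) →L[ℝ] (Fin d → ℝ)) : (Fin d → ℝ) →ₗ[ℝ] (Fin d → ℝ)) =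
        Matrix.toLin' (hess P x) := by
      refine LinearMap.ext fun v => funext fun i => ?_
      simp [Matrix.toLin'_apply, Matrix.mulVec, dotProduct, hess]
    rw [ContinuousLinearMap.det, h, LinearMap.det_toLin']
    exact hx

end Sgn

open Sgn in
/-- SGN: the number of sign vectors, from the bound for nondegenerate zeros. -/
theorem sgn_of_bez (bez : ∀ (d T : ℕ) (f : Fin d → MvPolynomial (Fin d) ℝ),
    (∀ i, (f i).totalDegree ≤ T) → ∀ (S : Finset (Fin d → ℝ)),
    (∀ a ∈ S, ∀ i, MvPolynomial.eval a (f i) = 0) →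
    (∀ a ∈ S, (Matrix.of fun i j =>
      MvPolynomial.eval a (MvPolynomial.pderiv j (f i))).det ≠ 0) →
    S.card ≤ (d * T) ^ d) (d K T : ℕ) (f : Fin K → MvPolynomial (Fin d) ℝ)
    (hf : ∀ k, (f k).totalDegree ≤ T) (S : Finset (Fin d → ℝ))
    (hS : ∀ a ∈ S, ∀ b ∈ S, (∀ k, SignType.sign (MvPolynomial.eval a (f k)) =
      SignType.sign (MvPolynomial.eval b (f k))) → a = b) :
    S.card ≤ (d * (2 * K * T + 1)) ^ d := by
  classical
  -- the constants
  obtain ⟨R, hR⟩ : ∃ R : ℝ, ∀ a ∈ S, ∑ i, a i ^ 2 < R := by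
    refine ⟨∑ a ∈ S, ∑ i, a i ^ 2 + 1, fun a ha => ?_⟩
    have := Finset.single_le_sum (f := fun a : Fin d → ℝ => ∑ i, a i ^ 2)
      (fun b _ => Finset.sum_nonneg fun i _ => sq_nonneg (b i)) ha
    linarith
  obtain ⟨δ, hδ, hδS⟩ : ∃ δ : ℝ, 0 < δ ∧ ∀ a ∈ S, ∀ k,
      MvPolynomial.eval a (f k) ≠ 0 → δ < |MvPolynomial.eval a (f k)| := by
    have h : ∀ᶠ δ : ℝ in nhdsWithin 0 (Ioi 0), ∀ a ∈ S, ∀ k,
        MvPolynomial.eval a (f k) ≠ 0 → δ < |MvPolynomial.eval a (f k)| := by
      refine (Filter.eventually_all_finset S).2 fun a _ => Filter.eventually_all.2 fun k => ?_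
      by_cases h0 : MvPolynomial.eval a (f k) = 0
      · exact Filter.Eventually.of_forall fun δ h => absurd h0 h
      · refine Filter.Eventually.filter_mono nhdsWithin_le_nhds ?_
        exact (gt_mem_nhds (abs_pos.2 h0)).mono fun δ h _ => h
    obtain ⟨δ, h1, h2⟩ := (h.and self_mem_nhdsWithin).exists
    exact ⟨δ, h2, h1⟩
  obtain ⟨η, hη, hηS⟩ : ∃ η : ℝ, 0 < η ∧ ∀ a ∈ S,
      2 * (η * (d * (1 + R))) < |MvPolynomial.eval a (G f R δ)| := by
    have h : ∀ᶠ η : ℝ in nhdsWithin 0 (Ioi 0), ∀ a ∈ S,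
        2 * (η * (d * (1 + R))) < |MvPolynomial.eval a (G f R δ)| := by
      refine (Filter.eventually_all_finset S).2 fun a ha => ?_
      refine Filter.Eventually.filter_mono nhdsWithin_le_nhds ?_
      have h1 : Filter.Tendsto (fun η : ℝ => 2 * (η * (d * (1 + R)))) (nhds 0)
          (nhds (2 * (0 * (d * (1 + R))))) :=
        (Continuous.tendsto (by fun_prop) 0)
      refine h1.eventually_lt_const ?_
      rw [zero_mul, mul_zero]
      exact abs_pos.2 (G_ne_zero f R δ hδ (hR a ha) (hδS a ha))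
    obtain ⟨η, h1, h2⟩ := (h.and self_mem_nhdsWithin).exists
    exact ⟨η, h2, h1⟩
  -- a regular value
  obtain ⟨mu, hmu, hmuN⟩ : ∃ mu : Fin d → ℝ, mu ∈ Metric.ball (0 : Fin d → ℝ) η ∧
      mu ∉ ((fun x : Fin d → ℝ => fun i =>
        MvPolynomial.eval x (MvPolynomial.pderiv i (G f R δ))) ''
      {x | (hess (G f R δ) x).det = 0}) := by
    by_contra hc
    push Not at hc
    have h1 : volume (Metric.ball (0 : Fin d → ℝ) η) ≤ 0 :=
      (measure_mono hc).trans (sard (G f R δ)).le
    exact absurd h1 (not_le.2 (Metric.measure_ball_pos volume 0 hη))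
  rw [mem_ball_zero_iff] at hmu
  have hex : ∀ a : Fin d → ℝ, ∃ x : Fin d → ℝ, a ∈ S → (x ∈ U f R δ a ∧
      ∀ i, MvPolynomial.eval x (MvPolynomial.pderiv i (G f R δ)) = mu i) := by
    intro a
    by_cases ha : a ∈ S
    · have hR0 : 0 ≤ R := (Finset.sum_nonneg fun i _ => sq_nonneg (a i)).trans (hR a ha).le
      obtain ⟨x, h1, h2⟩ := exists_crit f R δ hδ (hR a ha) (hδS a ha) (-mu) (by
        refine lt_of_le_of_lt ?_ (hηS a ha)
        rw [norm_neg]
        gcongr)
      refine ⟨x, fun _ => ⟨h1, fun i => ?_⟩⟩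
      have := h2 i
      rw [Pi.neg_apply] at this
      linarith
    · exact ⟨a, fun h => absurd h ha⟩
  choose x hx using hex
  have hinj : ∀ a ∈ S, ∀ b ∈ S, x a = x b → a = b := by
    intro a ha b hb hab
    refine hS a ha b hb fun k => ?_
    have h1 := (hx a ha).1.2 k
    have h2 := (hx b hb).1.2 k
    rw [← hab] at h2
    exact g_sign f δ hδ h1 h2
  have hcard : (S.image x).card = S.card := Finset.card_image_of_injOn fun a ha b hb =>
    hinj a ha b hb
  rw [← hcard]
  refine bez d (2 * K * T + 1)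
    (fun i => MvPolynomial.pderiv i (G f R δ) - MvPolynomial.C (mu i)) (fun i => ?_) _
    (fun y hy i => ?_) (fun y hy => ?_)
  · refine (MvPolynomial.totalDegree_sub _ _).trans (max_le ?_ (by simp))
    exact totalDegree_pderiv_le _ i _ (totalDegree_G f R δ T hf)
  · obtain ⟨a, ha, rfl⟩ := Finset.mem_image.1 hy
    rw [map_sub, MvPolynomial.eval_C, (hx a ha).2 i, sub_self]
  · obtain ⟨a, ha, rfl⟩ := Finset.mem_image.1 hy
    have h1 : (Matrix.of fun i j => MvPolynomial.eval (x a) (MvPolynomial.pderiv j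
        (MvPolynomial.pderiv i (G f R δ) - MvPolynomial.C (mu i)))) = hess (G f R δ) (x a) := by
      ext i j
      simp [hess]
    rw [h1]
    intro h2
    exact hmuN ⟨x a, h2, funext fun i => (hx a ha).2 i⟩

end Pool.Agent.MetSard
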