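import Pool.Agent.Lib.MP_0e3b4a_gt.H14.Defs2

/-! # SHEAR: reduction of the planar theorem to curves which are monic in `y` -/

set_option autoImplicit false

namespace Pool.Agent.MetSard

open MeasureTheory Set Polynomial
open Pool.Agent.CutLoci Pool.Agent.CutLoci.H21

namespace Shear

/-- The substitution `X_0 -> X + c Y`, `X_1 -> Y`. -/
noncomputable def phi (c : ℝ) : MvPolynomial (Fin 2) ℝ →ₐ[ℝ] ℝ[X][X] :=
  MvPolynomial.aeval ![C X + C (C c) * X, X]

theorem phi_C (c a : ℝ) : phi c (MvPolynomial.C a) = C (C a) := by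
  rw [phi, MvPolynomial.aeval_C]
  rfl

theorem phi_X0 (c : ℝ) : phi c (MvPolynomial.X 0) = C X + C (C c) * X := by
  rw [phi, MvPolynomial.aeval_X]
  rfl

theorem phi_X1 (c : ℝ) : phi c (MvPolynomial.X 1) = X := by
  rw [phi, MvPolynomial.aeval_X]
  rfl

theorem evalEval_phi (c : ℝ) (z : Fin 2 → ℝ) (F : MvPolynomial (Fin 2) ℝ) :
    (phi c F).evalEval (z 0) (z 1) = MvPolynomial.eval ![z 0 + c * z 1, z 1] F := by
  induction F using MvPolynomial.induction_on with
  | C a => simp [phi_C]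
  | add p q hp hq => rw [map_add, map_add, evalEval_add, hp, hq]
  | mul_X p i hp =>
    rw [map_mul, map_mul, evalEval_mul, hp, MvPolynomial.eval_X]
    congr 1
    fin_cases i
    · show (phi c (MvPolynomial.X 0)).evalEval (z 0) (z 1) = _
      rw [phi_X0, evalEval_add, evalEval_mul, evalEval_X, evalEval_C, evalEval_C, eval_X, eval_C]
      rfl
    · show (phi c (MvPolynomial.X 1)).evalEval (z 0) (z 1) = _
      rw [phi_X1]
      simp

theorem phi_eq (c : ℝ) (F : MvPolynomial (Fin 2) ℝ) :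
    phi c F = ∑ m ∈ F.support, C (C (F.coeff m)) * ((C X + C (C c) * X) ^ m 0 * X ^ m 1) := by
  rw [phi, MvPolynomial.aeval_def, MvPolynomial.eval₂_eq']
  refine Finset.sum_congr rfl fun m _ => ?_
  rw [Fin.prod_univ_two]
  rfl

theorem natDegree_lin (c : ℝ) : (C X + C (C c) * X : ℝ[X][X]).natDegree ≤ 1 := by
  refine (natDegree_add_le _ _).trans ?_
  rw [natDegree_C, max_le_iff]
  exact ⟨Nat.zero_le _, (natDegree_C_mul_le _ _).trans natDegree_X_le⟩

theorem natDegree_term (c : ℝ) (i j : ℕ) :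
    ((C X + C (C c) * X : ℝ[X][X]) ^ i * X ^ j).natDegree ≤ i + j := by
  refine natDegree_mul_le.trans (add_le_add ?_ (natDegree_X_pow_le j))
  refine natDegree_pow_le.trans ?_
  calc i * (C X + C (C c) * X : ℝ[X][X]).natDegree ≤ i * 1 :=
        Nat.mul_le_mul_left i (natDegree_lin c)
    _ = i := mul_one i

theorem coeff_term (c : ℝ) (i j : ℕ) :
    ((C X + C (C c) * X : ℝ[X][X]) ^ i * X ^ j).coeff (i + j) = C (c ^ i) := by
  rw [coeff_mul_X_pow]
  have h := coeff_pow_of_natDegree_le (m := i) (natDegree_lin c)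
  rw [mul_one] at h
  rw [h, coeff_add, coeff_C_mul, coeff_X_one, mul_one, coeff_C, if_neg one_ne_zero, zero_add,
    C_pow]

/-- The polynomial in `c` which is the top coefficient. -/
noncomputable def qq (F : MvPolynomial (Fin 2) ℝ) (D : ℕ) : ℝ[X] :=
  ∑ m ∈ F.support.filter (fun m => m 0 + m 1 = D), monomial (m 0) (F.coeff m)

theorem qq_ne_zero {F : MvPolynomial (Fin 2) ℝ} {D : ℕ} {m : Fin 2 →₀ ℕ} (hm : m ∈ F.support)
    (hD : m 0 + m 1 = D) : qq F D ≠ 0 := by
  intro h
  have h1 : (qq F D).coeff (m 0) = F.coeff m := by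
    rw [qq, finset_sum_coeff, Finset.sum_eq_single m]
    · rw [coeff_monomial, if_pos rfl]
    · intro b hb hbm
      rw [Finset.mem_filter] at hb
      rw [coeff_monomial, if_neg]
      intro h0
      apply hbm
      ext i
      fin_cases i
      · exact h0
      · have := hb.2
        show b 1 = m 1
        omega
    · intro h0
      exact absurd (Finset.mem_filter.2 ⟨hm, hD⟩) h0
  rw [h, coeff_zero] at h1
  exact (MvPolynomial.mem_support_iff.1 hm) h1.symm

theorem coeff_phi {F : MvPolynomial (Fin 2) ℝ} {D : ℕ} (hF : ∀ m ∈ F.support, m 0 + m 1 ≤ D)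
    (c : ℝ) : (phi c F).coeff D = C ((qq F D).eval c) := by
  rw [phi_eq, finset_sum_coeff, qq, eval_finset_sum, map_sum, Finset.sum_filter]
  refine Finset.sum_congr rfl fun m hm => ?_
  rw [coeff_C_mul]
  split_ifs with h
  · rw [← h, coeff_term, eval_monomial, C_mul]
  · rw [coeff_eq_zero_of_natDegree_lt, mul_zero]
    exact (natDegree_term c _ _).trans_lt (lt_of_le_of_ne (hF m hm) h)

theorem coeff_phi_eq_zero {F : MvPolynomial (Fin 2) ℝ} {D : ℕ}
    (hF : ∀ m ∈ F.support, m 0 + m 1 ≤ D) (c : ℝ) {n : ℕ} (hn : D < n) :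
    (phi c F).coeff n = 0 := by
  rw [phi_eq, finset_sum_coeff]
  refine Finset.sum_eq_zero fun m hm => ?_
  rw [coeff_C_mul, coeff_eq_zero_of_natDegree_lt, mul_zero]
  exact (natDegree_term c _ _).trans_lt ((hF m hm).trans_lt hn)

/-- For a suitable shear the polynomial has a constant leading coefficient in `y`. -/
theorem exists_shear {F : MvPolynomial (Fin 2) ℝ} (hF : F ≠ 0) : ∃ c D : ℕ,
    (∀ n, D < n → (phi c F).coeff n = 0) ∧ ∃ k : ℝ, k ≠ 0 ∧ (phi c F).coeff D = C k := by
  have hs : F.support.Nonempty := MvPolynomial.support_nonempty.2 hF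
  obtain ⟨m, hm, hmax⟩ := Finset.exists_max_image F.support (fun m => m 0 + m 1) hs
  have hle : ∀ m' ∈ F.support, m' 0 + m' 1 ≤ m 0 + m 1 := hmax
  have hq := qq_ne_zero hm rfl
  obtain ⟨c, hc⟩ : ∃ c : ℕ, (qq F (m 0 + m 1)).eval (c : ℝ) ≠ 0 := by
    by_contra hno
    push Not at hno
    apply hq
    apply Polynomial.eq_zero_of_infinite_isRoot
    refine Set.Infinite.mono ?_ (Set.infinite_range_of_injective (Nat.cast_injective (R := ℝ)))
    rintro _ ⟨n, rfl⟩
    exact hno n
  exact ⟨c, m 0 + m 1, fun n hn => coeff_phi_eq_zero hle c hn, _, hc, coeff_phi hle c⟩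

/-- The substitution `X_0 -> X_0 + c X_1`. -/
noncomputable def sig (c : ℝ) : MvPolynomial (Fin 2) ℝ →ₐ[ℝ] MvPolynomial (Fin 2) ℝ :=
  MvPolynomial.aeval ![MvPolynomial.X 0 + MvPolynomial.C c * MvPolynomial.X 1, MvPolynomial.X 1]

theorem eval_sig (c : ℝ) (z : Fin 2 → ℝ) (F : MvPolynomial (Fin 2) ℝ) :
    MvPolynomial.eval z (sig c F) = MvPolynomial.eval ![z 0 + c * z 1, z 1] F := by
  induction F using MvPolynomial.induction_on with
  | C a => simp [sig]
  | add p q hp hq => rw [map_add, map_add, map_add, hp, hq]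
  | mul_X p i hp =>
    rw [map_mul, map_mul, map_mul, hp, MvPolynomial.eval_X]
    congr 1
    fin_cases i <;> simp [sig]

/-- Every polynomial is a partial derivative. -/
theorem exists_pderiv (p : MvPolynomial (Fin 2) ℝ) : ∃ S, MvPolynomial.pderiv 1 S = p := by
  induction p using MvPolynomial.induction_on' with
  | monomial s a =>
    refine ⟨MvPolynomial.monomial (s + Finsupp.single 1 1) (a / (s 1 + 1)), ?_⟩
    rw [MvPolynomial.pderiv_monomial]
    congr 1
    · simp
    · have : ((s 1 : ℝ) + 1) ≠ 0 := by positivity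
      simp only [Finsupp.add_apply, Finsupp.single_eq_same, Nat.cast_add, Nat.cast_one]
      field_simp
  | add p q hp hq =>
    obtain ⟨S, hS⟩ := hp
    obtain ⟨T, hT⟩ := hq
    exact ⟨S + T, by rw [map_add, hS, hT]⟩

theorem contDiff_eval (p : MvPolynomial (Fin 2) ℝ) :
    ContDiff ℝ 1 fun z : Fin 2 → ℝ => MvPolynomial.eval z p := by
  induction p using MvPolynomial.induction_on with
  | C a => simpa using contDiff_const
  | add p q hp hq => simpa using hp.add hq
  | mul_X p i hp => simpa using hp.mul (contDiff_apply ℝ ℝ i)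

/-- The linear shear of the plane. -/
noncomputable def lc (c : ℝ) : EE 2 →L[ℝ] EE 2 :=
  LinearMap.toContinuousLinearMap
    { toFun := fun v => WithLp.toLp 2 ![v 0 - c * v 1, v 1]
      map_add' := fun v w => by
        ext i
        fin_cases i
        · simp; ring
        · simp
      map_smul' := fun a v => by
        ext i
        fin_cases i
        · simp; ring
        · simp }

theorem lc_zero (c : ℝ) (v : EE 2) : lc c v 0 = v 0 - c * v 1 := rfl

theorem lc_one (c : ℝ) (v : EE 2) : lc c v 1 = v 1 := rfl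

theorem xx_lc {c : ℝ} {u : ℝ → EE 2} (hu : IntegrableOn u (Ioc 0 1)) {t : ℝ}
    (ht : t ∈ Icc (0 : ℝ) 1) :
    xx u t = ![xx (fun t => lc c (u t)) t 0 + c * xx (fun t => lc c (u t)) t 1,
      xx (fun t => lc c (u t)) t 1] := by
  have h : (∫ s in (0 : ℝ)..t, lc c (u s)) = lc c (∫ s in (0 : ℝ)..t, u s) :=
    (lc c).intervalIntegral_comp_comm (ii hu ht)
  funext i
  have h0 : xx (fun t => lc c (u t)) t 0 = xx u t 0 - c * xx u t 1 := by
    show (∫ s in (0 : ℝ)..t, lc c (u s)) 0 = _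
    rw [h]
    rfl
  have h1 : xx (fun t => lc c (u t)) t 1 = xx u t 1 := by
    show (∫ s in (0 : ℝ)..t, lc c (u s)) 1 = _
    rw [h]
    rfl
  rw [h0, h1]
  fin_cases i
  · simp
  · simp

/-- Spanning families of prescribed length. -/
theorem exists_family {E : Type*} [AddCommGroup E] [Module ℝ E] (V : Submodule ℝ E)
    [FiniteDimensional ℝ V] {d : ℕ} (hd : Module.finrank ℝ V ≤ d) :
    ∃ v : Fin d → E, (∀ i, v i ∈ V) ∧ ∀ x ∈ V, ∃ a : Fin d → ℝ, x = ∑ i, a i • v i := by
  obtain ⟨e, rfl⟩ := Nat.exists_eq_add_of_le hd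
  set b := Module.finBasis ℝ V with hb
  refine ⟨Fin.addCases (fun j => (b j : E)) fun _ => 0, ?_, fun x hx =>
    ⟨Fin.addCases (fun j => b.repr ⟨x, hx⟩ j) fun _ => 0, ?_⟩⟩
  · intro i
    refine Fin.addCases (fun j => ?_) (fun j => ?_) i
    · simp
    · simp
  · rw [Fin.sum_univ_add]
    simp only [Fin.addCases_left, Fin.addCases_right, smul_zero, Finset.sum_const_zero, add_zero]
    have h := congrArg V.subtype (b.sum_repr ⟨x, hx⟩)
    rw [map_sum] at h
    exact h.symm

/-- The members of `W` of degree at most `D` in `y` after the shear, with constant coefficient. -/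
noncomputable def Wp (W : Submodule ℝ (MvPolynomial (Fin 2) ℝ)) (c : ℝ) (D : ℕ) :
    Submodule ℝ (MvPolynomial (Fin 2) ℝ) where
  carrier := {F | F ∈ W ∧ (∀ n, D < n → (phi c F).coeff n = 0) ∧
    ∀ j, 1 ≤ j → ((phi c F).coeff D).coeff j = 0}
  add_mem' := by
    rintro F G ⟨hF, hF1, hF2⟩ ⟨hG, hG1, hG2⟩
    refine ⟨add_mem hF hG, fun n hn => ?_, fun j hj => ?_⟩
    · rw [map_add, coeff_add, hF1 n hn, hG1 n hn, add_zero]
    · rw [map_add, coeff_add, coeff_add, hF2 j hj, hG2 j hj, add_zero]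
  zero_mem' := ⟨zero_mem _, fun n _ => by simp, fun j _ => by simp⟩
  smul_mem' := by
    rintro a F ⟨hF, hF1, hF2⟩
    refine ⟨W.smul_mem a hF, fun n hn => ?_, fun j hj => ?_⟩
    · rw [map_smul, coeff_smul, hF1 n hn, smul_zero]
    · rw [map_smul, coeff_smul, coeff_smul, hF2 j hj, smul_zero]

/-- The coefficient. -/
noncomputable def lam (c : ℝ) (D : ℕ) : MvPolynomial (Fin 2) ℝ →ₗ[ℝ] ℝ where
  toFun F := ((phi c F).coeff D).coeff 0
  map_add' F G := by rw [map_add, coeff_add, coeff_add]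
  map_smul' a F := by rw [map_smul, coeff_smul, coeff_smul]; rfl

/-- The part of `SS` with a given shear and degree. -/
def SA (W : Submodule ℝ (MvPolynomial (Fin 2) ℝ)) (c : ℝ) (D : ℕ) {κ : Type}
    (P : κ → Fin 2 → MvPolynomial (Fin 2) ℝ) : Set ((Fin 2 → ℝ) × (κ → ℝ)) :=
  {v | ∃ u : ℝ → EE 2, IntegrableOn u (Ioc 0 1) ∧ ∃ F ∈ Wp W c D, lam c D F ≠ 0 ∧
    (∀ t ∈ Icc (0 : ℝ) 1, MvPolynomial.eval (xx u t) F = 0) ∧ v.1 = xx u 1 ∧
    ∀ k, v.2 k = ∫ t in (0 : ℝ)..1,
      (u t 0 * MvPolynomial.eval (xx u t) (P k 0) + u t 1 * MvPolynomial.eval (xx u t) (P k 1))}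

theorem coeff_eq_C {p : ℝ[X]} (h : ∀ j, 1 ≤ j → p.coeff j = 0) : p = C (p.coeff 0) := by
  ext j
  rw [coeff_C]
  split_ifs with hj
  · rw [hj]
  · exact h j (Nat.one_le_iff_ne_zero.2 hj)

theorem dim_SA (hM : MonoS) (W : Submodule ℝ (MvPolynomial (Fin 2) ℝ)) [FiniteDimensional ℝ W]
    (c : ℝ) (D : ℕ) {κ : Type} [Fintype κ] (P : κ → Fin 2 → MvPolynomial (Fin 2) ℝ) :
    dimH (SA W c D P) ≤ (Module.finrank ℝ W : ENNReal) + 3 / 2 := by
  by_cases hex : ∃ F ∈ Wp W c D, lam c D F ≠ 0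
  swap
  · have : SA W c D P = ∅ := by
      rw [Set.eq_empty_iff_forall_notMem]
      rintro v ⟨u, _, F, hF, hl, _⟩
      exact hex ⟨F, hF, hl⟩
    rw [this, dimH_empty]
    exact bot_le
  obtain ⟨F1, hF1, hl1⟩ := hex
  have hWle : Wp W c D ≤ W := fun F hF => hF.1
  have hfin : FiniteDimensional ℝ (Wp W c D) := Submodule.finiteDimensional_of_le hWle
  set V := Wp W c D ⊓ LinearMap.ker (lam c D) with hV
  have hfinV : FiniteDimensional ℝ V := Submodule.finiteDimensional_of_le inf_le_left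
  have hlt : V < Wp W c D := by
    refine lt_of_le_of_ne inf_le_left fun h => hl1 ?_
    have : F1 ∈ V := by rw [h]; exact hF1
    exact this.2
  have hr1 := Submodule.finrank_lt_finrank_of_lt hlt
  have hr2 := Submodule.finrank_mono hWle
  obtain ⟨d, hd⟩ : ∃ d, Module.finrank ℝ W = d + 1 :=
    ⟨Module.finrank ℝ W - 1, by omega⟩
  obtain ⟨v, hvV, hv⟩ := exists_family V (d := d) (by omega)
  set F0 := (lam c D F1)⁻¹ • F1 with hF0
  have hF0W : F0 ∈ Wp W c D := Submodule.smul_mem _ _ hF1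
  have hF0l : lam c D F0 = 1 := by
    rw [hF0, map_smul, smul_eq_mul, inv_mul_cancel₀ hl1]
  -- the family
  set ι : ℝ[X][X] →+* (MvPolynomial (Fin d) ℝ)[X][X] :=
    mapRingHom (mapRingHom MvPolynomial.C) with hι
  set FF : (MvPolynomial (Fin d) ℝ)[X][X] :=
    ι (phi c F0) + ∑ i, C (C (MvPolynomial.X i)) * ι (phi c (v i)) with hFF
  have hιc : ∀ (p : ℝ[X][X]) (n : ℕ), (ι p).coeff n = (p.coeff n).map MvPolynomial.C := by
    intro p n
    rw [hι, coe_mapRingHom, coeff_map]
    rfl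
  have hmon : FF.Monic := by
    apply monic_of_degree_le D
    · rw [degree_le_iff_coeff_zero]
      intro n hn
      have hn' : D < n := by exact_mod_cast hn
      rw [hFF, coeff_add, finset_sum_coeff, hιc, hF0W.2.1 n hn', Polynomial.map_zero, zero_add]
      refine Finset.sum_eq_zero fun i _ => ?_
      rw [coeff_C_mul, hιc, (hvV i).1.2.1 n hn', Polynomial.map_zero, mul_zero]
    · have h0 : (phi c F0).coeff D = 1 := by
        rw [coeff_eq_C hF0W.2.2]
        have : ((phi c F0).coeff D).coeff 0 = 1 := hF0l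
        rw [this, C_1]
      rw [hFF, coeff_add, finset_sum_coeff, hιc, h0, Polynomial.map_one, Finset.sum_eq_zero,
        add_zero]
      intro i _
      have h1 : (phi c (v i)).coeff D = 0 := by
        rw [coeff_eq_C (hvV i).1.2.2]
        have : ((phi c (v i)).coeff D).coeff 0 = 0 := (hvV i).2
        rw [this, C_0]
      rw [coeff_C_mul, hιc, h1, Polynomial.map_zero, mul_zero]
  have hsp : ∀ a : Fin d → ℝ, sp FF a = phi c (F0 + ∑ i, a i • v i) := by
    intro a
    have hcomp : ∀ p : ℝ[X][X], (ι p).map (mapRingHom (MvPolynomial.eval a)) = p := by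
      intro p
      rw [hι, coe_mapRingHom, Polynomial.map_map, mapRingHom_comp]
      have : (MvPolynomial.eval a).comp (MvPolynomial.C : ℝ →+* MvPolynomial (Fin d) ℝ) =
          RingHom.id ℝ := by
        ext x
        simp
      rw [this, mapRingHom_id, Polynomial.map_id]
    rw [sp, hFF, Polynomial.map_add, Polynomial.map_sum, hcomp, map_add, map_sum]
    congr 1
    refine Finset.sum_congr rfl fun i _ => ?_
    rw [Polynomial.map_mul, hcomp, map_smul, Polynomial.map_C, coe_mapRingHom, Polynomial.map_C,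
      MvPolynomial.eval_X]
    ext1 n
    rw [coeff_C_mul, coeff_smul]
    ext1 j
    rw [coeff_C_mul, coeff_smul, smul_eq_mul]
  -- the one forms
  choose S hS using fun k => exists_pderiv (sig c (P k 1) + MvPolynomial.C c * sig c (P k 0))
  set G : κ → MvPolynomial (Fin 2) ℝ := fun k => sig c (P k 0) - MvPolynomial.pderiv 0 (S k)
    with hG
  set Θ : (Fin 2 → ℝ) × (κ → ℝ) → (Fin 2 → ℝ) × (κ → ℝ) := fun z =>
    (![z.1 0 + c * z.1 1, z.1 1],
      fun k => MvPolynomial.eval z.1 (S k) - MvPolynomial.eval 0 (S k) + z.2 k) with hΘ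
  have hΘc : ContDiff ℝ 1 Θ := by
    refine ContDiff.prodMk ?_ ?_
    · rw [contDiff_pi]
      intro i
      have h0 : ContDiff ℝ 1 fun z : (Fin 2 → ℝ) × (κ → ℝ) => z.1 0 :=
        (contDiff_apply ℝ ℝ 0).comp contDiff_fst
      have h1 : ContDiff ℝ 1 fun z : (Fin 2 → ℝ) × (κ → ℝ) => z.1 1 :=
        (contDiff_apply ℝ ℝ 1).comp contDiff_fst
      fin_cases i
      · simpa using h0.add (contDiff_const.mul h1)
      · simpa using h1
    · rw [contDiff_pi]
      intro k
      refine ContDiff.add (ContDiff.sub ((contDiff_eval (S k)).comp contDiff_fst) contDiff_const) ?_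
      exact (contDiff_apply ℝ ℝ k).comp contDiff_snd
  have hsub : SA W c D P ⊆ Θ '' TT FF G := by
    rintro w ⟨u, hu, F, hF, hl, hz, hw1, hw2⟩
    set u' : ℝ → EE 2 := fun t => lc c (u t) with hu'
    have hu'i : IntegrableOn u' (Ioc 0 1) := (lc c).integrable_comp hu
    have hxx : ∀ t ∈ Icc (0 : ℝ) 1, xx u t = ![xx u' t 0 + c * xx u' t 1, xx u' t 1] :=
      fun t ht => xx_lc hu ht
    have h1m : (1 : ℝ) ∈ Icc (0 : ℝ) 1 := ⟨zero_le_one, le_rfl⟩
    obtain ⟨a, ha⟩ := hv ((lam c D F)⁻¹ • F - F0) ⟨sub_mem (Submodule.smul_mem _ _ hF) hF0W, by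
      show lam c D ((lam c D F)⁻¹ • F - F0) = 0
      rw [map_sub, map_smul, smul_eq_mul, inv_mul_cancel₀ hl, hF0l, sub_self]⟩
    have ha' : F0 + ∑ i, a i • v i = (lam c D F)⁻¹ • F := by
      rw [← ha]
      abel
    refine ⟨(xx u' 1, fun k => ∫ t in (0 : ℝ)..1, u' t 0 * MvPolynomial.eval (xx u' t) (G k)),
      ⟨a, u', hu'i, fun t ht => ?_, rfl, fun k => rfl⟩, ?_⟩
    · rw [hsp, ha', evalEval_phi, ← hxx t ht, MvPolynomial.smul_eval, hz t ht, mul_zero]
    · refine Prod.ext ?_ (funext fun k => ?_)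
      · rw [hw1, hxx 1 h1m]
      · rw [hw2 k]
        show MvPolynomial.eval (xx u' 1) (S k) - MvPolynomial.eval 0 (S k) +
          (∫ t in (0 : ℝ)..1, u' t 0 * MvPolynomial.eval (xx u' t) (G k)) = _
        rw [chain hu'i (S k) 1 h1m, add_sub_cancel_left, ← intervalIntegral.integral_add]
        · refine intervalIntegral.integral_congr fun t ht => ?_
          rw [uIcc_of_le zero_le_one] at ht
          have e0 : MvPolynomial.eval (xx u t) (P k 0) =
              MvPolynomial.eval (xx u' t) (sig c (P k 0)) := by rw [eval_sig, ← hxx t ht]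
          have e1 : MvPolynomial.eval (xx u t) (P k 1) =
              MvPolynomial.eval (xx u' t) (sig c (P k 1)) := by rw [eval_sig, ← hxx t ht]
          have u0 : u' t 0 = u t 0 - c * u t 1 := lc_zero c (u t)
          have u1 : u' t 1 = u t 1 := lc_one c (u t)
          show u' t 0 * MvPolynomial.eval (xx u' t) (MvPolynomial.pderiv 0 (S k)) +
            u' t 1 * MvPolynomial.eval (xx u' t) (MvPolynomial.pderiv 1 (S k)) +
            u' t 0 * MvPolynomial.eval (xx u' t) (G k) =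
            u t 0 * MvPolynomial.eval (xx u t) (P k 0) + u t 1 * MvPolynomial.eval (xx u t) (P k 1)
          rw [e0, e1, hS k, hG, u0, u1]
          simp only [map_add, map_sub, map_mul, MvPolynomial.eval_C]
          ring
        · exact ii ((int_mul (comp_int hu'i 0) (cont_eval (cont_xx hu'i) _)).add
            (int_mul (comp_int hu'i 1) (cont_eval (cont_xx hu'i) _))) h1m
        · exact ii (int_mul (comp_int hu'i 0) (cont_eval (cont_xx hu'i) _)) h1m
  calc dimH (SA W c D P) ≤ dimH (Θ '' TT FF G) := dimH_mono hsub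
    _ ≤ dimH (TT FF G) := hΘc.contDiffOn.dimH_image_le convex_univ (subset_univ _)
    _ ≤ (d : ENNReal) + 5 / 2 := hM d FF hmon κ G
    _ = (Module.finrank ℝ W : ENNReal) + 3 / 2 := by
      rw [hd]
      push_cast
      rw [add_assoc]
      congr 1
      have h2 : (2 : ENNReal) / 2 = 1 := ENNReal.div_self two_ne_zero ENNReal.ofNat_ne_top
      rw [← h2, ← ENNReal.add_div]
      norm_num

end Shear

open Shear

/-- SHEAR -/
theorem planar_of_mono (hM : MonoS) : PlanarS := by
  intro W hW κ _ P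
  have hsub : SS W P ⊆ ⋃ p : ℕ × ℕ, SA W p.1 p.2 P := by
    rintro v ⟨u, hu, F, hF, hF0, hz, h1, h2⟩
    obtain ⟨c, D, hD, k, hk, hc⟩ := exists_shear hF0
    rw [mem_iUnion]
    refine ⟨(c, D), u, hu, F, ⟨hF, hD, fun j hj => ?_⟩, ?_, hz, h1, h2⟩
    · rw [hc, coeff_C, if_neg (by omega)]
    · show ((phi c F).coeff D).coeff 0 ≠ 0
      rw [hc, coeff_C_zero]
      exact hk
  refine (dimH_mono hsub).trans ?_
  rw [dimH_iUnion]
  exact iSup_le fun p => dim_SA hM W p.1 p.2 P

end Pool.Agent.MetSard
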