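import Pool.Agent.Lib.MP_0e3b4a_gt.H14.BEZ
import Pool.Agent.Lib.MP_0e3b4a_gt.H14.SGN0
import Pool.Agent.Lib.MP_0e3b4a_gt.H14.NET
import Pool.Agent.Lib.MP_0e3b4a_gt.H14.BRKX
import Pool.Agent.Lib.MP_0e3b4a_gt.H14.SHEAR
import Pool.Agent.Lib.MP_0e3b4a_gt.H14.Main

/-! # The modules together -/

set_option autoImplicit false

namespace Pool.Agent.MetSard

open MeasureTheory

theorem netS : NetS := fun _ _ _ p B hB hf => net_of (sgn_of_bez bez) p B hB hf

theorem planarS : PlanarS := planar_of_mono (Mono.mono_of netS relX brkX)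

end Pool.Agent.MetSard
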