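import Pool.Agent.Lib.MP_0e3b4a_gt.H14.Defs

/-! # A weak Bezout bound: nondegenerate zeros of a polynomial map -/

set_option autoImplicit false

namespace Pool.Agent.MetSard

namespace BEZ

open Filter Topology

variable {d : ℕ}

theorem hasStrictFDerivAt_eval (P : MvPolynomial (Fin d) ℝ) (x : Fin d → ℝ) :
    HasStrictFDerivAt (fun y : Fin d → ℝ => MvPolynomial.eval y P)
      (∑ i, MvPolynomial.eval x (MvPolynomial.pderiv i P) •
        (ContinuousLinearMap.proj i : (Fin d → ℝ) →L[ℝ] ℝ)) x := by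
  induction P using MvPolynomial.induction_on with
  | C a =>
    have h : (∑ i, MvPolynomial.eval x (MvPolynomial.pderiv i (MvPolynomial.C a)) •
        (ContinuousLinearMap.proj i : (Fin d → ℝ) →L[ℝ] ℝ)) = 0 := by
      refine Finset.sum_eq_zero fun i _ => ?_
      rw [MvPolynomial.pderiv_C, map_zero, zero_smul]
    rw [h]
    simpa using hasStrictFDerivAt_const a x
  | add P Q hP hQ =>
    have h := hP.add hQ
    refine (h.congr_fderiv ?_).congr_of_eventuallyEq ?_
    · rw [← Finset.sum_add_distrib]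
      refine Finset.sum_congr rfl fun i _ => ?_
      rw [map_add, map_add, add_smul]
    · exact Filter.Eventually.of_forall fun y => by simp
  | mul_X P j hP =>
    have h := hP.mul (hasStrictFDerivAt_apply (𝕜 := ℝ) j x)
    refine (h.congr_fderiv ?_).congr_of_eventuallyEq ?_
    · ext v
      simp only [_root_.add_apply, _root_.smul_apply,
        ContinuousLinearMap.proj_apply, smul_eq_mul, _root_.sum_apply,
        MvPolynomial.pderiv_mul, map_add, map_mul, MvPolynomial.eval_X, MvPolynomial.pderiv_X]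
      have h1 : ∀ i, (MvPolynomial.eval x ((Pi.single (M := fun _ => MvPolynomial (Fin d) ℝ)
          i 1 : Fin d → MvPolynomial (Fin d) ℝ) j)) = if i = j then (1 : ℝ) else 0 := by
        intro i
        by_cases hij : i = j
        · subst hij; simp
        · simp [hij]
      simp only [h1, add_mul, Finset.sum_add_distrib, Finset.mul_sum]
      rw [add_comm]
      congr 1
      · refine Finset.sum_congr rfl fun i _ => by ring
      · simp
    · exact Filter.Eventually.of_forall fun y => by simp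

/-- The local inverse of a polynomial map at a nondegenerate zero. -/
theorem exists_inv (f : Fin d → MvPolynomial (Fin d) ℝ) (a : Fin d → ℝ)
    (h0 : ∀ i, MvPolynomial.eval a (f i) = 0)
    (hnd : (Matrix.of fun i j => MvPolynomial.eval a (MvPolynomial.pderiv j (f i))).det ≠ 0) :
    ∃ g : (Fin d → ℝ) → (Fin d → ℝ), Tendsto g (𝓝 0) (𝓝 a) ∧
      ∀ᶠ y in 𝓝 (0 : Fin d → ℝ), ∀ i, MvPolynomial.eval (g y) (f i) = y i := by
  set F : (Fin d → ℝ) → (Fin d → ℝ) := fun x i => MvPolynomial.eval x (f i) with hF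
  set A : Matrix (Fin d) (Fin d) ℝ :=
    Matrix.of fun i j => MvPolynomial.eval a (MvPolynomial.pderiv j (f i)) with hA
  set F' : (Fin d → ℝ) →L[ℝ] (Fin d → ℝ) := LinearMap.toContinuousLinearMap (Matrix.toLin' A)
    with hF'
  have hdet : F'.det ≠ 0 := by
    rw [hF', LinearMap.det_toContinuousLinearMap, LinearMap.det_toLin']
    exact hnd
  have hst : HasStrictFDerivAt F F' a := by
    rw [hasStrictFDerivAt_pi']
    intro i
    have h := hasStrictFDerivAt_eval (f i) a
    refine h.congr_fderiv ?_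
    ext v
    simp [hF', hA, Matrix.mulVec, dotProduct]
  have hst' : HasStrictFDerivAt F
      ((F'.toContinuousLinearEquivOfDetNeZero hdet : (Fin d → ℝ) ≃L[ℝ] (Fin d → ℝ)) :
        (Fin d → ℝ) →L[ℝ] (Fin d → ℝ)) a := by
    refine hst.congr_fderiv ?_
    ext v
    simp
  have hFa : F a = 0 := by
    ext i
    simp [hF, h0]
  refine ⟨hst'.localInverse F _ a, ?_, ?_⟩
  · have := hst'.localInverse_tendsto
    rwa [hFa] at this
  · have := hst'.eventually_right_inverse
    rw [hFa] at this
    filter_upwards [this] with y hy i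
    exact congrFun hy i

/-- Interpolation at finitely many points. -/
theorem exists_interp (S : Finset (Fin d → ℝ)) (p : Fin d → ℝ) :
    ∃ h : MvPolynomial (Fin d) ℝ, MvPolynomial.eval p h = 1 ∧
      ∀ q ∈ S, q ≠ p → MvPolynomial.eval q h = 0 := by
  classical
  have hne : ∀ q : Fin d → ℝ, ∃ u : MvPolynomial (Fin d) ℝ, MvPolynomial.eval p u = 1 ∧
      (q ≠ p → MvPolynomial.eval q u = 0) := by
    intro q
    by_cases hq : q = p
    · exact ⟨1, by simp, fun h => absurd hq h⟩
    · obtain ⟨i, hi⟩ := Function.ne_iff.1 hq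
      have hi' : p i - q i ≠ 0 := fun h => hi (by linarith)
      refine ⟨MvPolynomial.C ((p i - q i)⁻¹) * (MvPolynomial.X i - MvPolynomial.C (q i)), ?_, ?_⟩
      · simp [hi']
      · intro _
        simp
  choose u hu1 hu2 using hne
  refine ⟨∏ q ∈ S, u q, ?_, ?_⟩
  · rw [map_prod]
    exact Finset.prod_eq_one fun q _ => hu1 q
  · intro q hq hqp
    rw [map_prod]
    exact Finset.prod_eq_zero hq (hu2 q hqp)

/-- The exponent vector of `α`. -/
noncomputable def ex {N : ℕ} (α : Fin d → Fin (N + 1)) : Fin d →₀ ℕ :=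
  Finsupp.equivFunOnFinite.symm fun i => (α i : ℕ)

theorem ex_apply {N : ℕ} (α : Fin d → Fin (N + 1)) (i : Fin d) : ex α i = (α i : ℕ) := rfl

theorem ex_injective {N : ℕ} : Function.Injective (ex (d := d) (N := N)) := by
  intro α β h
  funext i
  apply Fin.ext
  have := DFunLike.congr_fun h i
  simpa [ex_apply] using this

/-- A polynomial function of bounded degrees which vanishes near `0` has vanishing coefficients. -/
theorem coeff_zero {N : ℕ} (c : (Fin d → Fin (N + 1)) → ℝ)
    (h : ∀ᶠ y in 𝓝 (0 : Fin d → ℝ), ∑ α, c α * ∏ i, y i ^ (α i : ℕ) = 0) : c = 0 := by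
  classical
  set Q : MvPolynomial (Fin d) ℝ := ∑ α, MvPolynomial.monomial (ex α) (c α) with hQ
  have hev : ∀ y : Fin d → ℝ, MvPolynomial.eval y Q = ∑ α, c α * ∏ i, y i ^ (α i : ℕ) := by
    intro y
    rw [hQ, map_sum]
    refine Finset.sum_congr rfl fun α _ => ?_
    rw [MvPolynomial.eval_monomial, Finsupp.prod_fintype _ _ (by simp)]
    simp [ex_apply]
  obtain ⟨ε, hε, hb⟩ := Metric.eventually_nhds_iff_ball.1 h
  have hQ0 : Q = 0 := by
    refine MvPolynomial.funext_set (fun _ => Set.Ioo (-ε) ε)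
      (fun _ => Set.Ioo_infinite (by linarith)) ?_
    intro y hy
    rw [map_zero, hev]
    apply hb
    rw [mem_ball_zero_iff, pi_norm_lt_iff hε]
    intro i
    have := hy i (Set.mem_univ i)
    rw [Real.norm_eq_abs, abs_lt]
    exact this
  funext α
  have : MvPolynomial.coeff (ex α) Q = c α := by
    rw [hQ, MvPolynomial.coeff_sum, Finset.sum_eq_single α]
    · simp
    · intro β _ hβ
      rw [MvPolynomial.coeff_monomial, if_neg]
      exact fun h => hβ (ex_injective h)
    · intro h; exact absurd (Finset.mem_univ α) h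
  rw [← this, hQ0]
  simp

/-- The main independence statement. -/
theorem indep (f : Fin d → MvPolynomial (Fin d) ℝ) (S : Finset (Fin d → ℝ))
    (h0 : ∀ a ∈ S, ∀ i, MvPolynomial.eval a (f i) = 0)
    (hnd : ∀ a ∈ S,
      (Matrix.of fun i j => MvPolynomial.eval a (MvPolynomial.pderiv j (f i))).det ≠ 0)
    (h : S → MvPolynomial (Fin d) ℝ)
    (hh : ∀ p q : S, MvPolynomial.eval (q : Fin d → ℝ) (h p) = if q = p then 1 else 0)
    (L : ℕ) (c : S × (Fin d → Fin (L + 1)) → ℝ)
    (hc : ∑ x, c x • (h x.1 * ∏ i, f i ^ (x.2 i : ℕ)) = 0) : c = 0 := by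
  classical
  have hinv : ∀ p : S, ∃ g : (Fin d → ℝ) → (Fin d → ℝ), Tendsto g (𝓝 0) (𝓝 (p : Fin d → ℝ)) ∧
      ∀ᶠ y in 𝓝 (0 : Fin d → ℝ), ∀ i, MvPolynomial.eval (g y) (f i) = y i := fun p =>
    exists_inv f p (h0 p p.2) (hnd p p.2)
  choose g hg1 hg2 using hinv
  set A : (Fin d → ℝ) → Matrix S S ℝ := fun y => Matrix.of fun q p =>
    MvPolynomial.eval (g q y) (h p) with hA
  have hAlim : Tendsto A (𝓝 0) (𝓝 1) := by
    refine tendsto_pi_nhds.2 fun q => tendsto_pi_nhds.2 fun p => ?_
    have h1 : Tendsto (fun y => MvPolynomial.eval (g q y) (h p)) (𝓝 0)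
        (𝓝 (MvPolynomial.eval (q : Fin d → ℝ) (h p))) :=
      ((MvPolynomial.continuous_eval (h p)).tendsto _).comp (hg1 q)
    rw [hh] at h1
    have h2 : (1 : Matrix S S ℝ) q p = if q = p then 1 else 0 := Matrix.one_apply
    rw [h2]
    exact h1
  have hdet : ∀ᶠ y in 𝓝 (0 : Fin d → ℝ), (A y).det ≠ 0 := by
    have h1 : Tendsto (fun y => (A y).det) (𝓝 0) (𝓝 (1 : Matrix S S ℝ).det) :=
      ((Continuous.matrix_det continuous_id).tendsto _).comp hAlim
    rw [Matrix.det_one] at h1
    exact h1.eventually_ne one_ne_zero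
  have hC : ∀ᶠ y in 𝓝 (0 : Fin d → ℝ), ∀ p : S,
      ∑ α : Fin d → Fin (L + 1), c (p, α) * ∏ i, y i ^ (α i : ℕ) = 0 := by
    have hg3 : ∀ᶠ y in 𝓝 (0 : Fin d → ℝ), ∀ q : S, ∀ i, MvPolynomial.eval (g q y) (f i) = y i :=
      eventually_all.2 hg2
    filter_upwards [hdet, hg3] with y hy1 hy2
    set v : S → ℝ := fun p => ∑ α : Fin d → Fin (L + 1), c (p, α) * ∏ i, y i ^ (α i : ℕ) with hv
    have hmul : (A y).mulVec v = 0 := by
      funext q
      have h1 := congrArg (MvPolynomial.eval (g q y)) hc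
      rw [map_zero, map_sum, Fintype.sum_prod_type] at h1
      rw [Pi.zero_apply, ← h1]
      simp only [Matrix.mulVec, dotProduct, hA, Matrix.of_apply, hv]
      refine Finset.sum_congr rfl fun p _ => ?_
      rw [Finset.mul_sum]
      refine Finset.sum_congr rfl fun α _ => ?_
      rw [MvPolynomial.smul_eval, map_mul, map_prod]
      simp only [map_pow, hy2 q]
      ring
    have hv0 := Matrix.eq_zero_of_mulVec_eq_zero hy1 hmul
    intro p
    exact congrFun hv0 p
  funext ⟨p, α⟩
  have := coeff_zero (fun α => c (p, α)) (hC.mono fun y hy => hy p)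
  exact congrFun this α

/-- Comparison of dimensions. -/
theorem card_le (N : ℕ) {ι : Type} [Fintype ι] (v : ι → MvPolynomial (Fin d) ℝ)
    (hN : ∀ x, (v x).totalDegree ≤ N) (hi : ∀ c : ι → ℝ, ∑ x, c x • v x = 0 → c = 0) :
    Fintype.card ι ≤ (N + 1) ^ d := by
  classical
  let φ : (ι → ℝ) →ₗ[ℝ] ((Fin d → Fin (N + 1)) → ℝ) :=
    { toFun := fun c α => MvPolynomial.coeff (ex α) (∑ x, c x • v x)
      map_add' := by
        intro c c'
        funext α
        simp only [Pi.add_apply, add_smul, Finset.sum_add_distrib, MvPolynomial.coeff_add]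
      map_smul' := by
        intro r c
        funext α
        simp only [Pi.smul_apply, smul_eq_mul, RingHom.id_apply, mul_smul, ← Finset.smul_sum,
          MvPolynomial.coeff_smul] }
  have hinj : Function.Injective φ := by
    rw [← LinearMap.ker_eq_bot, LinearMap.ker_eq_bot']
    intro c hc
    apply hi
    ext m
    rw [MvPolynomial.coeff_zero]
    by_cases hm : ∀ i, m i ≤ N
    · have h1 := congrFun hc (fun i => ⟨m i, Nat.lt_succ_of_le (hm i)⟩)
      have h2 : ex (N := N) (fun i => ⟨m i, Nat.lt_succ_of_le (hm i)⟩) = m := by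
        ext i; rfl
      simpa [φ, h2] using h1
    · push Not at hm
      obtain ⟨i, hi'⟩ := hm
      rw [MvPolynomial.coeff_sum]
      refine Finset.sum_eq_zero fun x _ => ?_
      rw [MvPolynomial.coeff_smul, MvPolynomial.coeff_eq_zero_of_totalDegree_lt, smul_zero]
      refine lt_of_le_of_lt (hN x) (lt_of_lt_of_le hi' ?_)
      exact Finset.single_le_sum (f := fun i => m i) (fun _ _ => Nat.zero_le _)
        (Finsupp.mem_support_iff.2 (by omega))
  have := LinearMap.finrank_le_finrank_of_injective hinj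
  simpa using this

end BEZ

open BEZ Filter Topology in
/-- BEZ: a system of `d` polynomials of degree at most `T` in `d` variables has at most
`(d T)^d` nondegenerate zeros. -/
theorem bez (d T : ℕ) (f : Fin d → MvPolynomial (Fin d) ℝ) (hf : ∀ i, (f i).totalDegree ≤ T)
    (S : Finset (Fin d → ℝ)) (h0 : ∀ a ∈ S, ∀ i, MvPolynomial.eval a (f i) = 0)
    (hnd : ∀ a ∈ S,
      (Matrix.of fun i j => MvPolynomial.eval a (MvPolynomial.pderiv j (f i))).det ≠ 0) :
    S.card ≤ (d * T) ^ d := by
  classical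
  have hex : ∀ p : S, ∃ h : MvPolynomial (Fin d) ℝ, ∀ q : S,
      MvPolynomial.eval (q : Fin d → ℝ) h = if q = p then 1 else 0 := by
    intro p
    obtain ⟨h, h1, h2⟩ := exists_interp S (p : Fin d → ℝ)
    refine ⟨h, fun q => ?_⟩
    by_cases hqp : q = p
    · rw [if_pos hqp, hqp, h1]
    · rw [if_neg hqp]
      exact h2 q q.2 fun h => hqp (Subtype.ext h)
  choose h hh using hex
  set C : ℕ := ∑ p, (h p).totalDegree with hC
  have hcard : ∀ L : ℕ, S.card * (L + 1) ^ d ≤ (C + d * (L * T) + 1) ^ d := by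
    intro L
    have h1 := card_le (ι := S × (Fin d → Fin (L + 1))) (C + d * (L * T))
      (fun x => h x.1 * ∏ i, f i ^ (x.2 i : ℕ)) ?_
      (fun c hc => indep f S h0 hnd h hh L c hc)
    · simpa using h1
    · rintro ⟨p, α⟩
      refine (MvPolynomial.totalDegree_mul _ _).trans (add_le_add ?_ ?_)
      · exact Finset.single_le_sum (f := fun p => (h p).totalDegree) (fun _ _ => Nat.zero_le _)
          (Finset.mem_univ p)
      · refine (MvPolynomial.totalDegree_finsetProd _ _).trans ?_
        have : ∀ i ∈ (Finset.univ : Finset (Fin d)),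
            (f i ^ ((α i : ℕ))).totalDegree ≤ L * T := by
          intro i _
          refine (MvPolynomial.totalDegree_pow _ _).trans ?_
          exact Nat.mul_le_mul (Nat.lt_succ_iff.1 (α i).2) (hf i)
        refine (Finset.sum_le_card_nsmul _ _ _ this).trans ?_
        simp
  have hlim : Tendsto (fun L : ℕ => ((((C : ℝ) + 1 - d * T) * (1 / ((L : ℝ) + 1)) + d * T) ^ d))
      atTop (𝓝 (((((C : ℝ) + 1 - d * T) * 0 + d * T)) ^ d)) :=
    ((tendsto_one_div_add_atTop_nhds_zero_nat.const_mul _).add_const _).pow d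
  have hle : (S.card : ℝ) ≤ ((((C : ℝ) + 1 - d * T) * 0 + d * T)) ^ d := by
    refine ge_of_tendsto' hlim fun L => ?_
    have h1 : ((S.card : ℝ)) * ((L : ℝ) + 1) ^ d ≤ ((C : ℝ) + d * (L * T) + 1) ^ d := by
      exact_mod_cast hcard L
    have h2 : (0 : ℝ) < (L : ℝ) + 1 := by positivity
    have h3 : ((C : ℝ) + 1 - d * T) * (1 / ((L : ℝ) + 1)) + d * T =
        ((C : ℝ) + d * (L * T) + 1) / ((L : ℝ) + 1) := by
      field_simp
      ring
    rw [h3, div_pow, le_div_iff₀ (pow_pos h2 d)]
    exact h1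
  have hfin : (((((C : ℝ) + 1 - d * T) * 0 + d * T)) ^ d) = (((d * T) ^ d : ℕ) : ℝ) := by
    push_cast
    ring
  rw [hfin] at hle
  exact_mod_cast hle

end Pool.Agent.MetSard
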