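import Mathlib

/-! # Module DIM: the Hausdorff dimension from packing numbers -/

set_option autoImplicit false

namespace Pool.Agent.MetSard

open MeasureTheory Set Polynomial
open scoped NNReal ENNReal

namespace DIM

/-- A maximal `ε`-separated finite set is an `ε`-net. -/
lemma exists_net {P : Type} (δ : P → P → ℝ) (h0 : ∀ a, δ a a = 0) (hs : ∀ a b, δ a b = δ b a)
    (ε N : ℝ) (hε : 0 < ε)
    (hp : ∀ S : Finset P, (∀ a ∈ S, ∀ a' ∈ S, a ≠ a' → ε < δ a a') → (S.card : ℝ) ≤ N) :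
    ∃ S : Finset P, (S.card : ℝ) ≤ N ∧ ∀ a, ∃ s ∈ S, δ a s ≤ ε := by
  classical
  let p : ℕ → Prop := fun n =>
    ∃ S : Finset P, (∀ a ∈ S, ∀ a' ∈ S, a ≠ a' → ε < δ a a') ∧ S.card = n
  have hp0 : p 0 := ⟨∅, by simp, by simp⟩
  obtain ⟨b, hb⟩ := exists_nat_ge N
  have hle : ∀ n, p n → n ≤ b := by
    rintro n ⟨S, hS, rfl⟩
    exact_mod_cast (hp S hS).trans hb
  have hspec : p (Nat.findGreatest p b) := Nat.findGreatest_spec (Nat.zero_le b) hp0
  obtain ⟨S, hS, hc⟩ := hspec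
  refine ⟨S, hp S hS, fun a => ?_⟩
  by_contra hcon
  push Not at hcon
  have haS : a ∉ S := fun ha => absurd (hcon a ha) (by rw [h0]; exact not_lt.2 hε.le)
  have : p (Nat.findGreatest p b + 1) := by
    refine ⟨insert a S, ?_, by rw [Finset.card_insert_of_notMem haS, hc]⟩
    intro x hx x' hx' hne
    rcases Finset.mem_insert.1 hx with h1 | h1
    · rcases Finset.mem_insert.1 hx' with h2 | h2
      · exact absurd (h1.trans h2.symm) hne
      · rw [h1]; exact hcon x' h2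
    · rcases Finset.mem_insert.1 hx' with h2 | h2
      · rw [h2, hs]; exact hcon x h1
      · exact hS x h1 x' h2 hne
  have h1 := Nat.le_findGreatest (hle _ this) this
  omega

end DIM

/-- DIM: dimension from packing numbers. -/
theorem dim_net {P Y : Type} [MetricSpace Y] (m : ℕ) (κ : ℝ≥0) (C L R : ℝ) (δ : P → P → ℝ)
    (h0 : ∀ a, δ a a = 0) (hs : ∀ a b, δ a b = δ b a)
    (hp : ∀ ε : ℝ, 0 < ε → ε ≤ 1 → ∀ S : Finset P,
      (∀ a ∈ S, ∀ a' ∈ S, a ≠ a' → ε < δ a a') → (S.card : ℝ) ≤ C * ε⁻¹ ^ (κ : ℝ))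
    (w : P → (Fin m → ℝ) → Y)
    (hw : ∀ a a' z z', ‖z‖ ≤ R → ‖z'‖ ≤ R → dist (w a z) (w a' z') ≤ L * (δ a a' + dist z z'))
    (hL : 0 ≤ L) :
    dimH {y : Y | ∃ a z, ‖z‖ ≤ R ∧ w a z = y} ≤ (κ : ℝ≥0∞) + m := by
  classical
  borelize Y
  rcases lt_or_ge R 0 with hR | hR
  · have : {y : Y | ∃ a z, ‖z‖ ≤ R ∧ w a z = y} = ∅ := by
      ext y
      simp only [Set.mem_ofPred_eq, mem_empty_iff_false, iff_false, not_exists, not_and]
      intro a z hz
      exact absurd (hz.trans_lt hR) (not_lt.2 (norm_nonneg z))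
    rw [this, dimH_empty]
    exact zero_le
  have hC : 0 ≤ C := by
    have := hp 1 one_pos le_rfl ∅ (by simp)
    simpa using this
  -- enough: for every `r > κ + m`
  refine ENNReal.le_of_forall_pos_le_add ?_
  intro e he _
  set r : ℝ≥0 := κ + m + e with hr
  have hrr : (κ : ℝ≥0∞) + m + e = (r : ℝ≥0∞) := by rw [hr]; push_cast; rfl
  rw [hrr]
  refine dimH_le_of_hausdorffMeasure_ne_top (ne_top_of_le_ne_top ENNReal.zero_ne_top ?_)
  -- the scales
  let ε : ℕ → ℝ := fun n => 1 / ((n : ℝ) + 1)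
  have hε0 : ∀ n, 0 < ε n := fun n => by positivity
  have hε1 : ∀ n, ε n ≤ 1 := fun n => by
    have : (0 : ℝ) ≤ n := Nat.cast_nonneg n
    simp only [ε]
    rw [div_le_one (by positivity)]
    linarith
  have hεt : Filter.Tendsto ε Filter.atTop (nhds 0) := tendsto_one_div_add_atTop_nhds_zero_nat
  have hnet : ∀ n, ∃ S : Finset P, (S.card : ℝ) ≤ C * (ε n)⁻¹ ^ (κ : ℝ) ∧
      ∀ a, ∃ s ∈ S, δ a s ≤ ε n := fun n =>
    DIM.exists_net δ h0 hs (ε n) _ (hε0 n) (hp (ε n) (hε0 n) (hε1 n))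
  choose S hScard hSnet using hnet
  let N : ℕ → ℕ := fun n => ⌊2 * R / ε n⌋₊ + 1
  have hN : ∀ n, (N n : ℝ) ≤ (2 * R + 1) * (ε n)⁻¹ := by
    intro n
    have h1 : (⌊2 * R / ε n⌋₊ : ℝ) ≤ 2 * R / ε n := Nat.floor_le (by have := hε0 n; positivity)
    have h2 : (1 : ℝ) ≤ (ε n)⁻¹ := (one_le_inv₀ (hε0 n)).2 (hε1 n)
    simp only [N]
    push_cast
    calc (⌊2 * R / ε n⌋₊ : ℝ) + 1 ≤ 2 * R / ε n + (ε n)⁻¹ := add_le_add h1 h2
      _ = (2 * R + 1) * (ε n)⁻¹ := by ring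
  let t : ∀ n : ℕ, (S n × (Fin m → Fin (N n))) → Set Y := fun n i =>
    {y | ∃ a z, ‖z‖ ≤ R ∧ w a z = y ∧ δ a i.1 ≤ ε n ∧ ∀ j, ⌊(z j + R) / ε n⌋₊ = (i.2 j : ℕ)}
  let ρ : ℕ → ℝ≥0∞ := fun n => ENNReal.ofReal (3 * L * ε n)
  have hdiam : ∀ n i, Metric.ediam (t n i) ≤ ρ n := by
    intro n i
    refine Metric.ediam_le ?_
    rintro y ⟨a, z, hz, rfl, ha, hzi⟩ y' ⟨a', z', hz', rfl, ha', hzi'⟩
    rw [edist_dist]
    refine ENNReal.ofReal_le_ofReal ?_
    have hzz : dist z z' ≤ ε n := by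
      refine (dist_pi_le_iff (hε0 n).le).2 fun j => ?_
      have hzj : |z j| ≤ R := (norm_le_pi_norm z j).trans hz
      have hzj' : |z' j| ≤ R := (norm_le_pi_norm z' j).trans hz'
      have a1 := hzi j
      have a2 := hzi' j
      rw [Nat.floor_eq_iff (by
        have := (abs_le.1 hzj).1; have := hε0 n; apply div_nonneg <;> linarith)] at a1
      rw [Nat.floor_eq_iff (by
        have := (abs_le.1 hzj').1; have := hε0 n; apply div_nonneg <;> linarith)] at a2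
      have e1 := hε0 n
      rw [le_div_iff₀ e1, div_lt_iff₀ e1] at a1 a2
      rw [Real.dist_eq, abs_le]
      constructor <;> nlinarith [a1.1, a1.2, a2.1, a2.2]
    have d1 := hw a i.1 z z hz hz
    have d2 := hw i.1 a' z z' hz hz'
    rw [hs] at ha'
    rw [dist_self, add_zero] at d1
    calc dist (w a z) (w a' z') ≤ dist (w a z) (w i.1 z) + dist (w i.1 z) (w a' z') :=
          dist_triangle _ _ _
      _ ≤ L * δ a i.1 + L * (δ i.1 a' + dist z z') := add_le_add d1 d2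
      _ ≤ L * ε n + L * (ε n + ε n) := by
          gcongr
      _ = 3 * L * ε n := by ring
  have hcover : ∀ n, {y : Y | ∃ a z, ‖z‖ ≤ R ∧ w a z = y} ⊆ ⋃ i, t n i := by
    rintro n y ⟨a, z, hz, rfl⟩
    obtain ⟨s, hsS, has⟩ := hSnet n a
    have hlt : ∀ j, ⌊(z j + R) / ε n⌋₊ < N n := by
      intro j
      simp only [N]
      rw [Nat.lt_succ_iff]
      apply Nat.floor_le_floor
      have hzj : |z j| ≤ R := (norm_le_pi_norm z j).trans hz
      have := (abs_le.1 hzj).2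
      have e1 := hε0 n
      gcongr
      linarith
    rw [mem_iUnion]
    exact ⟨(⟨s, hsS⟩, fun j => ⟨⌊(z j + R) / ε n⌋₊, hlt j⟩), a, z, hz, rfl, has, fun j => rfl⟩
  have hρ : Filter.Tendsto ρ Filter.atTop (nhds 0) := by
    have : Filter.Tendsto (fun n => 3 * L * ε n) Filter.atTop (nhds (3 * L * 0)) :=
      hεt.const_mul _
    rw [mul_zero] at this
    simpa using ENNReal.tendsto_ofReal this
  have key := Measure.hausdorffMeasure_le_liminf_sum (r : ℝ)
    {y : Y | ∃ a z, ‖z‖ ≤ R ∧ w a z = y} (l := Filter.atTop) ρ hρ t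
    (Filter.Eventually.of_forall hdiam) (Filter.Eventually.of_forall hcover)
  refine key.trans ?_
  have hr0 : (0 : ℝ) ≤ r := r.2
  have hsum : ∀ n, ∑ i, Metric.ediam (t n i) ^ (r : ℝ) ≤
      ENNReal.ofReal (C * (2 * R + 1) ^ m * (3 * L) ^ (r : ℝ) * ε n ^ (e : ℝ)) := by
    intro n
    have e1 := hε0 n
    have h1 : ∑ i, Metric.ediam (t n i) ^ (r : ℝ) ≤ ∑ i : (S n × (Fin m → Fin (N n))),
        ρ n ^ (r : ℝ) := by
      refine Finset.sum_le_sum fun i _ => ENNReal.rpow_le_rpow (hdiam n i) hr0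
    refine h1.trans ?_
    rw [Finset.sum_const, Finset.card_univ, Fintype.card_prod, Fintype.card_coe,
      Fintype.card_fun, Fintype.card_fin, Fintype.card_fin, nsmul_eq_mul]
    simp only [ρ]
    rw [ENNReal.ofReal_rpow_of_nonneg (by positivity) hr0, ← ENNReal.ofReal_natCast,
      ← ENNReal.ofReal_mul (by positivity)]
    refine ENNReal.ofReal_le_ofReal ?_
    push_cast
    have hA : ((S n).card : ℝ) * (N n : ℝ) ^ m ≤
        (C * (ε n)⁻¹ ^ (κ : ℝ)) * ((2 * R + 1) * (ε n)⁻¹) ^ m := by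
      have := hN n
      have := hScard n
      gcongr
    have hB : (0 : ℝ) ≤ (3 * L * ε n) ^ (r : ℝ) := by positivity
    refine (mul_le_mul_of_nonneg_right hA hB).trans (le_of_eq ?_)
    rw [Real.mul_rpow (by positivity) e1.le, mul_pow, ← Real.rpow_natCast ((ε n)⁻¹) m,
      Real.inv_rpow e1.le, Real.inv_rpow e1.le]
    have hsplit : (ε n) ^ (r : ℝ) = (ε n) ^ (κ : ℝ) * (ε n) ^ (m : ℝ) * (ε n) ^ (e : ℝ) := by
      rw [← Real.rpow_add e1, ← Real.rpow_add e1, hr]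
      push_cast
      rfl
    rw [hsplit]
    have k1 : (ε n) ^ (κ : ℝ) ≠ 0 := (Real.rpow_pos_of_pos e1 _).ne'
    have k2 : (ε n) ^ (m : ℝ) ≠ 0 := (Real.rpow_pos_of_pos e1 _).ne'
    field_simp
  have hlim : Filter.Tendsto (fun n => ENNReal.ofReal
      (C * (2 * R + 1) ^ m * (3 * L) ^ (r : ℝ) * ε n ^ (e : ℝ))) Filter.atTop (nhds 0) := by
    have he' : (0 : ℝ) < e := he
    have h1 : Filter.Tendsto (fun n => ε n ^ (e : ℝ)) Filter.atTop (nhds 0) := by
      have := hεt.rpow_const (p := (e : ℝ)) (Or.inr he'.le)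
      rwa [Real.zero_rpow he'.ne'] at this
    have h2 := h1.const_mul (C * (2 * R + 1) ^ m * (3 * L) ^ (r : ℝ))
    rw [mul_zero] at h2
    simpa using ENNReal.tendsto_ofReal h2
  calc Filter.liminf (fun n => ∑ i, Metric.ediam (t n i) ^ (r : ℝ)) Filter.atTop
      ≤ Filter.liminf (fun n => ENNReal.ofReal
        (C * (2 * R + 1) ^ m * (3 * L) ^ (r : ℝ) * ε n ^ (e : ℝ))) Filter.atTop :=
        Filter.liminf_le_liminf (Filter.Eventually.of_forall hsum)
    _ = 0 := hlim.liminf_eq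

end Pool.Agent.MetSard
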