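import Mathlib

/-! # Sign codes of polynomials: definitions -/

set_option autoImplicit false

namespace Pool.Agent.MetSard

open MeasureTheory Set Polynomial

/-- The signs of `p, p', ..., p^(D)` at `y`. -/
noncomputable def code (D : ℕ) (p : ℝ[X]) (y : ℝ) : Fin (D + 1) → SignType :=
  fun j => SignType.sign ((derivative^[(j : ℕ)] p).eval y)

/-- The Thom order of sign codes. -/
def prec {D : ℕ} (σ τ : Fin (D + 1) → SignType) : Prop :=
  ∃ j : Fin D, (∀ i : Fin (D + 1), j.castSucc < i → σ i = τ i) ∧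
    σ j.succ * σ j.castSucc < σ j.succ * τ j.castSucc

/-- The points of `B` at which the signs of the polynomials `p i (a, .)` and `p i (a', .)` are
not all equal. -/
def dis {d : ℕ} {ι : Type} (p : ι → MvPolynomial (Fin d ⊕ Fin 2) ℝ) (B : Set (Fin 2 → ℝ))
    (a a' : Fin d → ℝ) : Set (Fin 2 → ℝ) :=
  {q | q ∈ B ∧ ∃ i, SignType.sign (MvPolynomial.eval (Sum.elim a q) (p i)) ≠
    SignType.sign (MvPolynomial.eval (Sum.elim a' q) (p i))}

end Pool.Agent.MetSard
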