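import Pool.Agent.Lib.MP_0e3b4a_gt.H14.Defs
import Pool.Agent.Lib.MP_0e3b4a_gt.H21.Metab

/-! # The planar statements -/

set_option autoImplicit false

namespace Pool.Agent.MetSard

open MeasureTheory Set Polynomial
open Pool.Agent.CutLoci Pool.Agent.CutLoci.H21

/-- Endpoints and line integrals of the paths in the zero sets of nonzero members of `W`
(`xx u t` is the point `∫_0^t u` of the plane). -/
def SS (W : Submodule ℝ (MvPolynomial (Fin 2) ℝ)) {κ : Type}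
    (P : κ → Fin 2 → MvPolynomial (Fin 2) ℝ) : Set ((Fin 2 → ℝ) × (κ → ℝ)) :=
  {v | ∃ u : ℝ → EE 2, IntegrableOn u (Ioc 0 1) ∧ ∃ F ∈ W, F ≠ 0 ∧
    (∀ t ∈ Icc (0 : ℝ) 1, MvPolynomial.eval (xx u t) F = 0) ∧ v.1 = xx u 1 ∧
    ∀ k, v.2 k = ∫ t in (0 : ℝ)..1,
      (u t 0 * MvPolynomial.eval (xx u t) (P k 0) + u t 1 * MvPolynomial.eval (xx u t) (P k 1))}

/-- The planar theorem. -/
def PlanarS : Prop :=
  ∀ (W : Submodule ℝ (MvPolynomial (Fin 2) ℝ)), FiniteDimensional ℝ W →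
    ∀ (κ : Type) [Fintype κ] (P : κ → Fin 2 → MvPolynomial (Fin 2) ℝ),
      dimH (SS W P) ≤ (Module.finrank ℝ W : ENNReal) + 3 / 2

/-- The family of plane curves with parameter `a`: `F` is a polynomial in the parameters, in `x`
(inner variable) and in `y` (outer variable). -/
noncomputable def sp {d : ℕ} (F : (MvPolynomial (Fin d) ℝ)[X][X]) (a : Fin d → ℝ) : ℝ[X][X] :=
  F.map (mapRingHom (MvPolynomial.eval a))

/-- Endpoints and line integrals of the paths in the curves `F_a = 0`. -/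
def TT {d : ℕ} (F : (MvPolynomial (Fin d) ℝ)[X][X]) {κ : Type}
    (G : κ → MvPolynomial (Fin 2) ℝ) : Set ((Fin 2 → ℝ) × (κ → ℝ)) :=
  {v | ∃ (a : Fin d → ℝ) (u : ℝ → EE 2), IntegrableOn u (Ioc 0 1) ∧
    (∀ t ∈ Icc (0 : ℝ) 1, (sp F a).evalEval (xx u t 0) (xx u t 1) = 0) ∧ v.1 = xx u 1 ∧
    ∀ k, v.2 k = ∫ t in (0 : ℝ)..1, u t 0 * MvPolynomial.eval (xx u t) (G k)}

/-- The planar theorem for families of curves which are monic in `y`. -/
def MonoS : Prop :=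
  ∀ (d : ℕ) (F : (MvPolynomial (Fin d) ℝ)[X][X]), F.Monic →
    ∀ (κ : Type) [Fintype κ] (G : κ → MvPolynomial (Fin 2) ℝ),
      dimH (TT F G) ≤ (d : ENNReal) + 5 / 2

end Pool.Agent.MetSard
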