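import Pool.Agent.Lib.MP_0e3b4a_gt.H21.Metab

/-! # The endpoint modulo the second derived algebra (rank two) -/

set_option autoImplicit false
set_option linter.unusedSectionVars false

namespace Pool.Agent.MetSard

open MeasureTheory Set Filter Topology MvPolynomial
open Pool.Agent.CutLoci Pool.Agent.CutLoci.H21

section

variable {g : Type} [NormedAddCommGroup g] [NormedSpace ℝ g] [FiniteDimensional ℝ g]
  (hS : StrucStatement g 2) (hG : GradeStatement g 2) (C : Carnot g 2)

include hS hG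

theorem Vbig : ∀ j, C.s < j → C.V j = ⊥ := C.V_big

/-- The functions `l (Ad_t Z_ij)` are polynomials along the projection. -/
theorem ad_Z (u : ℝ → EE 2) (hu : IntegrableOn u (Ioc 0 1)) (l : g →L[ℝ] ℝ)
    (hK2 : ∀ z ∈ K2 C, l z = 0) (i j : ℕ) : ∀ t ∈ Icc (0 : ℝ) 1,
      l (C.Ad u t (Z C i j)) = eval (xx u t) (PP C l C.s i j) := by
  have hN : ∀ j, C.s < j → C.V j = ⊥ := C.V_big
  obtain ⟨_, hAd, hst⟩ := hS C u hu
  have hleft : ∀ i j, ∀ t ∈ Icc (0 : ℝ) 1, l (C.Ad u t (Z C i j)) = l (Z C i j) +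
      ∫ s in (0 : ℝ)..t, (u s 0 * l (C.Ad u s (Z C (i + 1) j)) +
        u s 1 * l (C.Ad u s (Z C i (j + 1)))) := by
    intro i j t ht
    obtain ⟨_, _, _, h4, _⟩ := hst t ht
    rw [h4 (Z C i j), map_add]
    congr 1
    have hint : IntervalIntegrable (fun s => C.Ad u s (C.br (C.X (u s)) (Z C i j))) volume 0 t := by
      have e : (fun s => C.Ad u s (C.br (C.X (u s)) (Z C i j))) = fun s =>
          u s 0 • C.Ad u s (C.br (f1 C) (Z C i j)) + u s 1 • C.Ad u s (C.br (f2 C) (Z C i j)) := by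
        funext s
        rw [X_eq]
        simp only [map_add, map_smul, _root_.add_apply,
          _root_.smul_apply]
      rw [e]
      have hI : ∀ (k : Fin 2) (z : g), IntegrableOn (fun s => u s k • C.Ad u s z) (Ioc 0 1) := by
        intro k z
        have hk := comp_int hu k
        rw [← integrableOn_Icc_iff_integrableOn_Ioc] at hk ⊢
        exact hk.smul_continuousOn (hAd.clm_apply continuousOn_const) isCompact_Icc
      exact ii ((hI 0 _).add (hI 1 _)) ht
    rw [← l.intervalIntegral_comp_comm hint]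
    refine intervalIntegral.integral_congr fun s hs => ?_
    rw [uIcc_of_le ht.1] at hs
    have hs' : s ∈ Icc (0 : ℝ) 1 := ⟨hs.1, hs.2.trans ht.2⟩
    obtain ⟨_, h5, _, _, _⟩ := hst s hs'
    show l (C.Ad u s (C.br (C.X (u s)) (Z C i j))) = _
    have hk := hK2 _ (A_K2 C (C.Ad u s) h5 (Z_comm C hG i j))
    rw [map_sub, map_sub, sub_eq_zero] at hk
    rw [X_eq]
    simp only [map_add, map_smul, _root_.add_apply,
      _root_.smul_apply, smul_eq_mul, Z_succ, hk]
  have key : ∀ n i j, C.s < i + j + 2 + n → ∀ t ∈ Icc (0 : ℝ) 1,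
      l (C.Ad u t (Z C i j)) = eval (xx u t) (PP C l C.s i j) := by
    intro n
    induction n with
    | zero =>
      intro i j h t ht
      have hz : PP C l C.s i j = 0 := by
        ext m
        rw [coeff_PP C l C.s hG hN, Z_big C C.s hG hN (by omega)]
        simp
      rw [hz, Z_big C C.s hG hN (by omega)]
      simp
    | succ n ih =>
      intro i j h t ht
      rw [hleft i j t ht, chain hu _ t ht, eval0 C l C.s hG hN]
      congr 1
      refine intervalIntegral.integral_congr fun s hs => ?_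
      rw [uIcc_of_le ht.1] at hs
      have hs' : s ∈ Icc (0 : ℝ) 1 := ⟨hs.1, hs.2.trans ht.2⟩
      show u s 0 * l (C.Ad u s (Z C (i + 1) j)) + u s 1 * l (C.Ad u s (Z C i (j + 1))) =
        u s 0 * eval (xx u s) (pderiv 0 (PP C l C.s i j)) +
          u s 1 * eval (xx u s) (pderiv 1 (PP C l C.s i j))
      rw [pderiv0 C l C.s hG hN, pderiv1 C l C.s hG hN, ih _ _ (by omega) s hs',
        ih _ _ (by omega) s hs']
  exact key (C.s + 1) i j (by omega)

omit hS in
theorem br_X (a b : EE 2) : C.br (C.X a) (C.X b) = cr a b • ww C := by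
  obtain ⟨_, _, _, _, h5⟩ := hG C
  have h11 : C.br (f1 C) (f1 C) = 0 := C.br_self _
  have h22 : C.br (f2 C) (f2 C) = 0 := C.br_self _
  have h21 : C.br (f2 C) (f1 C) = - ww C := h5 _ _
  have h12 : C.br (f1 C) (f2 C) = ww C := rfl
  rw [X_eq C a, X_eq C b, cr]
  simp only [map_add, map_smul, _root_.add_apply, _root_.smul_apply,
    h11, h22, h21, h12]
  module

/-- `l (Ad_t X a)`. -/
theorem ad_X (u : ℝ → EE 2) (hu : IntegrableOn u (Ioc 0 1)) (l : g →L[ℝ] ℝ)
    (hK2 : ∀ z ∈ K2 C, l z = 0) (a : EE 2) : ∀ t ∈ Icc (0 : ℝ) 1,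
      l (C.Ad u t (C.X a)) = l (C.X a) +
        (a 1 * ∫ s in (0 : ℝ)..t, u s 0 * eval (xx u s) (PP C l C.s 0 0)) -
        a 0 * ∫ s in (0 : ℝ)..t, u s 1 * eval (xx u s) (PP C l C.s 0 0) := by
  intro t ht
  obtain ⟨_, hAd, hst⟩ := hS C u hu
  obtain ⟨_, _, _, h4, _⟩ := hst t ht
  rw [h4 (C.X a), map_add, add_sub_assoc]
  congr 1
  have e : (fun s => C.Ad u s (C.br (C.X (u s)) (C.X a))) = fun s =>
      (a 1 * u s 0 - a 0 * u s 1) • C.Ad u s (ww C) := by
    funext s
    rw [br_X hG, map_smul, cr]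
    congr 1
    ring
  have hI : ∀ (k : Fin 2), IntegrableOn (fun s => u s k • C.Ad u s (ww C)) (Ioc 0 1) := by
    intro k
    have hk := comp_int hu k
    rw [← integrableOn_Icc_iff_integrableOn_Ioc] at hk ⊢
    exact hk.smul_continuousOn (hAd.clm_apply continuousOn_const) isCompact_Icc
  have hint : IntervalIntegrable (fun s => C.Ad u s (C.br (C.X (u s)) (C.X a))) volume 0 t := by
    rw [e]
    have e2 : (fun s => (a 1 * u s 0 - a 0 * u s 1) • C.Ad u s (ww C)) = fun s =>
        a 1 • (u s 0 • C.Ad u s (ww C)) - a 0 • (u s 1 • C.Ad u s (ww C)) := by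
      funext s
      rw [sub_smul, mul_smul, mul_smul]
    rw [e2]
    exact ii (((hI 0).smul (a 1)).sub ((hI 1).smul (a 0))) ht
  rw [← l.intervalIntegral_comp_comm hint]
  have hJ : ∀ k : Fin 2, IntervalIntegrable
      (fun s => u s k * eval (xx u s) (PP C l C.s 0 0)) volume 0 t := fun k =>
    ii (int_mul (comp_int hu k) (cont_eval (cont_xx hu) _)) ht
  rw [← intervalIntegral.integral_const_mul, ← intervalIntegral.integral_const_mul,
    ← intervalIntegral.integral_sub ((hJ 0).const_mul _) ((hJ 1).const_mul _)]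
  refine intervalIntegral.integral_congr fun s hs => ?_
  rw [uIcc_of_le ht.1] at hs
  have hs' : s ∈ Icc (0 : ℝ) 1 := ⟨hs.1, hs.2.trans ht.2⟩
  show l (C.Ad u s (C.br (C.X (u s)) (C.X a))) = _
  have e3 : C.Ad u s (C.br (C.X (u s)) (C.X a)) =
    (a 1 * u s 0 - a 0 * u s 1) • C.Ad u s (ww C) := congrFun e s
  rw [e3, map_smul, smul_eq_mul]
  have e4 := ad_Z hS hG C u hu l hK2 0 0 s hs'
  rw [Z_zero] at e4
  rw [e4]
  ring

/-- The endpoint formula. -/
theorem end_formula (u : ℝ → EE 2) (hu : IntegrableOn u (Ioc 0 1)) (l : g →L[ℝ] ℝ)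
    (hK2 : ∀ z ∈ K2 C, l z = 0) :
    l (C.End u) = xx u 1 0 * l (f1 C) + xx u 1 1 * l (f2 C) +
      xx u 1 1 * (∫ t in (0 : ℝ)..1, u t 0 * eval (xx u t) (PP C l C.s 0 0)) -
      xx u 1 0 * (∫ t in (0 : ℝ)..1, u t 1 * eval (xx u t) (PP C l C.s 0 0)) -
      ∫ t in (0 : ℝ)..1, (u t 0 * eval (xx u t) (X 1 * PP C l C.s 0 0) +
        u t 1 * eval (xx u t) (-X 0 * PP C l C.s 0 0)) := by
  have h11 : (1 : ℝ) ∈ Icc (0 : ℝ) 1 := ⟨zero_le_one, le_rfl⟩
  obtain ⟨_, hAd, hst⟩ := hS C u hu
  obtain ⟨_, _, _, _, hW, _⟩ := hst 1 h11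
  set H := PP C l C.s 0 0 with hH
  have hend : C.End u = ∫ s in (0 : ℝ)..1, C.Ad u s (C.X (u s)) := hW
  have hI : ∀ (k : Fin 2) (z : g), IntegrableOn (fun s => u s k • C.Ad u s z) (Ioc 0 1) := by
    intro k z
    have hk := comp_int hu k
    rw [← integrableOn_Icc_iff_integrableOn_Ioc] at hk ⊢
    exact hk.smul_continuousOn (hAd.clm_apply continuousOn_const) isCompact_Icc
  have hint : IntervalIntegrable (fun s => C.Ad u s (C.X (u s))) volume 0 1 := by
    have e : (fun s => C.Ad u s (C.X (u s))) = fun s =>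
        u s 0 • C.Ad u s (f1 C) + u s 1 • C.Ad u s (f2 C) := by
      funext s
      rw [X_eq]
      simp only [map_add, map_smul]
    rw [e]
    exact ii ((hI 0 _).add (hI 1 _)) h11
  rw [hend, ← l.intervalIntegral_comp_comm hint]
  -- the four elementary integrals
  have hJ : ∀ k : Fin 2, IntegrableOn (fun s => u s k * eval (xx u s) H) (Ioc 0 1) := fun k =>
    int_mul (comp_int hu k) (cont_eval (cont_xx hu) _)
  have hxx : ∀ k : Fin 2, ∀ t ∈ Icc (0 : ℝ) 1, xx u t k = ∫ s in (0 : ℝ)..t, u s k :=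
    fun k t ht => int_comp hu k ht
  have hxc : ∀ k : Fin 2, ContinuousOn (fun s => xx u s k) (Icc 0 1) := fun k =>
    (continuous_apply k).comp_continuousOn (cont_xx hu)
  have hprod : ∀ i j : Fin 2, (∫ s in (0 : ℝ)..1, u s i * eval (xx u s) H) * xx u 1 j =
      (∫ s in (0 : ℝ)..1, (u s i * eval (xx u s) H) * xx u s j) +
        ∫ s in (0 : ℝ)..1, (∫ p in (0 : ℝ)..s, u p i * eval (xx u p) H) * u s j := by
    intro i j
    have h := H30.prod ℝ ℝ ℝ (ContinuousLinearMap.mul ℝ ℝ)
      (fun s => u s i * eval (xx u s) H) (fun s => u s j) 0 0 (hJ i) (comp_int hu j) 1 h11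
    simp only [ContinuousLinearMap.mul_apply', zero_add, mul_zero] at h
    rw [hxx j 1 h11, h]
    have hc : ContinuousOn (fun s => ∫ p in (0 : ℝ)..s, u p i * eval (xx u p) H) (Icc 0 1) := by
      have h := intervalIntegral.continuousOn_primitive_interval' (a := 0)
        (ii (hJ i) (t := 1) h11) (by simp)
      rwa [uIcc_of_le zero_le_one] at h
    have hA : IntervalIntegrable (fun s => (u s i * eval (xx u s) H) *
        ∫ p in (0 : ℝ)..s, u p j) volume 0 1 := by
      have h1 : ContinuousOn (fun s => ∫ p in (0 : ℝ)..s, u p j) (Icc 0 1) := by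
        have h := intervalIntegral.continuousOn_primitive_interval' (a := 0)
          (ii (comp_int hu j) (t := 1) h11) (by simp)
        rwa [uIcc_of_le zero_le_one] at h
      exact ii (int_mul (hJ i) h1) h11
    have hB : IntervalIntegrable (fun s => (∫ p in (0 : ℝ)..s, u p i * eval (xx u p) H) *
        u s j) volume 0 1 := by
      have h1 := int_mul (comp_int hu j) hc
      have e : (fun s => (∫ p in (0 : ℝ)..s, u p i * eval (xx u p) H) * u s j) = fun s =>
          u s j * ∫ p in (0 : ℝ)..s, u p i * eval (xx u p) H := by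
        funext s
        exact mul_comm _ _
      rw [e]
      exact ii h1 h11
    rw [intervalIntegral.integral_add hA hB]
    congr 1
    refine intervalIntegral.integral_congr fun s hs => ?_
    rw [uIcc_of_le zero_le_one] at hs
    show _ * (∫ p in (0 : ℝ)..s, u p j) = _ * xx u s j
    rw [hxx j s hs]
  have hB : ∀ i j : Fin 2, IntervalIntegrable
      (fun s => (∫ p in (0 : ℝ)..s, u p i * eval (xx u p) H) * u s j) volume 0 1 := by
    intro i j
    have hc : ContinuousOn (fun s => ∫ p in (0 : ℝ)..s, u p i * eval (xx u p) H) (Icc 0 1) := by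
      have h := intervalIntegral.continuousOn_primitive_interval' (a := 0)
        (ii (hJ i) (t := 1) h11) (by simp)
      rwa [uIcc_of_le zero_le_one] at h
    have h1 := int_mul (comp_int hu j) hc
    have e : (fun s => (∫ p in (0 : ℝ)..s, u p i * eval (xx u p) H) * u s j) = fun s =>
        u s j * ∫ p in (0 : ℝ)..s, u p i * eval (xx u p) H := by
      funext s
      exact mul_comm _ _
    rw [e]
    exact ii h1 h11
  have hA : ∀ i j : Fin 2, IntervalIntegrable
      (fun s => (u s i * eval (xx u s) H) * xx u s j) volume 0 1 := fun i j =>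
    ii (int_mul (hJ i) (hxc j)) h11
  have e1 : ∫ s in (0 : ℝ)..1, l (C.Ad u s (C.X (u s))) =
      ∫ s in (0 : ℝ)..1, ((u s 0 * l (f1 C) + u s 1 * l (f2 C)) +
        ((∫ p in (0 : ℝ)..s, u p 0 * eval (xx u p) H) * u s 1 -
          (∫ p in (0 : ℝ)..s, u p 1 * eval (xx u p) H) * u s 0)) := by
    refine intervalIntegral.integral_congr fun s hs => ?_
    rw [uIcc_of_le zero_le_one] at hs
    show l (C.Ad u s (C.X (u s))) = _
    rw [ad_X hS hG C u hu l hK2 _ s hs, X_eq, map_add, map_smul, map_smul, smul_eq_mul,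
      smul_eq_mul]
    ring
  have hu1 : ∀ k : Fin 2, ∀ c : ℝ, IntervalIntegrable (fun s => u s k * c) volume 0 1 :=
    fun k c => (ii (comp_int hu k) h11).mul_const c
  rw [e1, intervalIntegral.integral_add ((hu1 0 _).add (hu1 1 _)) ((hB 0 1).sub (hB 1 0)),
    intervalIntegral.integral_sub (hB 0 1) (hB 1 0),
    intervalIntegral.integral_add (hu1 0 _) (hu1 1 _),
    intervalIntegral.integral_mul_const, intervalIntegral.integral_mul_const,
    ← hxx 0 1 h11, ← hxx 1 1 h11]
  have e2 : ∫ t in (0 : ℝ)..1, (u t 0 * eval (xx u t) (X 1 * H) +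
        u t 1 * eval (xx u t) (-X 0 * H)) =
      (∫ s in (0 : ℝ)..1, (u s 0 * eval (xx u s) H) * xx u s 1) -
        ∫ s in (0 : ℝ)..1, (u s 1 * eval (xx u s) H) * xx u s 0 := by
    rw [← intervalIntegral.integral_sub (hA 0 1) (hA 1 0)]
    refine intervalIntegral.integral_congr fun s _ => ?_
    show _ = _
    simp only [map_mul, map_neg, eval_X]
    ring
  rw [e2]
  have h01 := hprod 0 1
  have h10 := hprod 1 0
  linear_combination -h01 + h10

/-- Zeros of the polynomial along curves with a covector. -/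
theorem zero_along (u : ℝ → EE 2) (hu : IntegrableOn u (Ioc 0 1)) (l : g →L[ℝ] ℝ)
    (hK2 : ∀ z ∈ K2 C, l z = 0) (h0 : ∀ t ∈ Icc (0 : ℝ) 1, ∀ a, l (C.Ad u t (C.X a)) = 0) :
    (∀ t ∈ Icc (0 : ℝ) 1, eval (xx u t) (PP C l C.s 0 0) = 0) ∨ C.End u = 0 := by
  set H := PP C l C.s 0 0 with hH
  have h00 : (0 : ℝ) ∈ Icc (0 : ℝ) 1 := ⟨le_rfl, zero_le_one⟩
  have h11 : (1 : ℝ) ∈ Icc (0 : ℝ) 1 := ⟨zero_le_one, le_rfl⟩
  have hJ : ∀ k : Fin 2, IntegrableOn (fun s => u s k * eval (xx u s) H) (Ioc 0 1) := fun k =>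
    int_mul (comp_int hu k) (cont_eval (cont_xx hu) _)
  have hlX : ∀ a, l (C.X a) = 0 := by
    intro a
    have h1 := ad_X hS hG C u hu l hK2 a 0 h00
    rw [h0 0 h00 a] at h1
    simpa using h1.symm
  have hint : ∀ k : Fin 2, ∀ t ∈ Icc (0 : ℝ) 1,
      ∫ s in (0 : ℝ)..t, u s k * eval (xx u s) H = 0 := by
    intro k t ht
    have h1 := ad_X hS hG C u hu l hK2 (EuclideanSpace.single 1 1) t ht
    have h2 := ad_X hS hG C u hu l hK2 (EuclideanSpace.single 0 1) t ht
    rw [h0 t ht, hlX] at h1 h2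
    fin_cases k
    · simpa using h1.symm
    · simpa using h2.symm
  -- integrals against polynomials
  have hpoly : ∀ k : Fin 2, ∀ p : MvPolynomial (Fin 2) ℝ, ∀ t ∈ Icc (0 : ℝ) 1,
      ∫ s in (0 : ℝ)..t, (u s k * eval (xx u s) H) * eval (xx u s) p = 0 := by
    intro k p t ht
    have hd : IntegrableOn (fun s => u s 0 * eval (xx u s) (pderiv 0 p) +
        u s 1 * eval (xx u s) (pderiv 1 p)) (Ioc 0 1) :=
      (int_mul (comp_int hu 0) (cont_eval (cont_xx hu) _)).add
        (int_mul (comp_int hu 1) (cont_eval (cont_xx hu) _))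
    have h := H30.prod ℝ ℝ ℝ (ContinuousLinearMap.mul ℝ ℝ)
      (fun s => u s k * eval (xx u s) H) (fun s => u s 0 * eval (xx u s) (pderiv 0 p) +
        u s 1 * eval (xx u s) (pderiv 1 p)) 0 (eval 0 p) (hJ k) hd t ht
    simp only [ContinuousLinearMap.mul_apply', zero_add, zero_mul] at h
    rw [hint k t ht, zero_mul] at h
    refine Eq.trans ?_ h.symm
    refine intervalIntegral.integral_congr fun s hs => ?_
    rw [uIcc_of_le ht.1] at hs
    have hs' : s ∈ Icc (0 : ℝ) 1 := ⟨hs.1, hs.2.trans ht.2⟩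
    show (u s k * eval (xx u s) H) * eval (xx u s) p = (u s k * eval (xx u s) H) *
      (eval 0 p + ∫ q in (0 : ℝ)..s, (u q 0 * eval (xx u q) (pderiv 0 p) +
        u q 1 * eval (xx u q) (pderiv 1 p))) +
      (∫ q in (0 : ℝ)..s, u q k * eval (xx u q) H) * _
    rw [hint k s hs', zero_mul, add_zero, ← chain hu p s hs']
  have hsq : ∀ t ∈ Icc (0 : ℝ) 1, eval (xx u t) H ^ 2 = eval 0 H ^ 2 := by
    intro t ht
    have h := chain hu (H ^ 2) t ht
    rw [map_pow, map_pow] at h
    rw [h]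
    have e : (fun s => u s 0 * eval (xx u s) (pderiv 0 (H ^ 2)) +
        u s 1 * eval (xx u s) (pderiv 1 (H ^ 2))) = fun s =>
        (u s 0 * eval (xx u s) H) * eval (xx u s) (2 * pderiv 0 H) +
        (u s 1 * eval (xx u s) H) * eval (xx u s) (2 * pderiv 1 H) := by
      funext s
      rw [pow_two, pderiv_mul, pderiv_mul]
      simp only [map_add, map_mul, map_ofNat]
      ring
    rw [e, intervalIntegral.integral_add, hpoly 0 _ t ht, hpoly 1 _ t ht, add_zero, add_zero]
    · exact ii (int_mul (hJ 0) (cont_eval (cont_xx hu) _)) ht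
    · exact ii (int_mul (hJ 1) (cont_eval (cont_xx hu) _)) ht
  by_cases hz : eval 0 H = 0
  · left
    intro t ht
    have := hsq t ht
    rw [hz] at this
    exact pow_eq_zero_iff (two_ne_zero) |>.1 (this.trans (by norm_num))
  · right
    have hx0 : ∀ k : Fin 2, ∀ t ∈ Icc (0 : ℝ) 1, ∫ s in (0 : ℝ)..t, u s k = 0 := by
      intro k t ht
      have h := hpoly k H t ht
      have e : ∫ s in (0 : ℝ)..t, (u s k * eval (xx u s) H) * eval (xx u s) H =
          ∫ s in (0 : ℝ)..t, u s k * eval 0 H ^ 2 := by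
        refine intervalIntegral.integral_congr fun s hs => ?_
        rw [uIcc_of_le ht.1] at hs
        have hs' : s ∈ Icc (0 : ℝ) 1 := ⟨hs.1, hs.2.trans ht.2⟩
        show (u s k * eval (xx u s) H) * eval (xx u s) H = u s k * eval 0 H ^ 2
        rw [← hsq s hs']
        ring
      rw [e, intervalIntegral.integral_mul_const] at h
      exact (mul_eq_zero.1 h).resolve_right (pow_ne_zero 2 hz)
    have hvec : ∀ t ∈ Icc (0 : ℝ) 1, ∫ s in (0 : ℝ)..t, u s = 0 := by
      intro t ht
      ext k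
      rw [int_comp hu k ht, hx0 k t ht]
      rfl
    have hae : ∀ᵐ t ∂(volume.restrict (Ioc (0 : ℝ) 1)), u t = 0 := by
      have hI : IntervalIntegrable u volume 0 1 := ii hu h11
      have h1 := hI.ae_hasDerivAt_integral
      rw [uIcc_of_le zero_le_one] at h1
      have h2 : ∀ᵐ t : ℝ, t ≠ 1 := by
        have : (volume : Measure ℝ) {(1 : ℝ)} = 0 := measure_singleton 1
        exact measure_eq_zero_iff_ae_notMem.1 this
      rw [ae_restrict_iff' measurableSet_Ioc]
      filter_upwards [h1, h2] with t ht ht1 htm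
      have h3 := ht (Ioc_subset_Icc_self htm) 0 h00
      have h4 : (fun x => ∫ v in (0 : ℝ)..x, u v) =ᶠ[𝓝 t] fun _ => (0 : EE 2) := by
        have : Ioo (0 : ℝ) 1 ∈ 𝓝 t := Ioo_mem_nhds htm.1 (lt_of_le_of_ne htm.2 ht1)
        filter_upwards [this] with x hx
        exact hvec x ⟨hx.1.le, hx.2.le⟩
      exact (h3.congr_of_eventuallyEq h4.symm).unique (hasDerivAt_const t 0)
    obtain ⟨_, hAd, hst⟩ := hS C u hu
    obtain ⟨_, _, _, _, hW, _⟩ := hst 1 h11
    have hend : C.End u = ∫ s in (0 : ℝ)..1, C.Ad u s (C.X (u s)) := hW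
    rw [hend, intervalIntegral.integral_of_le zero_le_one]
    refine integral_eq_zero_of_ae ?_
    filter_upwards [hae] with t ht
    rw [ht, map_zero, map_zero]
    rfl

end

end Pool.Agent.MetSard
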