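import Pool.Agent.Lib.MP_0e3b4a_gt.H14.Grp
import Pool.Agent.Lib.MP_0e3b4a_gt.H14.Defs2

/-! # From the planar theorem to groups -/

set_option autoImplicit false
set_option linter.unusedSectionVars false

namespace Pool.Agent.MetSard

open MeasureTheory Set Filter Topology MvPolynomial
open Pool.Agent.CutLoci Pool.Agent.CutLoci.H21

theorem exists_b0 {V : Type} [AddCommGroup V] [Module ℝ V] [FiniteDimensional ℝ V]
    (A : Submodule ℝ V) : ∃ b : Fin (Module.finrank ℝ A) → V, (∀ k, b k ∈ A) ∧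
      LinearIndependent ℝ b := by
  let B : Module.Basis (Fin (Module.finrank ℝ A)) ℝ A := Module.finBasis ℝ A
  refine ⟨fun k => B k, fun k => (B k).2, ?_⟩
  exact B.linearIndependent.map' A.subtype (Submodule.ker_subtype A)

theorem exists_b {g : Type} [AddCommGroup g] [Module ℝ g] [FiniteDimensional ℝ g]
    (A : Submodule ℝ (g →ₗ[ℝ] ℝ)) : ∃ (m : ℕ) (b : Fin m → (g →ₗ[ℝ] ℝ)),
      Module.finrank ℝ A = m ∧ (∀ k, b k ∈ A) ∧ ∀ c : Fin m → ℝ,
        (∀ z, ∑ k, c k * b k z = 0) → ∀ k, c k = 0 := by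
  obtain ⟨b, hb, hl⟩ := exists_b0 A
  refine ⟨_, b, rfl, hb, fun c hc => Fintype.linearIndependent_iff.1 hl c ?_⟩
  ext z
  rw [LinearMap.sum_apply, LinearMap.zero_apply, ← hc z]
  exact Finset.sum_congr rfl fun k _ => by rw [LinearMap.smul_apply, smul_eq_mul]

section

variable {g : Type} [NormedAddCommGroup g] [NormedSpace ℝ g] [FiniteDimensional ℝ g]

/-- The continuous version of a linear functional. -/
noncomputable def tc : (g →ₗ[ℝ] ℝ) ≃ₗ[ℝ] (g →L[ℝ] ℝ) := LinearMap.toContinuousLinearMap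

theorem tc_apply (l : g →ₗ[ℝ] ℝ) (z : g) : tc l z = l z := rfl

/-- `PP` is linear in the covector. -/
noncomputable def PPl (C : Carnot g 2) : (g →ₗ[ℝ] ℝ) →ₗ[ℝ] MvPolynomial (Fin 2) ℝ where
  toFun l := PP C (tc l) C.s 0 0
  map_add' l l' := by
    unfold PP
    rw [← Finset.sum_add_distrib]
    refine Finset.sum_congr rfl fun p _ => ?_
    rw [← map_add, tc_apply, tc_apply, tc_apply, LinearMap.add_apply, add_div]
  map_smul' c l := by
    unfold PP
    rw [Finset.smul_sum]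
    refine Finset.sum_congr rfl fun p _ => ?_
    rw [← map_smul]
    congr 1
    rw [tc_apply, tc_apply, LinearMap.smul_apply, smul_div_assoc]
    rfl

/-- Covectors which kill `V₁` and the second derived algebra. -/
def Ann (C : Carnot g 2) : Submodule ℝ (g →ₗ[ℝ] ℝ) where
  carrier := {l | (∀ z ∈ K2 C, l z = 0) ∧ ∀ a, l (C.X a) = 0}
  add_mem' := fun {l l'} h h' => ⟨fun z hz => by
      rw [LinearMap.add_apply, h.1 z hz, h'.1 z hz, add_zero],
    fun a => by rw [LinearMap.add_apply, h.2 a, h'.2 a, add_zero]⟩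
  zero_mem' := ⟨fun z _ => rfl, fun a => rfl⟩
  smul_mem' := fun c l h => ⟨fun z hz => by rw [LinearMap.smul_apply, h.1 z hz, smul_zero],
    fun a => by rw [LinearMap.smul_apply, h.2 a, smul_zero]⟩

theorem X_L2 (C : Carnot g 2) (a : EE 2) (h : C.X a ∈ L2 C) : a = 0 := by
  have h1 : C.X a ∈ Module.End.eigenspace (C.D : g →ₗ[ℝ] g) (1 : ℝ) := by
    rw [Module.End.mem_eigenspace_iff]
    have := C.D_V 1 (C.X a) (X_V1 C a)
    simpa using this
  have h2 : L2 C ≤ ⨆ (c : ℝ) (_ : c ≠ 1), Module.End.eigenspace (C.D : g →ₗ[ℝ] g) c := by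
    rw [L2, Submodule.span_le]
    rintro z ⟨j, hj, hz⟩
    have hj1 : (j : ℝ) ≠ 1 := by
      have : j ≠ 1 := by omega
      exact_mod_cast this
    refine (le_iSup₂_of_le (f := fun (c : ℝ) (_ : c ≠ 1) =>
      Module.End.eigenspace (C.D : g →ₗ[ℝ] g) c) (j : ℝ) hj1 le_rfl) ?_
    rw [Module.End.mem_eigenspace_iff]
    exact C.D_V j z hz
  have h3 := (Module.End.eigenspaces_iSupIndep (C.D : g →ₗ[ℝ] g)) (1 : ℝ)
  have h4 := (Submodule.disjoint_def.1 h3) (C.X a) h1 (h2 h)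
  exact C.X_inj (h4.trans (map_zero C.X).symm)

theorem exists_pi (C : Carnot g 2) : ∃ π : g →ₗ[ℝ] EE 2, (∀ a, π (C.X a) = a) ∧
    ∀ z ∈ L2 C, π z = 0 := by
  let f : EE 2 →ₗ[ℝ] g ⧸ L2 C := (L2 C).mkQ.comp (C.X : EE 2 →ₗ[ℝ] g)
  have hf : LinearMap.ker f = ⊥ := by
    rw [LinearMap.ker_eq_bot']
    intro a ha
    exact X_L2 C a ((Submodule.Quotient.mk_eq_zero _).1 ha)
  obtain ⟨p, hp⟩ := LinearMap.exists_leftInverse_of_injective f hf
  refine ⟨p.comp (L2 C).mkQ, fun a => ?_, fun z hz => ?_⟩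
  · exact LinearMap.congr_fun hp a
  · show p ((L2 C).mkQ z) = 0
    have : (L2 C).mkQ z = 0 := (Submodule.Quotient.mk_eq_zero _).2 hz
    rw [this, map_zero]

theorem K2_le_K1 (C : Carnot g 2) : K2 C ≤ K1 C := by
  rw [K2, Submodule.span_le]
  rintro _ ⟨x, _, y, _, rfl⟩
  exact br_K1 C x y

theorem PPl_ne (hG : GradeStatement g 2) (C : Carnot g 2) (l : g →L[ℝ] ℝ)
    (hl : (l : g →ₗ[ℝ] ℝ) ∈ Ann C) (h0 : l ≠ 0) : PPl C (l : g →ₗ[ℝ] ℝ) ≠ 0 := by
  intro hF
  have hN : ∀ j, C.s < j → C.V j = ⊥ := C.V_big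
  refine h0 (l_zero C hG l hl.2 hl.1 fun i j => ?_)
  have hPP : ∀ i j, PP C l C.s i j = 0 := by
    intro i j
    induction i with
    | zero =>
      induction j with
      | zero => exact hF
      | succ j ih => rw [← pderiv1 C l C.s hG hN, ih, map_zero]
    | succ i ih => rw [← pderiv0 C l C.s hG hN, ih, map_zero]
  rw [← eval0 C l C.s hG hN, hPP, map_zero]

theorem L2_Z (hG : GradeStatement g 2) (C : Carnot g 2) (i j : ℕ) : Z C i j ∈ L2 C :=
  Submodule.subset_span ⟨i + j + 2, by omega, Z_mem C hG i j⟩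

/-- A linear map given by independent functionals is onto; the null set criterion. -/
theorem null_of_dim {ι : Type} [Fintype ι] [MeasurableSpace g] [BorelSpace g] (μ : Measure g)
    [μ.IsAddHaarMeasure] (L : g →ₗ[ℝ] (ι → ℝ)) (hL : Function.Surjective L) (E : Set g)
    (hE : dimH (L '' E) < Fintype.card ι) : μ E = 0 := by
  have h1 : (volume : Measure (ι → ℝ)) (L '' E) = 0 := by
    have hac : (volume : Measure (ι → ℝ)) ≪ Measure.hausdorffMeasure ((Fintype.card ι : NNReal) : ℝ) := by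
      rw [NNReal.coe_natCast, hausdorffMeasure_pi_real]
    exact measure_zero_of_dimH_lt hac (by simpa using hE)
  set T := toMeasurable (volume : Measure (ι → ℝ)) (L '' E) with hT
  have hTm : MeasurableSet T := measurableSet_toMeasurable _ _
  have hT0 : (volume : Measure (ι → ℝ)) T = 0 := by rw [hT, measure_toMeasurable, h1]
  have h2 : ∀ᵐ y ∂(volume : Measure (ι → ℝ)), y ∈ Tᶜ :=
    measure_eq_zero_iff_ae_notMem.1 hT0
  have h3 := (ae_comp_linearMap_mem_iff L μ (volume : Measure (ι → ℝ)) hL hTm.compl).2 h2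
  refine measure_mono_null (fun x hx => ?_) h3
  intro hc
  exact hc (subset_toMeasurable _ _ (mem_image_of_mem L hx))

/-- Endpoints of curves with a covector killing the second derived algebra. -/
def Bad (C : Carnot g 2) : Set g :=
  {b | ∃ u : ℝ → EE 2, IntegrableOn u (Ioc 0 1) ∧ C.End u = b ∧ ∃ l : g →L[ℝ] ℝ, l ≠ 0 ∧
    (∀ z ∈ K2 C, l z = 0) ∧ ∀ t ∈ Icc (0 : ℝ) 1, ∀ a, l (C.Ad u t (C.X a)) = 0}

theorem bad_null (hP : PlanarS) (hS : StrucStatement g 2) (hG : GradeStatement g 2)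
    (C : Carnot g 2) [MeasurableSpace g] [BorelSpace g] (μ : Measure g) [μ.IsAddHaarMeasure] :
    μ (Bad C) = 0 := by
  obtain ⟨π, hπX, hπ⟩ := exists_pi C
  obtain ⟨m, B, hm, hBA, hBl⟩ := exists_b (Ann C)
  let lam : Fin 2 → (g →L[ℝ] ℝ) := fun i => LinearMap.toContinuousLinearMap
    (((EuclideanSpace.proj i : EE 2 →L[ℝ] ℝ) : EE 2 →ₗ[ℝ] ℝ).comp π)
  have hlam : ∀ i z, lam i z = π z i := fun i z => rfl
  have hK1 : ∀ z ∈ K1 C, π z = 0 := fun z hz => hπ z (K1_le C hG hz)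
  have hlamK : ∀ i, ∀ z ∈ K2 C, lam i z = 0 := by
    intro i z hz
    rw [hlam, hK1 z (K2_le_K1 C hz)]
    rfl
  have hlamP : ∀ i, PP C (lam i) C.s 0 0 = 0 := by
    intro i
    ext n
    rw [coeff_PP C _ C.s hG C.V_big, hlam, hπ _ (L2_Z hG C _ _)]
    simp
  let L : g →ₗ[ℝ] (Fin 2 ⊕ Fin m → ℝ) := LinearMap.pi (Sum.elim
    (fun i => (lam i : g →ₗ[ℝ] ℝ)) (fun k => B k))
  have hLl : ∀ z i, L z (Sum.inl i) = π z i := fun z i => rfl
  have hLr : ∀ z k, L z (Sum.inr k) = B k z := fun z k => rfl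
  have hLs : Function.Surjective L := by
    rw [← LinearMap.range_eq_top]
    by_contra hne
    obtain ⟨f, hf0, hf⟩ := Submodule.exists_le_ker_of_lt_top _ (lt_top_iff_ne_top.2 hne)
    have hf1 : ∀ z, f (L z) = 0 := fun z => hf ⟨z, rfl⟩
    have hfe : ∀ w : Fin 2 ⊕ Fin m → ℝ, f w = ∑ i, w i * f (Pi.single i 1) := by
      intro w
      conv_lhs => rw [← Finset.univ_sum_single w]
      rw [map_sum]
      refine Finset.sum_congr rfl fun i _ => ?_
      have : (Pi.single i (w i) : Fin 2 ⊕ Fin m → ℝ) = w i • Pi.single i 1 := by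
        rw [← Pi.single_smul, smul_eq_mul, mul_one]
      rw [this, map_smul, smul_eq_mul]
    have hc1 : ∀ i : Fin 2, f (Pi.single (Sum.inl i) 1) = 0 := by
      intro i
      have h := hf1 (C.X (EuclideanSpace.single i 1))
      rw [hfe, Fintype.sum_sum_type] at h
      have e2 : ∑ k : Fin m, L (C.X (EuclideanSpace.single i 1)) (Sum.inr k) *
          f (Pi.single (Sum.inr k) 1) = 0 := by
        refine Finset.sum_eq_zero fun k _ => ?_
        rw [hLr, (hBA k).2, zero_mul]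
      rw [e2, add_zero, Finset.sum_eq_single i] at h
      · rw [hLl, hπX] at h
        simpa using h
      · intro j _ hj
        rw [hLl, hπX]
        simp [hj]
      · simp
    have hc3 : ∀ k : Fin m, f (Pi.single (Sum.inr k) 1) = 0 := by
      refine hBl (fun k => f (Pi.single (Sum.inr k) 1)) fun z => ?_
      have h := hf1 z
      rw [hfe, Fintype.sum_sum_type] at h
      simp only [hc1, mul_zero, Finset.sum_const_zero, zero_add] at h
      rw [← h]
      exact Finset.sum_congr rfl fun k _ => by rw [hLr, mul_comm]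
    apply hf0
    ext i
    rcases i with i | k
    · simpa using hc1 i
    · simpa using hc3 k
  -- the planar data
  let W : Submodule ℝ (MvPolynomial (Fin 2) ℝ) := (Ann C).map (PPl C)
  have hW : Module.finrank ℝ W ≤ m := (Submodule.finrank_map_le _ _).trans hm.le
  have hWf : FiniteDimensional ℝ W := inferInstance
  let H : Fin m → MvPolynomial (Fin 2) ℝ := fun k => PPl C (B k)
  let P : Fin m × Fin 3 → Fin 2 → MvPolynomial (Fin 2) ℝ := fun k =>
    if k.2 = 0 then ![H k.1, 0] else if k.2 = 1 then ![0, H k.1] else ![X 1 * H k.1, -X 0 * H k.1]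
  let Θ : (Fin 2 → ℝ) × (Fin m × Fin 3 → ℝ) → (Fin 2 ⊕ Fin m → ℝ) := fun v =>
    Sum.elim v.1 (fun k => v.1 1 * v.2 (k, 0) - v.1 0 * v.2 (k, 1) - v.2 (k, 2))
  have hΘ : ContDiff ℝ 1 Θ := by
    rw [contDiff_pi]
    rintro (i | k)
    · show ContDiff ℝ 1 fun v : (Fin 2 → ℝ) × (Fin m × Fin 3 → ℝ) => v.1 i
      exact (contDiff_apply ℝ ℝ i).comp contDiff_fst
    · show ContDiff ℝ 1 fun v : (Fin 2 → ℝ) × (Fin m × Fin 3 → ℝ) =>
        v.1 1 * v.2 (k, 0) - v.1 0 * v.2 (k, 1) - v.2 (k, 2)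
      have h1 : ∀ i, ContDiff ℝ 1 fun v : (Fin 2 → ℝ) × (Fin m × Fin 3 → ℝ) => v.1 i := fun i =>
        (contDiff_apply ℝ ℝ i).comp contDiff_fst
      have h2 : ∀ i, ContDiff ℝ 1 fun v : (Fin 2 → ℝ) × (Fin m × Fin 3 → ℝ) => v.2 i := fun i =>
        (contDiff_apply ℝ ℝ i).comp contDiff_snd
      exact (((h1 1).mul (h2 _)).sub ((h1 0).mul (h2 _))).sub (h2 _)
  have hsub : L '' (Bad C \ {0}) ⊆ Θ '' SS W P := by
    rintro _ ⟨b, ⟨⟨u, hu, rfl, l, hl0, hlK, hlX⟩, hb⟩, rfl⟩
    rcases zero_along hS hG C u hu l hlK hlX with hz | hz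
    swap
    · exact absurd hz hb
    have hlX0 : ∀ a, l (C.X a) = 0 := by
      intro a
      have h00 : (0 : ℝ) ∈ Icc (0 : ℝ) 1 := ⟨le_rfl, zero_le_one⟩
      have h1 := ad_X hS hG C u hu l hlK a 0 h00
      rw [hlX 0 h00 a] at h1
      simpa using h1.symm
    have hlA : (l : g →ₗ[ℝ] ℝ) ∈ Ann C := ⟨hlK, hlX0⟩
    refine ⟨(xx u 1, fun k => ∫ t in (0 : ℝ)..1,
      (u t 0 * eval (xx u t) (P k 0) + u t 1 * eval (xx u t) (P k 1))),
      ⟨u, hu, PPl C (l : g →ₗ[ℝ] ℝ), Submodule.mem_map_of_mem hlA, PPl_ne hG C l hlA hl0, hz, rfl,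
        fun k => rfl⟩, ?_⟩
    funext i
    rcases i with i | k
    · show xx u 1 i = π (C.End u) i
      have h := end_formula hS hG C u hu (lam i) (hlamK i)
      rw [hlamP i, hlam, hlam, hlam] at h
      simp only [mul_zero, map_zero, intervalIntegral.integral_zero, add_zero, sub_zero] at h
      rw [h]
      have e1 : π (f1 C) i = if i = 0 then 1 else 0 := by
        show π (C.X (EuclideanSpace.single 0 1)) i = _
        rw [hπX]
        simp
      have e2 : π (f2 C) i = if i = 1 then 1 else 0 := by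
        show π (C.X (EuclideanSpace.single 1 1)) i = _
        rw [hπX]
        simp
      rw [e1, e2]
      fin_cases i <;> simp
    · have h := end_formula hS hG C u hu (tc (B k)) (hBA k).1
      have e1 : (tc (B k)) (f1 C) = 0 := (hBA k).2 _
      have e2 : (tc (B k)) (f2 C) = 0 := (hBA k).2 _
      rw [e1, e2, mul_zero, mul_zero, zero_add, zero_add] at h
      show xx u 1 1 * (∫ t in (0 : ℝ)..1, (u t 0 * eval (xx u t) (P (k, 0) 0) +
          u t 1 * eval (xx u t) (P (k, 0) 1))) -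
        xx u 1 0 * (∫ t in (0 : ℝ)..1, (u t 0 * eval (xx u t) (P (k, 1) 0) +
          u t 1 * eval (xx u t) (P (k, 1) 1))) -
        (∫ t in (0 : ℝ)..1, (u t 0 * eval (xx u t) (P (k, 2) 0) +
          u t 1 * eval (xx u t) (P (k, 2) 1))) = (tc (B k)) (C.End u)
      rw [h]
      have p00 : P (k, 0) 0 = PP C (tc (B k)) C.s 0 0 := rfl
      have p01 : P (k, 0) 1 = 0 := rfl
      have p10 : P (k, 1) 0 = 0 := rfl
      have p11 : P (k, 1) 1 = PP C (tc (B k)) C.s 0 0 := rfl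
      have p20 : P (k, 2) 0 = X 1 * PP C (tc (B k)) C.s 0 0 := rfl
      have p21 : P (k, 2) 1 = -X 0 * PP C (tc (B k)) C.s 0 0 := rfl
      rw [p00, p01, p10, p11, p20, p21]
      simp only [map_zero, mul_zero, add_zero, zero_add]
  have hdim : dimH (L '' (Bad C \ {0})) < (Fintype.card (Fin 2 ⊕ Fin m) : ENNReal) := by
    refine lt_of_le_of_lt (dimH_mono hsub) ?_
    refine lt_of_le_of_lt (hΘ.contDiffOn.dimH_image_le convex_univ (subset_univ _)) ?_
    refine lt_of_le_of_lt (hP W hWf _ P) ?_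
    have h1 : (Module.finrank ℝ W : ENNReal) ≤ m := by exact_mod_cast hW
    refine lt_of_le_of_lt (add_le_add_left h1 _) ?_
    have h2 : (Fintype.card (Fin 2 ⊕ Fin m) : ENNReal) = m + 2 := by
      rw [Fintype.card_sum, Fintype.card_fin, Fintype.card_fin]
      push_cast
      rw [add_comm]
    rw [h2]
    refine ENNReal.add_lt_add_left (ENNReal.natCast_ne_top m) ?_
    rw [ENNReal.div_lt_iff (by norm_num) (by norm_num)]
    norm_num
  have h1 := null_of_dim μ L hLs _ hdim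
  have h2 : Bad C ⊆ (Bad C \ {0}) ∪ {0} := by
    intro x hx
    by_cases h : x = 0
    · exact Or.inr h
    · exact Or.inl ⟨hx, h⟩
  have hnt : Nontrivial g := by
    refine ⟨C.X (EuclideanSpace.single 0 1), 0, fun h => ?_⟩
    have h1 := C.X_inj (h.trans (map_zero C.X).symm)
    have h2 := congrArg (fun v : EE 2 => v 0) h1
    simp at h2
  refine measure_mono_null h2 (measure_union_null h1 ?_)
  exact measure_singleton 0

end

end Pool.Agent.MetSard
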