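import Pool.Agent.Lib.MP_0e3b4a_gt.H14.Defs2

/-! # The planar theorem for monic families, part A: polynomials, Fubini, Lipschitz bounds -/

set_option autoImplicit false

namespace Pool.Agent.MetSard.Mono

open MeasureTheory Set Polynomial Filter Topology
open Pool.Agent.MetSard

section Conv

variable {d : ℕ}

/-- Polynomials in `a`, `x`, `y` as polynomials in one family of variables. -/
theorem conv (P : (MvPolynomial (Fin d) ℝ)[X][X]) : ∃ p : MvPolynomial (Fin d ⊕ Fin 2) ℝ,
    ∀ (a : Fin d → ℝ) (q : Fin 2 → ℝ), MvPolynomial.eval (Sum.elim a q) p =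
      (sp P a).evalEval (q 0) (q 1) := by
  let f : (MvPolynomial (Fin d) ℝ)[X][X] →+* MvPolynomial (Fin d ⊕ Fin 2) ℝ :=
    eval₂RingHom (eval₂RingHom (MvPolynomial.rename Sum.inl :
      MvPolynomial (Fin d) ℝ →ₐ[ℝ] MvPolynomial (Fin d ⊕ Fin 2) ℝ).toRingHom
        (MvPolynomial.X (Sum.inr 0))) (MvPolynomial.X (Sum.inr 1))
  refine ⟨f P, fun a q => ?_⟩
  let g1 : (MvPolynomial (Fin d) ℝ)[X][X] →+* ℝ := (MvPolynomial.eval (Sum.elim a q)).comp f
  let g2 : (MvPolynomial (Fin d) ℝ)[X][X] →+* ℝ :=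
    (evalEvalRingHom (q 0) (q 1)).comp (mapRingHom (mapRingHom (MvPolynomial.eval a)))
  have h : g1 = g2 := by
    apply Polynomial.ringHom_ext'
    · apply Polynomial.ringHom_ext'
      · apply MvPolynomial.ringHom_ext
        · intro r
          simp [g1, g2, f, evalEvalRingHom]
        · intro i
          simp [g1, g2, f, evalEvalRingHom]
      · simp [g1, g2, f, evalEvalRingHom]
    · simp [g1, g2, f, evalEvalRingHom]
  exact congrArg (fun g : (MvPolynomial (Fin d) ℝ)[X][X] →+* ℝ => g P) h

theorem conv1 (P : (MvPolynomial (Fin d) ℝ)[X]) : ∃ p : MvPolynomial (Fin d ⊕ Fin 2) ℝ,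
    ∀ (a : Fin d → ℝ) (q : Fin 2 → ℝ), MvPolynomial.eval (Sum.elim a q) p =
      (P.map (MvPolynomial.eval a)).eval (q 0) := by
  obtain ⟨p, hp⟩ := conv (C P)
  refine ⟨p, fun a q => ?_⟩
  rw [hp, sp, Polynomial.map_C, evalEval_C]
  rfl

/-- The derivative of a polynomial in the second variable. -/
theorem hasDeriv1 (p : MvPolynomial (Fin 2) ℝ) (s y : ℝ) :
    HasDerivAt (fun y => MvPolynomial.eval ![s, y] p)
      (MvPolynomial.eval ![s, y] (MvPolynomial.pderiv 1 p)) y := by
  induction p using MvPolynomial.induction_on with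
  | C a => simpa using hasDerivAt_const y a
  | add p q hp hq =>
    simp only [map_add]
    exact hp.add hq
  | mul_X p i hp =>
    have hX : HasDerivAt (fun y : ℝ => MvPolynomial.eval ![s, y]
        (MvPolynomial.X i : MvPolynomial (Fin 2) ℝ))
        (MvPolynomial.eval ![s, y] (MvPolynomial.pderiv 1 (MvPolynomial.X i))) y := by
      fin_cases i
      · simpa using hasDerivAt_const y s
      · have h : HasDerivAt (fun y : ℝ => y) 1 y := hasDerivAt_id' y
        simpa using h
    have h := hp.mul hX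
    have e1 : MvPolynomial.eval ![s, y] (MvPolynomial.pderiv 1 (p * MvPolynomial.X i)) =
        MvPolynomial.eval ![s, y] (MvPolynomial.pderiv 1 p) *
          MvPolynomial.eval ![s, y] (MvPolynomial.X i) + MvPolynomial.eval ![s, y] p *
          MvPolynomial.eval ![s, y] (MvPolynomial.pderiv 1 (MvPolynomial.X i)) := by
      rw [MvPolynomial.pderiv_mul, map_add, map_mul, map_mul]
    rw [e1]
    simp only [map_mul]
    exact h

end Conv

section Fub

variable {E : Type} [NormedAddCommGroup E] [NormedSpace ℝ E]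

/-- Fubini in the plane. -/
theorem fub (f : (Fin 2 → ℝ) → E) (hf : Integrable f) :
    ∫ q, f q = ∫ s, ∫ y, f ![s, y] := by
  have hmp := (volume_preserving_finTwoArrow ℝ).symm
  have h1 : ∫ p : ℝ × ℝ, f ((MeasurableEquiv.finTwoArrow (α := ℝ)).symm p) = ∫ q, f q :=
    hmp.integral_comp' f
  have h2 : Integrable (fun p : ℝ × ℝ => f ((MeasurableEquiv.finTwoArrow (α := ℝ)).symm p)) :=
    (hmp.integrable_comp_emb (MeasurableEquiv.measurableEmbedding _)).2 hf
  rw [← h1]
  exact integral_prod _ h2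

/-- Two bounded functions which agree off a set of small measure. -/
theorem lip_dis (f f' : (Fin 2 → ℝ) → E) (hf : Integrable f) (hf' : Integrable f')
    (S : Set (Fin 2 → ℝ)) (hS : volume S ≠ ⊤) (M : ℝ) (hM : ∀ q, ‖f q‖ ≤ M)
    (hM' : ∀ q, ‖f' q‖ ≤ M) (h : ∀ q, q ∉ S → f q = f' q) :
    ‖(∫ q, f q) - ∫ q, f' q‖ ≤ 2 * M * (volume S).toReal := by
  rw [← integral_sub hf hf']
  have h1 : ∫ q, (f q - f' q) = ∫ q in S, (f q - f' q) := by
    rw [setIntegral_eq_integral_of_forall_compl_eq_zero]
    intro q hq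
    rw [h q hq, sub_self]
  rw [h1]
  refine norm_setIntegral_le_of_norm_le_const (lt_top_iff_ne_top.2 hS) fun q _ => ?_
  calc ‖f q - f' q‖ ≤ ‖f q‖ + ‖f' q‖ := norm_sub_le _ _
    _ ≤ 2 * M := by linarith [hM q, hM' q]

end Fub

section Codes

variable {d : ℕ}

/-- The `y`-code. -/
noncomputable def cF (D : ℕ) (F : (MvPolynomial (Fin d) ℝ)[X][X]) (a : Fin d → ℝ)
    (q : Fin 2 → ℝ) : Fin (D + 1) → SignType :=
  code D ((sp F a).map (evalRingHom (q 0))) (q 1)

/-- The `x`-code. -/
noncomputable def cE (D : ℕ) (e : (MvPolynomial (Fin d) ℝ)[X]) (a : Fin d → ℝ)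
    (x : ℝ) : Fin (D + 1) → SignType :=
  code D (e.map (MvPolynomial.eval a)) x

theorem cF_apply (D : ℕ) (F : (MvPolynomial (Fin d) ℝ)[X][X]) (a : Fin d → ℝ)
    (q : Fin 2 → ℝ) (j : Fin (D + 1)) : cF D F a q j =
      SignType.sign ((sp (derivative^[(j : ℕ)] F) a).evalEval (q 0) (q 1)) := by
  show SignType.sign ((derivative^[(j : ℕ)] ((sp F a).map (evalRingHom (q 0)))).eval (q 1)) = _
  rw [iterate_derivative_map, sp, iterate_derivative_map, map_evalRingHom_eval]
  rfl

theorem cE_apply (D : ℕ) (e : (MvPolynomial (Fin d) ℝ)[X]) (a : Fin d → ℝ) (x : ℝ)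
    (j : Fin (D + 1)) : cE D e a x j =
      SignType.sign (((derivative^[(j : ℕ)] e).map (MvPolynomial.eval a)).eval x) := by
  show SignType.sign ((derivative^[(j : ℕ)] (e.map (MvPolynomial.eval a))).eval x) = _
  rw [iterate_derivative_map]

theorem sign_meas {f : (Fin 2 → ℝ) → ℝ} (hf : Continuous f) (s : SignType) :
    MeasurableSet {q | SignType.sign (f q) = s} := by
  have h : ∀ s : SignType, MeasurableSet {x : ℝ | SignType.sign x = s} := by
    intro s
    rcases s with _ | _ | _
    · have : {x : ℝ | SignType.sign x = SignType.zero} = {0} := by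
        ext x
        exact sign_eq_zero_iff
      rw [this]
      exact measurableSet_singleton 0
    · have : {x : ℝ | SignType.sign x = SignType.neg} = Iio 0 := by
        ext x
        exact sign_eq_neg_one_iff
      rw [this]
      exact measurableSet_Iio
    · have : {x : ℝ | SignType.sign x = SignType.pos} = Ioi 0 := by
        ext x
        exact sign_eq_one_iff
      rw [this]
      exact measurableSet_Ioi
  exact hf.measurable (h s)

theorem evalEval_cont (P : ℝ[X][X]) : Continuous fun q : ℝ × ℝ => P.evalEval q.1 q.2 := by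
  induction P using Polynomial.induction_on' with
  | add p q hp hq =>
    simp only [evalEval_add]
    exact hp.add hq
  | monomial n c =>
    have : (fun q : ℝ × ℝ => (monomial n c).evalEval q.1 q.2) = fun q => c.eval q.1 * q.2 ^ n := by
      funext q
      simp [evalEval]
    rw [this]
    exact (c.continuous.comp continuous_fst).mul (continuous_snd.pow n)

theorem evalEval_cont' (P : ℝ[X][X]) : Continuous fun q : Fin 2 → ℝ => P.evalEval (q 0) (q 1) :=
  (evalEval_cont P).comp ((continuous_apply (0 : Fin 2)).prodMk (continuous_apply (1 : Fin 2)) :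
    Continuous fun q : Fin 2 → ℝ => (q 0, q 1))

theorem cF_meas (D : ℕ) (F : (MvPolynomial (Fin d) ℝ)[X][X]) (a : Fin d → ℝ)
    (T : Set (Fin (D + 1) → SignType)) : MeasurableSet {q | cF D F a q ∈ T} := by
  have h1 : ∀ σ : Fin (D + 1) → SignType, MeasurableSet {q | cF D F a q = σ} := by
    intro σ
    have : {q | cF D F a q = σ} = ⋂ j : Fin (D + 1), {q | SignType.sign
        ((sp (derivative^[(j : ℕ)] F) a).evalEval (q 0) (q 1)) = σ j} := by
      ext q
      simp only [mem_ofPred_eq, mem_iInter, funext_iff, cF_apply]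
    rw [this]
    exact MeasurableSet.iInter fun j => sign_meas (evalEval_cont' _) _
  have h2 : {q | cF D F a q ∈ T} = ⋃ σ ∈ T, {q | cF D F a q = σ} := by
    ext q
    simp
  rw [h2]
  exact MeasurableSet.biUnion (to_countable T) fun σ _ => h1 σ

theorem cE_meas (D : ℕ) (e : (MvPolynomial (Fin d) ℝ)[X]) (a : Fin d → ℝ)
    (T : Set (Fin (D + 1) → SignType)) : MeasurableSet {q : Fin 2 → ℝ | cE D e a (q 0) ∈ T} := by
  have h1 : ∀ σ : Fin (D + 1) → SignType,
      MeasurableSet {q : Fin 2 → ℝ | cE D e a (q 0) = σ} := by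
    intro σ
    have : {q : Fin 2 → ℝ | cE D e a (q 0) = σ} = ⋂ j : Fin (D + 1), {q : Fin 2 → ℝ | SignType.sign
        (((derivative^[(j : ℕ)] e).map (MvPolynomial.eval a)).eval (q 0)) = σ j} := by
      ext q
      simp only [mem_ofPred_eq, mem_iInter, funext_iff, cE_apply]
    rw [this]
    exact MeasurableSet.iInter fun j =>
      sign_meas ((Polynomial.continuous _).comp (continuous_apply 0)) _
  have h2 : {q : Fin 2 → ℝ | cE D e a (q 0) ∈ T} = ⋃ σ ∈ T, {q | cE D e a (q 0) = σ} := by
    ext q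
    simp
  rw [h2]
  exact MeasurableSet.biUnion (to_countable T) fun σ _ => h1 σ

end Codes

end Pool.Agent.MetSard.Mono
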