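import Pool.Agent.Lib.MP_0e3b4a_gt.H14.Defs

/-! # Thom's lemma in one variable -/

set_option autoImplicit false

namespace Pool.Agent.MetSard

open MeasureTheory Set Polynomial

namespace THOM

/-- Monotonicity from the sign of the derivative. -/
theorem mono (f : ℝ[X]) (a b : ℝ) (s : SignType)
    (hs : ∀ t ∈ Icc a b, SignType.sign ((derivative f).eval t) = s) :
    (s = 1 → StrictMonoOn (fun t => f.eval t) (Icc a b)) ∧
    (s = -1 → StrictAntiOn (fun t => f.eval t) (Icc a b)) ∧
    (s = 0 → a ≤ b → f.eval a = f.eval b) ∧ (s = 0 → MonotoneOn (fun t => f.eval t) (Icc a b)) ∧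
    (s = 0 → AntitoneOn (fun t => f.eval t) (Icc a b)) := by
  have hc : ContinuousOn (fun t => f.eval t) (Icc a b) := f.continuous.continuousOn
  have hd : DifferentiableOn ℝ (fun t => f.eval t) (interior (Icc a b)) :=
    f.differentiable.differentiableOn
  have hm0 : s = 0 → MonotoneOn (fun t => f.eval t) (Icc a b) := fun h =>
    monotoneOn_of_deriv_nonneg (convex_Icc a b) hc hd fun t ht => by
      rw [Polynomial.deriv]
      have := hs t (interior_subset ht)
      rw [h, sign_eq_zero_iff] at this
      exact this.ge
  have ha0 : s = 0 → AntitoneOn (fun t => f.eval t) (Icc a b) := fun h =>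
    antitoneOn_of_deriv_nonpos (convex_Icc a b) hc hd fun t ht => by
      rw [Polynomial.deriv]
      have := hs t (interior_subset ht)
      rw [h, sign_eq_zero_iff] at this
      exact this.le
  refine ⟨fun h => ?_, fun h => ?_, fun h hab => ?_, hm0, ha0⟩
  · refine strictMonoOn_of_deriv_pos (convex_Icc a b) hc fun t ht => ?_
    rw [Polynomial.deriv]
    have := hs t (interior_subset ht)
    rw [h, sign_eq_one_iff] at this
    exact this
  · refine strictAntiOn_of_deriv_neg (convex_Icc a b) hc fun t ht => ?_
    rw [Polynomial.deriv]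
    have := hs t (interior_subset ht)
    rw [h, sign_eq_neg_one_iff] at this
    exact this
  · exact le_antisymm (hm0 h ⟨le_rfl, hab⟩ ⟨hab, le_rfl⟩ hab) (ha0 h ⟨le_rfl, hab⟩ ⟨hab, le_rfl⟩ hab)

/-- The sign is constant on the segment if it is at both ends. -/
theorem const (f : ℝ[X]) (a b : ℝ) (s : SignType)
    (hs : ∀ t ∈ Icc a b, SignType.sign ((derivative f).eval t) = s)
    (h : SignType.sign (f.eval a) = SignType.sign (f.eval b)) :
    ∀ t ∈ Icc a b, SignType.sign (f.eval t) = SignType.sign (f.eval a) := by
  intro t ht
  obtain ⟨h1, h2, -, h4, -⟩ := mono f a b s hs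
  have hab : a ≤ b := ht.1.trans ht.2
  have ha : a ∈ Icc a b := ⟨le_rfl, hab⟩
  have hb : b ∈ Icc a b := ⟨hab, le_rfl⟩
  have key : MonotoneOn (fun t => f.eval t) (Icc a b) →
      SignType.sign (f.eval t) = SignType.sign (f.eval a) := fun hm => by
    refine le_antisymm ?_ (SignType.sign.monotone (hm ha ht ht.1))
    rw [h]
    exact SignType.sign.monotone (hm ht hb ht.2)
  rcases s with _ | _ | _
  · exact key (h4 rfl)
  · have hm := (h2 rfl).antitoneOn
    refine le_antisymm (SignType.sign.monotone (hm ha ht ht.1)) ?_
    rw [h]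
    exact SignType.sign.monotone (hm ht hb ht.2)
  · exact key (h1 rfl).monotoneOn

/-- All the higher derivatives have constant sign. -/
theorem const_all (D : ℕ) (p : ℝ[X]) (hD : p.natDegree ≤ D) (a b : ℝ) (j : ℕ)
    (h : ∀ i, j ≤ i → i ≤ D → SignType.sign ((derivative^[i] p).eval a) =
      SignType.sign ((derivative^[i] p).eval b)) (i : ℕ) (hi : i ≤ D) (hj : j ≤ i) :
    ∀ t ∈ Icc a b, SignType.sign ((derivative^[i] p).eval t) =
      SignType.sign ((derivative^[i] p).eval a) := by
  induction hi using Nat.decreasingInduction with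
  | self =>
    intro t _
    have : (derivative^[D] p).natDegree ≤ 0 := by
      have := natDegree_iterate_derivative p D
      omega
    rw [eq_C_of_natDegree_le_zero this, eval_C, eval_C]
  | of_succ i hi ih =>
    have ih := ih (by omega)
    rw [Function.iterate_succ_apply'] at ih
    exact const _ a b _ ih (h i hj (by omega))

end THOM

open THOM in
/-- THOM: the order of a point and a root is seen from the codes. -/
theorem thom (D : ℕ) (p : ℝ[X]) (hp : p ≠ 0) (hD : p.natDegree ≤ D) (y y' : ℝ)
    (h : p.eval y' = 0) : prec (code D p y) (code D p y') ↔ y < y' := by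
  have key : ∀ (a b : ℝ) (j : ℕ), j < D → (∀ i, j < i → i ≤ D →
      SignType.sign ((derivative^[i] p).eval a) = SignType.sign ((derivative^[i] p).eval b)) →
      ∀ t ∈ Icc a b, SignType.sign ((derivative (derivative^[j] p)).eval t) =
        SignType.sign ((derivative^[j + 1] p).eval a) := by
    intro a b j hj hh
    have h1 := const_all D p hD a b (j + 1) (fun i hi hi' => hh i (by omega) hi') (j + 1)
      (by omega) le_rfl
    rwa [Function.iterate_succ_apply'] at h1 ⊢
  constructor
  · rintro ⟨j, hj, hlt⟩
    by_contra hyy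
    rw [not_lt] at hyy
    have hh : ∀ i, (j : ℕ) < i → i ≤ D →
        SignType.sign ((derivative^[i] p).eval y') = SignType.sign ((derivative^[i] p).eval y) :=
      fun i hi hi' => (hj ⟨i, by omega⟩ (by simpa [Fin.lt_def] using hi)).symm
    have h1 := key y' y j j.2 hh
    obtain ⟨m1, m2, -, -, -⟩ := mono _ _ _ _ h1
    have h2 : code D p y j.succ = SignType.sign ((derivative^[(j : ℕ) + 1] p).eval y) := rfl
    have h3 : code D p y j.castSucc = SignType.sign ((derivative^[(j : ℕ)] p).eval y) := rfl
    have h4 : code D p y' j.castSucc = SignType.sign ((derivative^[(j : ℕ)] p).eval y') := rfl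
    rw [h2, h3, h4, ← hh (j + 1) (by omega) (by omega)] at hlt
    have hy1 : y' ∈ Icc y' y := ⟨le_rfl, hyy⟩
    have hy2 : y ∈ Icc y' y := ⟨hyy, le_rfl⟩
    generalize SignType.sign ((derivative^[(j : ℕ) + 1] p).eval y') = s at *
    rcases s with _ | _ | _
    · change (0 : SignType) * _ < 0 * _ at hlt
      simp at hlt
    · have h5 := SignType.sign.monotone ((m2 rfl).antitoneOn hy1 hy2 hyy)
      change (-1 : SignType) * _ < -1 * _ at hlt
      revert hlt h5
      generalize SignType.sign ((derivative^[(j : ℕ)] p).eval y) = u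
      generalize SignType.sign ((derivative^[(j : ℕ)] p).eval y') = w
      revert u w
      decide
    · have h5 := SignType.sign.monotone ((m1 rfl).monotoneOn hy1 hy2 hyy)
      change (1 : SignType) * _ < 1 * _ at hlt
      revert hlt h5
      generalize SignType.sign ((derivative^[(j : ℕ)] p).eval y) = u
      generalize SignType.sign ((derivative^[(j : ℕ)] p).eval y') = w
      revert u w
      decide
  · intro hyy
    have hy1 : y ∈ Icc y y' := ⟨le_rfl, hyy.le⟩
    have hy2 : y' ∈ Icc y y' := ⟨hyy.le, le_rfl⟩
    have hne : ∃ j, j ≤ D ∧ SignType.sign ((derivative^[j] p).eval y) ≠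
        SignType.sign ((derivative^[j] p).eval y') := by
      by_contra hc
      push Not at hc
      have h1 := const_all D p hD y y' 0 (fun i _ hi => hc i hi) 0 (Nat.zero_le _) le_rfl
      have h2 : ∀ t ∈ Icc y y', p.eval t = 0 := fun t ht => by
        have h3 := h1 t ht
        rw [← h1 y' hy2] at h3
        simp only [Function.iterate_zero, id, h, sign_zero] at h3
        exact sign_eq_zero_iff.1 h3
      exact hp (Polynomial.eq_zero_of_infinite_isRoot p
        ((Icc_infinite hyy).mono fun t ht => h2 t ht))
    obtain ⟨j, ⟨hjD, hj⟩, hmax⟩ : ∃ j, (j ≤ D ∧ SignType.sign ((derivative^[j] p).eval y) ≠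
        SignType.sign ((derivative^[j] p).eval y')) ∧ ∀ i, j < i → i ≤ D →
        SignType.sign ((derivative^[i] p).eval y) = SignType.sign ((derivative^[i] p).eval y') := by
      classical
      obtain ⟨j₀, hj₀, hj₀'⟩ := hne
      let S : Finset ℕ := (Finset.range (D + 1)).filter fun j =>
        SignType.sign ((derivative^[j] p).eval y) ≠ SignType.sign ((derivative^[j] p).eval y')
      have hS : S.Nonempty := ⟨j₀, by simp [S, hj₀']; omega⟩
      have h1 := S.max'_mem hS
      simp only [S, Finset.mem_filter, Finset.mem_range] at h1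
      refine ⟨S.max' hS, ⟨by simpa [S] using Nat.lt_succ_iff.1 h1.1, h1.2⟩, fun i hi hi' => ?_⟩
      by_contra hc
      have := S.le_max' i (by simp [S, hc]; omega)
      omega
    have hjD' : j < D := by
      rcases hjD.lt_or_eq with h1 | h1
      · exact h1
      · exfalso
        subst h1
        have : (derivative^[j] p).natDegree ≤ 0 := by
          have := natDegree_iterate_derivative p j
          omega
        rw [eq_C_of_natDegree_le_zero this, eval_C, eval_C] at hj
        exact hj rfl
    have h1 := key y y' j hjD' hmax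
    obtain ⟨m1, m2, m3, -, -⟩ := mono _ _ _ _ h1
    refine ⟨⟨j, hjD'⟩, fun i hi => hmax i (by simpa [Fin.lt_def] using hi)
      (by have := i.2; omega), ?_⟩
    have h2 : code D p y (Fin.succ ⟨j, hjD'⟩) =
      SignType.sign ((derivative^[j + 1] p).eval y) := rfl
    have h3 : code D p y (Fin.castSucc ⟨j, hjD'⟩) =
      SignType.sign ((derivative^[j] p).eval y) := rfl
    have h4 : code D p y' (Fin.castSucc ⟨j, hjD'⟩) =
      SignType.sign ((derivative^[j] p).eval y') := rfl
    rw [h2, h3, h4]
    generalize SignType.sign ((derivative^[j + 1] p).eval y) = s at *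
    rcases s with _ | _ | _
    · have h5 := m3 rfl hyy.le
      rw [h5] at hj
      exact absurd rfl hj
    · have h5 := SignType.sign.monotone ((m2 rfl).antitoneOn hy1 hy2 hyy.le)
      change (-1 : SignType) * _ < -1 * _
      revert hj h5
      generalize SignType.sign ((derivative^[j] p).eval y) = u
      generalize SignType.sign ((derivative^[j] p).eval y') = w
      revert u w
      decide
    · have h5 := SignType.sign.monotone ((m1 rfl).monotoneOn hy1 hy2 hyy.le)
      change (1 : SignType) * _ < 1 * _
      revert hj h5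
      generalize SignType.sign ((derivative^[j] p).eval y) = u
      generalize SignType.sign ((derivative^[j] p).eval y') = w
      revert u w
      decide

end Pool.Agent.MetSard
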