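import Pool.Agent.Lib.MP_0e3b4a_gt.H14.MonoA
import Pool.Agent.Lib.MP_0e3b4a_gt.H14.THOM

/-! # The planar theorem for monic families, part B: area integrals -/

set_option autoImplicit false
set_option linter.unusedSectionVars false

namespace Pool.Agent.MetSard.Mono

open MeasureTheory Set Polynomial Filter Topology
open Pool.Agent.MetSard

variable {d : ℕ} {κ : Type} [Fintype κ]

/-- The box. -/
def Box (R : ℝ) : Set (Fin 2 → ℝ) := Icc (fun _ => -R) (fun _ => R)

theorem mem_Box (R : ℝ) (q : Fin 2 → ℝ) :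
    q ∈ Box R ↔ (-R ≤ q 0 ∧ q 0 ≤ R) ∧ (-R ≤ q 1 ∧ q 1 ≤ R) := by
  simp only [Box, mem_Icc, Pi.le_def, Fin.forall_fin_two]
  tauto

theorem Box_meas (R : ℝ) : MeasurableSet (Box R) := measurableSet_Icc

theorem Box_fin (R : ℝ) : volume (Box R) ≠ ⊤ := by
  have : IsCompact (Box R) := isCompact_Icc
  exact this.measure_lt_top.ne

/-- The base term. -/
noncomputable def bas (G : κ → MvPolynomial (Fin 2) ℝ) (R s : ℝ) : κ → ℝ := fun k =>
  MvPolynomial.eval ![s, -R] (G k) / (2 * R)

/-- The vertical derivative. -/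
noncomputable def gy (G : κ → MvPolynomial (Fin 2) ℝ) (q : Fin 2 → ℝ) : κ → ℝ := fun k =>
  MvPolynomial.eval q (MvPolynomial.pderiv 1 (G k))

theorem vec_cont (c : ℝ) : Continuous fun s : ℝ => (![s, c] : Fin 2 → ℝ) := by
  refine continuous_pi fun i => ?_
  fin_cases i
  · exact continuous_id
  · exact continuous_const

theorem bas_cont (G : κ → MvPolynomial (Fin 2) ℝ) (R : ℝ) :
    Continuous fun q : Fin 2 → ℝ => bas G R (q 0) := by
  refine continuous_pi fun k => ?_
  have h1 : Continuous fun q : Fin 2 → ℝ => MvPolynomial.eval ![q 0, -R] (G k) :=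
    (MvPolynomial.continuous_eval (G k)).comp ((vec_cont (-R)).comp (continuous_apply 0))
  exact h1.div_const _

theorem gy_cont (G : κ → MvPolynomial (Fin 2) ℝ) : Continuous (gy G) :=
  continuous_pi fun _ => MvPolynomial.continuous_eval _

open Classical in
/-- The density of the area integrals. -/
noncomputable def hh (D : ℕ) (F : (MvPolynomial (Fin d) ℝ)[X][X])
    (G : κ → MvPolynomial (Fin 2) ℝ) (R : ℝ) (τ : Fin (D + 1) → SignType) (a : Fin d → ℝ)
    (q : Fin 2 → ℝ) : κ → ℝ :=
  if q ∈ Box R then bas G R (q 0) + (if prec (cF D F a q) τ then gy G q else 0) else 0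

section

variable (D : ℕ) (F : (MvPolynomial (Fin d) ℝ)[X][X]) (G : κ → MvPolynomial (Fin 2) ℝ) (R : ℝ)

theorem hh_bound : ∃ M : ℝ, 0 ≤ M ∧ ∀ (τ : Fin (D + 1) → SignType) (a : Fin d → ℝ)
    (q : Fin 2 → ℝ), ‖hh D F G R τ a q‖ ≤ M := by
  classical
  have hc : IsCompact (Box R) := isCompact_Icc
  obtain ⟨M1, hM1⟩ := hc.exists_bound_of_continuousOn (bas_cont G R).continuousOn
  obtain ⟨M2, hM2⟩ := hc.exists_bound_of_continuousOn (gy_cont G).continuousOn
  refine ⟨max M1 0 + max M2 0, by positivity, fun τ a q => ?_⟩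
  unfold hh
  split_ifs with h1 h2
  · exact (norm_add_le _ _).trans (add_le_add ((hM1 q h1).trans (le_max_left _ _))
      ((hM2 q h1).trans (le_max_left _ _)))
  · rw [add_zero]
    exact (hM1 q h1).trans ((le_max_left _ _).trans (le_add_of_nonneg_right (le_max_right _ _)))
  · rw [norm_zero]
    positivity

theorem hh_int (τ : Fin (D + 1) → SignType) (a : Fin d → ℝ) :
    Integrable (hh D F G R τ a) := by
  classical
  have hc : IsCompact (Box R) := isCompact_Icc
  have h1 : Integrable ((Box R).indicator fun q => bas G R (q 0)) :=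
    ((bas_cont G R).continuousOn.integrableOn_compact hc).integrable_indicator (Box_meas R)
  have hm : MeasurableSet {q | cF D F a q ∈ {σ | prec σ τ}} := cF_meas D F a _
  have h2 : Integrable ((Box R ∩ {q | cF D F a q ∈ {σ | prec σ τ}}).indicator (gy G)) :=
    (((gy_cont G).continuousOn.integrableOn_compact hc).mono_set
      inter_subset_left).integrable_indicator ((Box_meas R).inter hm)
  refine (h1.add h2).congr (Eventually.of_forall fun q => ?_)
  simp only [Pi.add_apply, indicator, hh, mem_inter_iff, mem_ofPred_eq]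
  by_cases hq : q ∈ Box R
  · by_cases hp : prec (cF D F a q) τ <;> simp [hq, hp]
  · simp [hq]

theorem hh_off {τ : Fin (D + 1) → SignType} {a : Fin d → ℝ} {q : Fin 2 → ℝ} (h : q ∉ Box R) :
    hh D F G R τ a q = 0 := by
  classical
  unfold hh
  rw [if_neg h]

open Classical in
/-- The area integral to the left of `s₀`. -/
noncomputable def VA (τ : Fin (D + 1) → SignType) (a : Fin d → ℝ) (s₀ : ℝ) : κ → ℝ :=
  ∫ q : Fin 2 → ℝ, if q 0 < s₀ then hh D F G R τ a q else 0

open Classical in
/-- The area integral to the left of a root with code `θ`. -/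
noncomputable def VV (De : ℕ) (e : (MvPolynomial (Fin d) ℝ)[X]) (θ : Fin (De + 1) → SignType)
    (τ : Fin (D + 1) → SignType) (a : Fin d → ℝ) : κ → ℝ :=
  ∫ q : Fin 2 → ℝ, if prec (cE De e a (q 0)) θ then hh D F G R τ a q else 0

/-- The vertical integrals. -/
noncomputable def ps (a : Fin d → ℝ) (τ : Fin (D + 1) → SignType) (s : ℝ) : κ → ℝ :=
  ∫ y : ℝ, hh D F G R τ a ![s, y]

open Classical in
theorem ite_int (p : (Fin 2 → ℝ) → Prop) (hp : MeasurableSet {q | p q})
    (τ : Fin (D + 1) → SignType) (a : Fin d → ℝ) :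
    Integrable fun q => if p q then hh D F G R τ a q else 0 := by
  have h1 := (hh_int D F G R τ a).indicator hp
  refine h1.congr (Eventually.of_forall fun q => ?_)
  simp only [indicator, mem_ofPred_eq]

theorem ps_off {a : Fin d → ℝ} {τ : Fin (D + 1) → SignType} {s : ℝ} (h : s < -R ∨ R < s) :
    ps D F G R a τ s = 0 := by
  unfold ps
  have : (fun y : ℝ => hh D F G R τ a ![s, y]) = fun _ => 0 := by
    funext y
    refine hh_off D F G R ?_
    rw [mem_Box]
    rintro ⟨⟨h1, h2⟩, _⟩
    simp only [Matrix.cons_val_zero] at h1 h2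
    rcases h with h | h <;> linarith
  rw [this, integral_zero]

theorem ps_bound {M : ℝ} (hM : ∀ (τ : Fin (D + 1) → SignType) (a : Fin d → ℝ)
    (q : Fin 2 → ℝ), ‖hh D F G R τ a q‖ ≤ M) (hR : 0 ≤ R) (a : Fin d → ℝ)
    (τ : Fin (D + 1) → SignType) (s : ℝ) : ‖ps D F G R a τ s‖ ≤ M * (2 * R) := by
  unfold ps
  have h1 : ∫ y : ℝ, hh D F G R τ a ![s, y] =
      ∫ y in Icc (-R) R, hh D F G R τ a ![s, y] := by
    rw [setIntegral_eq_integral_of_forall_compl_eq_zero]
    intro y hy
    refine hh_off D F G R ?_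
    rw [mem_Box]
    rintro ⟨_, h1, h2⟩
    exact hy ⟨h1, h2⟩
  rw [h1]
  have h2 := norm_setIntegral_le_of_norm_le_const (μ := volume) (s := Icc (-R) R) (C := M)
    (f := fun y : ℝ => hh D F G R τ a ![s, y]) measure_Icc_lt_top fun y _ => hM τ a _
  refine h2.trans (le_of_eq ?_)
  rw [measureReal_def, Real.volume_Icc, ENNReal.toReal_ofReal (by linarith)]
  ring

theorem ps_int (a : Fin d → ℝ) (τ : Fin (D + 1) → SignType) : Integrable (ps D F G R a τ) := by
  have hmp := (volume_preserving_finTwoArrow ℝ).symm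
  have h2 : Integrable (fun p : ℝ × ℝ => hh D F G R τ a
      ((MeasurableEquiv.finTwoArrow (α := ℝ)).symm p)) :=
    (hmp.integrable_comp_emb (MeasurableEquiv.measurableEmbedding _)).2 (hh_int D F G R τ a)
  exact h2.integral_prod_left

theorem VA_eq (τ : Fin (D + 1) → SignType) (a : Fin d → ℝ) {s₀ : ℝ} (h : -R ≤ s₀) :
    ∫ s in (-R)..s₀, ps D F G R a τ s = VA D F G R τ a s₀ := by
  classical
  unfold VA
  rw [fub _ (ite_int D F G R (fun q => q 0 < s₀)
    (measurableSet_lt (measurable_pi_apply 0) measurable_const) τ a),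
    intervalIntegral.integral_of_le h, ← integral_indicator measurableSet_Ioc]
  refine integral_congr_ae ?_
  have h1 : ∀ᵐ s : ℝ, s ≠ -R := measure_eq_zero_iff_ae_notMem.1 (measure_singleton (-R))
  have h2 : ∀ᵐ s : ℝ, s ≠ s₀ := measure_eq_zero_iff_ae_notMem.1 (measure_singleton s₀)
  filter_upwards [h1, h2] with s hs1 hs2
  simp only [Matrix.cons_val_zero]
  by_cases hs : s < s₀
  · simp only [hs, if_true]
    by_cases hs3 : -R < s
    · have hmem : s ∈ Ioc (-R) s₀ := ⟨hs3, hs.le⟩
      rw [indicator_of_mem hmem]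
      rfl
    · rw [indicator_of_notMem (fun h => hs3 h.1)]
      have hs4 : s < -R := lt_of_le_of_ne (not_lt.1 hs3) hs1
      exact (ps_off D F G R (Or.inl hs4)).symm
  · simp only [hs, if_false, integral_zero]
    rw [indicator_of_notMem]
    rintro ⟨_, h4⟩
    exact hs (lt_of_le_of_ne h4 hs2)

theorem VA_lip {M : ℝ} (hM : ∀ (τ : Fin (D + 1) → SignType) (a : Fin d → ℝ)
    (q : Fin 2 → ℝ), ‖hh D F G R τ a q‖ ≤ M) (hR : 0 ≤ R) (τ : Fin (D + 1) → SignType)
    (a : Fin d → ℝ) {s s' : ℝ} (h : -R ≤ s) (h' : -R ≤ s') :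
    ‖VA D F G R τ a s - VA D F G R τ a s'‖ ≤ M * (2 * R) * |s - s'| := by
  rw [← VA_eq D F G R τ a h, ← VA_eq D F G R τ a h']
  have hi : ∀ b c : ℝ, IntervalIntegrable (ps D F G R a τ) volume b c := fun b c =>
    (ps_int D F G R a τ).intervalIntegrable
  rw [intervalIntegral.integral_interval_sub_left (hi _ _) (hi _ _)]
  exact intervalIntegral.norm_integral_le_of_norm_le_const fun x _ =>
    ps_bound D F G R hM hR a τ x

theorem VA_dis {M : ℝ} (hM : ∀ (τ : Fin (D + 1) → SignType) (a : Fin d → ℝ)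
    (q : Fin 2 → ℝ), ‖hh D F G R τ a q‖ ≤ M) (hM0 : 0 ≤ M) (τ : Fin (D + 1) → SignType)
    (a a' : Fin d → ℝ) (s : ℝ) (S : Set (Fin 2 → ℝ)) (hS : volume S ≠ ⊤)
    (h : ∀ q ∈ Box R, q ∉ S → cF D F a q = cF D F a' q) :
    ‖VA D F G R τ a s - VA D F G R τ a' s‖ ≤ 2 * M * (volume S).toReal := by
  classical
  have hm : MeasurableSet {q : Fin 2 → ℝ | q 0 < s} :=
    measurableSet_lt (measurable_pi_apply 0) measurable_const
  refine lip_dis _ _ (ite_int D F G R (fun q => q 0 < s) hm τ a)
    (ite_int D F G R (fun q => q 0 < s) hm τ a') S hS M (fun q => ?_) (fun q => ?_)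
    (fun q hq => ?_)
  · split_ifs
    · exact hM _ _ _
    · rwa [norm_zero]
  · split_ifs
    · exact hM _ _ _
    · rwa [norm_zero]
  · by_cases hB : q ∈ Box R
    · unfold hh
      rw [h q hB hq]
    · rw [hh_off D F G R hB, hh_off D F G R hB]

theorem VV_dis {M : ℝ} (hM : ∀ (τ : Fin (D + 1) → SignType) (a : Fin d → ℝ)
    (q : Fin 2 → ℝ), ‖hh D F G R τ a q‖ ≤ M) (hM0 : 0 ≤ M) (De : ℕ)
    (e : (MvPolynomial (Fin d) ℝ)[X]) (θ : Fin (De + 1) → SignType)
    (τ : Fin (D + 1) → SignType) (a a' : Fin d → ℝ) (S : Set (Fin 2 → ℝ)) (hS : volume S ≠ ⊤)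
    (h : ∀ q ∈ Box R, q ∉ S → cF D F a q = cF D F a' q ∧
      cE De e a (q 0) = cE De e a' (q 0)) :
    ‖VV D F G R De e θ τ a - VV D F G R De e θ τ a'‖ ≤ 2 * M * (volume S).toReal := by
  classical
  have hm : ∀ a : Fin d → ℝ, MeasurableSet {q : Fin 2 → ℝ | prec (cE De e a (q 0)) θ} :=
    fun a => cE_meas De e a {σ | prec σ θ}
  refine lip_dis _ _ (ite_int D F G R (fun q => prec (cE De e a (q 0)) θ) (hm a) τ a)
    (ite_int D F G R (fun q => prec (cE De e a' (q 0)) θ) (hm a') τ a') S hS M (fun q => ?_)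
    (fun q => ?_) (fun q hq => ?_)
  · split_ifs
    · exact hM _ _ _
    · rwa [norm_zero]
  · split_ifs
    · exact hM _ _ _
    · rwa [norm_zero]
  · by_cases hB : q ∈ Box R
    · unfold hh
      rw [(h q hB hq).1, (h q hB hq).2]
    · rw [hh_off D F G R hB, hh_off D F G R hB]
      simp

/-- At the roots the two area integrals agree. -/
theorem VV_eq (De : ℕ) (e : (MvPolynomial (Fin d) ℝ)[X]) (hDe : e.natDegree ≤ De)
    (a : Fin d → ℝ) (he : e.map (MvPolynomial.eval a) ≠ 0) (b : ℝ)
    (hb : (e.map (MvPolynomial.eval a)).eval b = 0) (τ : Fin (D + 1) → SignType) :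
    VV D F G R De e (cE De e a b) τ a = VA D F G R τ a b := by
  classical
  unfold VV VA
  congr 1
  funext q
  have h1 : (e.map (MvPolynomial.eval a)).natDegree ≤ De :=
    (Polynomial.natDegree_map_le).trans hDe
  have h2 := thom De _ he h1 (q 0) b hb
  have h3 : prec (cE De e a (q 0)) (cE De e a b) ↔ q 0 < b := h2
  simp only [h3]

/-- On the curve the vertical integrals are the given function. -/
theorem ps_eq (hF : F.Monic) (hD : F.natDegree ≤ D) (a : Fin d → ℝ) (hR : 0 < R) (s y' : ℝ)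
    (hs : s ∈ Icc (-R) R) (hy : y' ∈ Icc (-R) R) (h0 : (sp F a).evalEval s y' = 0) :
    ps D F G R a (cF D F a ![s, y']) s = fun k => MvPolynomial.eval ![s, y'] (G k) := by
  classical
  have hmon : ((sp F a).map (evalRingHom s)).Monic := (hF.map _).map _
  have hdeg : ((sp F a).map (evalRingHom s)).natDegree ≤ D :=
    (Polynomial.natDegree_map_le.trans Polynomial.natDegree_map_le).trans hD
  have hroot : ((sp F a).map (evalRingHom s)).eval y' = 0 := by
    rw [map_evalRingHom_eval]
    exact h0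
  have hth : ∀ y, prec (cF D F a ![s, y]) (cF D F a ![s, y']) ↔ y < y' := fun y =>
    thom D _ hmon.ne_zero hdeg y y' hroot
  have e1 : (fun y : ℝ => hh D F G R (cF D F a ![s, y']) a ![s, y]) =
      fun y => (Icc (-R) R).indicator (fun _ => bas G R s) y +
        (Ico (-R) y').indicator (fun y => gy G ![s, y]) y := by
    funext y
    unfold hh
    rw [hth y]
    by_cases hyR : y ∈ Icc (-R) R
    · have hB : ![s, y] ∈ Box R := by
        rw [mem_Box]
        exact ⟨hs, hyR⟩
      rw [if_pos hB, indicator_of_mem hyR]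
      by_cases hlt : y < y'
      · have hmem : y ∈ Ico (-R) y' := ⟨hyR.1, hlt⟩
        rw [if_pos hlt, indicator_of_mem hmem]
        rfl
      · rw [if_neg hlt, indicator_of_notMem fun h => hlt h.2]
        rfl
    · have hB : ![s, y] ∉ Box R := by
        rw [mem_Box]
        rintro ⟨_, h⟩
        exact hyR h
      rw [if_neg hB, indicator_of_notMem hyR, indicator_of_notMem, add_zero]
      rintro ⟨h1, h2⟩
      exact hyR ⟨h1, h2.le.trans hy.2⟩
  have hgc : Continuous fun y : ℝ => gy G ![s, y] := by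
    refine (gy_cont G).comp ?_
    refine continuous_pi fun i => ?_
    fin_cases i
    · exact continuous_const
    · exact continuous_id
  have hi1 : Integrable ((Icc (-R) R).indicator (fun _ : ℝ => bas G R s)) :=
    (integrableOn_const (by exact measure_Icc_lt_top.ne)).integrable_indicator measurableSet_Icc
  have hi2 : Integrable ((Ico (-R) y').indicator (fun y : ℝ => gy G ![s, y])) :=
    ((hgc.continuousOn.integrableOn_Icc).mono_set Ico_subset_Icc_self).integrable_indicator
      measurableSet_Ico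
  unfold ps
  rw [e1, integral_add hi1 hi2, integral_indicator measurableSet_Icc,
    integral_indicator measurableSet_Ico, setIntegral_const, integral_Ico_eq_integral_Ioc,
    ← intervalIntegral.integral_of_le hy.1]
  have hftc : ∫ y in (-R)..y', gy G ![s, y] =
      (fun k => MvPolynomial.eval ![s, y'] (G k)) - fun k => MvPolynomial.eval ![s, -R] (G k) := by
    refine intervalIntegral.integral_eq_sub_of_hasDerivAt
      (f := fun y k => MvPolynomial.eval ![s, y] (G k)) (fun y _ => ?_)
      (hgc.intervalIntegrable _ _)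
    exact hasDerivAt_pi.2 fun k => hasDeriv1 (G k) s y
  rw [hftc]
  funext k
  simp only [Pi.add_apply, Pi.sub_apply, Pi.smul_apply, bas, smul_eq_mul]
  rw [measureReal_def, Real.volume_Icc, ENNReal.toReal_ofReal (by linarith)]
  field_simp
  ring

end

end Pool.Agent.MetSard.Mono
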