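import Mathlib

/-! # Module PATH: line integrals along paths in a planar curve

`T - A` is locally constant modulo the group generated by the integrals up to the points of `Λ`.
The change of variables for absolutely continuous `x` is proved by approximation of `u` in `L¹`;
near a point of `Λ` the integrands are cut off and the cutoff is removed by dominated
convergence (`u = 0` almost everywhere on level sets of `x`). -/

set_option autoImplicit false

namespace Pool.Agent.MetSard

open MeasureTheory Set Filter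
open scoped Topology

namespace PATH

/-- Change of variables for an absolutely continuous `x` and a continuous `g`. -/
lemma cv {E : Type} [NormedAddCommGroup E] [NormedSpace ℝ E] [CompleteSpace E]
    (x u : ℝ → ℝ) (hu : Integrable u) (x₀ : ℝ) (hx : ∀ t, x t = x₀ + ∫ s in (0 : ℝ)..t, u s)
    (g : ℝ → E) (hg : Continuous g) (a b : ℝ) :
    ∫ t in a..b, u t • g (x t) = ∫ s in x a..x b, g s := by
  have hv : ∀ n : ℕ, ∃ v : ℝ → ℝ, (∫ t, ‖u t - v t‖) ≤ 1 / ((n : ℝ) + 1) ∧ Continuous v ∧
      Integrable v := fun n => by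
    obtain ⟨v, _, h1, h2, h3⟩ := hu.exists_hasCompactSupport_integral_sub_le
      (ε := 1 / ((n : ℝ) + 1)) (by positivity)
    exact ⟨v, h1, h2, h3⟩
  choose v hv1 hv2 hv3 using hv
  let X : ℕ → ℝ → ℝ := fun n t => x₀ + ∫ s in (0 : ℝ)..t, v n s
  have hXd : ∀ n t, HasDerivAt (X n) (v n t) t := fun n t =>
    ((hv2 n).integral_hasStrictDerivAt 0 t).hasDerivAt.const_add x₀
  have hXc : ∀ n, Continuous (X n) := fun n =>
    continuous_iff_continuousAt.2 fun t => (hXd n t).continuousAt
  have hxc : Continuous x := by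
    have : x = fun t => x₀ + ∫ s in (0 : ℝ)..t, u s := funext hx
    rw [this]
    exact continuous_const.add
      (intervalIntegral.continuous_primitive (fun a b => hu.intervalIntegrable) 0)
  have hdist : ∀ n t, ‖X n t - x t‖ ≤ 1 / ((n : ℝ) + 1) := by
    intro n t
    rw [hx t]
    simp only [X]
    rw [add_sub_add_left_eq_sub, ← intervalIntegral.integral_sub
      (hv3 n).intervalIntegrable hu.intervalIntegrable]
    refine (intervalIntegral.norm_integral_le_integral_norm_uIoc).trans ?_
    refine le_trans ?_ (hv1 n)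
    have : ∀ s, ‖v n s - u s‖ = ‖u s - v n s‖ := fun s => norm_sub_rev _ _
    simp only [this]
    exact setIntegral_le_integral (hu.sub (hv3 n)).norm
      (Eventually.of_forall fun s => norm_nonneg _)
  have hXt : ∀ t, Tendsto (fun n => X n t) atTop (𝓝 (x t)) := by
    intro t
    rw [tendsto_iff_norm_sub_tendsto_zero]
    exact squeeze_zero (fun n => norm_nonneg _) (fun n => hdist n t)
      tendsto_one_div_add_atTop_nhds_zero_nat
  have heq : ∀ n, ∫ t in a..b, v n t • g (X n t) = ∫ s in X n a..X n b, g s := fun n =>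
    intervalIntegral.integral_deriv_smul_comp (fun t _ => hXd n t) (hv2 n).continuousOn hg
  -- right hand side
  have hprim : Continuous fun p : ℝ × ℝ => ∫ s in p.1..p.2, g s := by
    have : (fun p : ℝ × ℝ => ∫ s in p.1..p.2, g s) =
        fun p : ℝ × ℝ => (∫ s in (0 : ℝ)..p.2, g s) - ∫ s in (0 : ℝ)..p.1, g s := by
      ext p
      rw [intervalIntegral.integral_interval_sub_left (hg.intervalIntegrable _ _)
        (hg.intervalIntegrable _ _)]
    rw [this]
    have h := intervalIntegral.continuous_primitive (fun a b => hg.intervalIntegrable a b) 0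
      (μ := volume)
    exact (h.comp continuous_snd).sub (h.comp continuous_fst)
  have hR : Tendsto (fun n => ∫ s in X n a..X n b, g s) atTop (𝓝 (∫ s in x a..x b, g s)) :=
    (hprim.tendsto (x a, x b)).comp ((hXt a).prodMk_nhds (hXt b))
  -- a bound for `g`
  have hcpt : IsCompact (Metric.cthickening 1 (x '' uIcc a b)) :=
    ((isCompact_uIcc.image hxc).cthickening)
  obtain ⟨G, hG⟩ := hcpt.exists_bound_of_continuousOn hg.continuousOn
  have hmem : ∀ n, ∀ t ∈ uIcc a b, X n t ∈ Metric.cthickening 1 (x '' uIcc a b) := by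
    intro n t ht
    refine Metric.mem_cthickening_of_dist_le _ (x t) _ _ (mem_image_of_mem x ht) ?_
    rw [dist_eq_norm]
    refine (hdist n t).trans ?_
    rw [div_le_one (by positivity)]
    have : (0 : ℝ) ≤ n := Nat.cast_nonneg n
    linarith
  have hG0 : 0 ≤ G := (norm_nonneg _).trans (hG _ (hmem 0 a left_mem_uIcc))
  have hint : ∀ n (f : ℝ → ℝ), Integrable f → IntervalIntegrable (fun t => f t • g (X n t))
      volume a b := fun n f hf =>
    hf.intervalIntegrable.smul_continuousOn (hg.comp (hXc n)).continuousOn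
  have hL1 : Tendsto (fun n => ∫ t in a..b, (v n t - u t) • g (X n t)) atTop (𝓝 0) := by
    rw [tendsto_zero_iff_norm_tendsto_zero]
    have hb : ∀ n, ‖∫ t in a..b, (v n t - u t) • g (X n t)‖ ≤ G * (1 / ((n : ℝ) + 1)) := by
      intro n
      refine (intervalIntegral.norm_integral_le_integral_norm_uIoc).trans ?_
      calc ∫ t in uIoc a b, ‖(v n t - u t) • g (X n t)‖
          ≤ ∫ t in uIoc a b, G * ‖u t - v n t‖ := by
            refine setIntegral_mono_on ?_ ?_ measurableSet_uIoc ?_
            · exact (intervalIntegrable_iff.1 (hint n _ ((hv3 n).sub hu))).norm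
            · exact ((hu.sub (hv3 n)).norm.const_mul G).integrableOn
            · intro t ht
              rw [norm_smul, norm_sub_rev, mul_comm]
              exact mul_le_mul_of_nonneg_right (hG _ (hmem n t (uIoc_subset_uIcc ht)))
                (norm_nonneg _)
        _ ≤ ∫ t, G * ‖u t - v n t‖ :=
            setIntegral_le_integral ((hu.sub (hv3 n)).norm.const_mul G)
              (Eventually.of_forall fun s => mul_nonneg hG0 (norm_nonneg _))
        _ = G * ∫ t, ‖u t - v n t‖ := integral_const_mul _ _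
        _ ≤ G * (1 / ((n : ℝ) + 1)) := mul_le_mul_of_nonneg_left (hv1 n) hG0
    refine squeeze_zero (fun n => norm_nonneg _) hb ?_
    have := (tendsto_one_div_add_atTop_nhds_zero_nat (𝕜 := ℝ)).const_mul G
    rwa [mul_zero] at this
  have hL2 : Tendsto (fun n => ∫ t in a..b, u t • g (X n t)) atTop
      (𝓝 (∫ t in a..b, u t • g (x t))) := by
    refine intervalIntegral.tendsto_integral_filter_of_dominated_convergence
      (fun t => ‖u t‖ * G) ?_ ?_ ?_ ?_
    · exact Eventually.of_forall fun n => (intervalIntegrable_iff.1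
        (hint n u hu)).aestronglyMeasurable
    · refine Eventually.of_forall fun n => Eventually.of_forall fun t ht => ?_
      rw [norm_smul]
      exact mul_le_mul_of_nonneg_left (hG _ (hmem n t (uIoc_subset_uIcc ht))) (norm_nonneg _)
    · exact (hu.norm.mul_const G).intervalIntegrable
    · refine Eventually.of_forall fun t _ => ?_
      exact ((hg.tendsto _).comp (hXt t)).const_smul (u t)
  have hL : Tendsto (fun n => ∫ t in a..b, v n t • g (X n t)) atTop
      (𝓝 (∫ t in a..b, u t • g (x t))) := by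
    have := hL1.add hL2
    rw [zero_add] at this
    refine this.congr fun n => ?_
    have h1 : IntervalIntegrable (fun t => (v n t - u t) • g (X n t)) volume a b :=
      hint n (fun t => v n t - u t) ((hv3 n).sub hu)
    rw [← intervalIntegral.integral_add h1 (hint n u hu)]
    refine intervalIntegral.integral_congr fun t _ => ?_
    rw [← add_smul, sub_add_cancel]
  exact tendsto_nhds_unique (hL.congr heq) hR

/-- `u` vanishes almost everywhere on the level sets of `x`. -/
lemma level (x u : ℝ → ℝ) (hu : Integrable u) (x₀ : ℝ)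
    (hx : ∀ t, x t = x₀ + ∫ s in (0 : ℝ)..t, u s) (b : ℝ) :
    ∀ᵐ t, x t = b → u t = 0 := by
  have hxc : Continuous x := by
    have : x = fun t => x₀ + ∫ s in (0 : ℝ)..t, u s := funext hx
    rw [this]
    exact continuous_const.add
      (intervalIntegral.continuous_primitive (fun a b => hu.intervalIntegrable) 0)
  let g : ℕ → ℝ → ℝ := fun n s => max 0 (1 - n * |s - b|)
  have hgc : ∀ n, Continuous (g n) := fun n => by fun_prop
  have hg0 : ∀ n s, 0 ≤ g n s := fun n s => le_max_left _ _
  have hg1 : ∀ n s, g n s ≤ 1 := fun n s => by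
    simp only [g]
    refine max_le zero_le_one ?_
    have : (0 : ℝ) ≤ n * |s - b| := by positivity
    linarith
  have hgt : ∀ s, Tendsto (fun n => g n s) atTop (𝓝 (if s = b then 1 else 0)) := by
    intro s
    split_ifs with h
    · refine tendsto_const_nhds.congr fun n => ?_
      simp [g, h]
    · have hpos : 0 < |s - b| := abs_pos.2 (sub_ne_zero.2 h)
      refine tendsto_const_nhds.congr' ?_
      obtain ⟨N, hN⟩ := exists_nat_ge (1 / |s - b|)
      filter_upwards [eventually_ge_atTop N] with n hn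
      simp only [g]
      symm
      refine max_eq_left ?_
      have : (N : ℝ) ≤ n := by exact_mod_cast hn
      have h2 : 1 ≤ (n : ℝ) * |s - b| := by
        rw [div_le_iff₀ hpos] at hN
        exact hN.trans (mul_le_mul_of_nonneg_right this hpos.le)
      linarith
  let f : ℝ → ℝ := fun t => u t * (if x t = b then 1 else 0)
  have hmeas : Measurable fun t => (if x t = b then (1 : ℝ) else 0) := by
    refine Measurable.ite ?_ measurable_const measurable_const
    exact (isClosed_eq hxc continuous_const).measurableSet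
  have hf : Integrable f := by
    refine hu.mono (hu.aestronglyMeasurable.mul hmeas.aestronglyMeasurable)
      (Eventually.of_forall fun t => ?_)
    simp only [f]
    split_ifs <;> simp
  have hzero : ∀ c t, ∫ s in c..t, f s = 0 := by
    intro c t
    have h1 : Tendsto (fun n => ∫ s in c..t, u s • g n (x s)) atTop (𝓝 (∫ s in c..t, f s)) := by
      refine intervalIntegral.tendsto_integral_filter_of_dominated_convergence
        (fun s => ‖u s‖) ?_ ?_ ?_ ?_
      · exact Eventually.of_forall fun n => (hu.aestronglyMeasurable.smul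
          ((hgc n).comp hxc).aestronglyMeasurable).restrict
      · refine Eventually.of_forall fun n => Eventually.of_forall fun s _ => ?_
        rw [norm_smul, Real.norm_of_nonneg (hg0 n _)]
        exact mul_le_of_le_one_right (norm_nonneg _) (hg1 n _)
      · exact hu.norm.intervalIntegrable
      · exact Eventually.of_forall fun s _ => (hgt (x s)).const_mul (u s)
    have h2 : Tendsto (fun n => ∫ s in x c..x t, g n s) atTop
        (𝓝 (∫ s in x c..x t, if s = b then (1 : ℝ) else 0)) := by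
      refine intervalIntegral.tendsto_integral_filter_of_dominated_convergence
        (fun s => 1) ?_ ?_ ?_ ?_
      · exact Eventually.of_forall fun n => (hgc n).aestronglyMeasurable.restrict
      · refine Eventually.of_forall fun n => Eventually.of_forall fun s _ => ?_
        rw [Real.norm_of_nonneg (hg0 n _)]
        exact hg1 n _
      · exact intervalIntegrable_const
      · exact Eventually.of_forall fun s _ => hgt s
    have h3 : (∫ s in x c..x t, if s = b then (1 : ℝ) else 0) = 0 := by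
      rw [intervalIntegral.integral_congr_ae (g := fun _ => (0 : ℝ))]
      · simp
      · have : ∀ᵐ s : ℝ, s ≠ b := by simp [ae_iff, measure_singleton]
        filter_upwards [this] with s hs _
        simp [hs]
    rw [h3] at h2
    refine tendsto_nhds_unique h1 (h2.congr fun n => ?_)
    rw [cv x u hu x₀ hx (g n) (hgc n) c t]
  have hd := LocallyIntegrable.ae_hasDerivAt_integral hf.locallyIntegrable
  filter_upwards [hd] with t ht hxt
  have h1 := ht 0
  have h2 : (fun x => ∫ s in (0 : ℝ)..x, f s) = fun _ => 0 := by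
    ext t
    exact hzero 0 t
  rw [h2] at h1
  have h3 := h1.unique (hasDerivAt_const t (0 : ℝ))
  simpa [f, hxt] using h3

/-- A locally constant function on an interval is constant. -/
lemma const_of_local {V : Type} (f : ℝ → V) (a b : ℝ) (hab : a ≤ b)
    (h : ∀ t₀ ∈ Icc a b, ∃ δ > 0, ∀ t ∈ Icc a b, |t - t₀| < δ → f t = f t₀) : f b = f a := by
  have hc : IsLocallyConstant (fun t : Icc a b => f t) := by
    rw [IsLocallyConstant.iff_eventually_eq]
    intro t₀
    obtain ⟨δ, hδ, h1⟩ := h t₀ t₀.2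
    filter_upwards [Metric.ball_mem_nhds t₀ hδ] with t ht
    exact h1 t t.2 (by rw [← Real.dist_eq]; exact ht)
  have : PreconnectedSpace (Icc a b) := Subtype.preconnectedSpace isPreconnected_Icc
  exact hc.apply_eq_of_preconnectedSpace (⟨b, right_mem_Icc.2 hab⟩ : Icc a b)
    ⟨a, left_mem_Icc.2 hab⟩

/-- A piece on which the code is constant. -/
lemma piece {E : Type} [NormedAddCommGroup E] [NormedSpace ℝ E] [CompleteSpace E]
    (x u : ℝ → ℝ) (hu : Integrable u) (x₀ : ℝ) (hx : ∀ t, x t = x₀ + ∫ s in (0 : ℝ)..t, u s)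
    (hxc : Continuous x) (a b : ℝ) (hab : a ≤ b) (h : ℝ → E) (hh : ContinuousOn h (Icc a b))
    (ψ : ℝ → E) (hψ : ∀ t ∈ Icc a b, ψ (x t) = h t) (φ : ℝ → ℝ) (hφ : Continuous φ) :
    ∫ t in a..b, u t • (φ (x t) • h t) = ∫ s in x a..x b, φ s • ψ s := by
  have himg : x '' Icc a b = Icc (sInf (x '' Icc a b)) (sSup (x '' Icc a b)) :=
    hxc.continuousOn.image_Icc hab
  set α := sInf (x '' Icc a b)
  set β := sSup (x '' Icc a b)
  have hmaps : ∀ t ∈ Icc a b, x t ∈ Icc α β := fun t ht => himg ▸ mem_image_of_mem x ht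
  have hαβ : α ≤ β := (hmaps a (left_mem_Icc.2 hab)).1.trans (hmaps a (left_mem_Icc.2 hab)).2
  -- `ψ` is continuous on `[α, β]`
  have hψc : Continuous (fun s : Icc α β => ψ s) := by
    let π : Icc a b → Icc α β := fun t => ⟨x t, hmaps t t.2⟩
    have hπc : Continuous π := (hxc.comp continuous_subtype_val).subtype_mk _
    have hπs : Function.Surjective π := by
      rintro ⟨s, hs⟩
      rw [← himg] at hs
      obtain ⟨t, ht, rfl⟩ := hs
      exact ⟨⟨t, ht⟩, rfl⟩
    have hq : Topology.IsQuotientMap π := hπc.isClosedMap.isQuotientMap hπc hπs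
    rw [hq.continuous_iff]
    have : ((fun s : Icc α β => ψ s) ∘ π) = fun t : Icc a b => h t := by
      ext t
      exact hψ t t.2
    rw [this]
    exact continuousOn_iff_continuous_domRestrict.1 hh
  have hg : Continuous (IccExtend hαβ (fun s : Icc α β => ψ s)) := hψc.Icc_extend'
  set g := IccExtend hαβ (fun s : Icc α β => ψ s) with hgdef
  have hgψ : ∀ s ∈ Icc α β, g s = ψ s := fun s hs => IccExtend_of_mem hαβ _ hs
  have hcv := cv x u hu x₀ hx (fun s => φ s • g s) (hφ.smul hg) a b
  have e1 : ∫ t in a..b, u t • (φ (x t) • h t) = ∫ t in a..b, u t • (φ (x t) • g (x t)) := by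
    refine intervalIntegral.integral_congr fun t ht => ?_
    rw [uIcc_of_le hab] at ht
    rw [hgψ _ (hmaps t ht), hψ t ht]
  have e2 : ∫ s in x a..x b, φ s • ψ s = ∫ s in x a..x b, φ s • g s := by
    refine intervalIntegral.integral_congr fun s hs => ?_
    have hs' : s ∈ Icc α β := by
      have h1 := hmaps a (left_mem_Icc.2 hab)
      have h2 := hmaps b (right_mem_Icc.2 hab)
      exact (ordConnected_Icc.uIcc_subset h1 h2) hs
    rw [hgψ s hs']
  rw [e1, e2]
  exact hcv

/-- The same for any orientation. -/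
lemma piece' {E : Type} [NormedAddCommGroup E] [NormedSpace ℝ E] [CompleteSpace E]
    (x u : ℝ → ℝ) (hu : Integrable u) (x₀ : ℝ) (hx : ∀ t, x t = x₀ + ∫ s in (0 : ℝ)..t, u s)
    (hxc : Continuous x) (a b : ℝ) (h : ℝ → E) (hh : ContinuousOn h (uIcc a b))
    (ψ : ℝ → E) (hψ : ∀ t ∈ uIcc a b, ψ (x t) = h t) (φ : ℝ → ℝ) (hφ : Continuous φ) :
    ∫ t in a..b, u t • (φ (x t) • h t) = ∫ s in x a..x b, φ s • ψ s := by
  rcases le_total a b with hab | hab
  · rw [uIcc_of_le hab] at hh hψ
    exact piece x u hu x₀ hx hxc a b hab h hh ψ hψ φ hφ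
  · rw [uIcc_of_ge hab] at hh hψ
    rw [intervalIntegral.integral_symm, intervalIntegral.integral_symm (x b) (x a),
      piece x u hu x₀ hx hxc b a hab h hh ψ hψ φ hφ]

/-- The cutoff functions. -/
noncomputable def cut (b₀ : ℝ) (n : ℕ) (s : ℝ) : ℝ := max 0 (min 1 (((n : ℝ) + 1) * |s - b₀| - 1))

lemma cut_cont (b₀ : ℝ) (n : ℕ) : Continuous (cut b₀ n) := by
  unfold cut
  fun_prop

lemma cut_nonneg (b₀ : ℝ) (n : ℕ) (s : ℝ) : 0 ≤ cut b₀ n s := le_max_left _ _

lemma cut_le_one (b₀ : ℝ) (n : ℕ) (s : ℝ) : cut b₀ n s ≤ 1 :=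
  max_le zero_le_one (min_le_left _ _)

lemma cut_zero (b₀ : ℝ) (n : ℕ) (s : ℝ) (hs : |s - b₀| < 1 / ((n : ℝ) + 1)) : cut b₀ n s = 0 := by
  unfold cut
  refine max_eq_left ((min_le_right _ _).trans ?_)
  have h0 : (0 : ℝ) < (n : ℝ) + 1 := by positivity
  rw [lt_div_iff₀ h0] at hs
  linarith

lemma cut_tendsto (b₀ s : ℝ) (hs : s ≠ b₀) : Tendsto (fun n => cut b₀ n s) atTop (𝓝 1) := by
  have hpos : 0 < |s - b₀| := abs_pos.2 (sub_ne_zero.2 hs)
  refine tendsto_const_nhds.congr' ?_
  obtain ⟨N, hN⟩ := exists_nat_ge (2 / |s - b₀|)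
  filter_upwards [eventually_ge_atTop N] with n hn
  have h1 : (N : ℝ) ≤ n := by exact_mod_cast hn
  have h2 : 2 ≤ ((n : ℝ) + 1) * |s - b₀| := by
    rw [div_le_iff₀ hpos] at hN
    nlinarith
  unfold cut
  rw [min_eq_left (by linarith), max_eq_right zero_le_one]

/-- The line integral on a piece on which `x` meets `Λ` at most in `b₀`. -/
lemma local_piece {E : Type} [NormedAddCommGroup E] [NormedSpace ℝ E] [CompleteSpace E]
    {K : Type} (x y u : ℝ → ℝ) (hu : Integrable u) (x₀ : ℝ)
    (hx : ∀ t, x t = x₀ + ∫ s in (0 : ℝ)..t, u s) (hxc : Continuous x) (a b : ℝ) (hab : a ≤ b)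
    (hy : ContinuousOn y (Icc a b)) (Z : Set (ℝ × ℝ)) (hZ : ∀ t ∈ Icc a b, (x t, y t) ∈ Z)
    (c : ℝ × ℝ → K) (Λ : Set ℝ)
    (hloc : ∀ q ∈ Z, q.1 ∉ Λ → ∀ᶠ q' in nhds q, q' ∈ Z → c q' = c q)
    (ψ : K → ℝ → E) (hψi : ∀ τ a b, IntervalIntegrable (ψ τ) volume a b)
    (G : ℝ × ℝ → E) (hG : Continuous G) (hψG : ∀ q ∈ Z, ψ (c q) q.1 = G q)
    (b₀ : ℝ) (hb : ∀ t ∈ Icc a b, x t ∈ Λ → x t = b₀) :
    ∫ t in a..b, u t • G (x t, y t) =
      (∫ s in b₀..x b, ψ (c (x b, y b)) s) - ∫ s in b₀..x a, ψ (c (x a, y a)) s := by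
  have hGc : ContinuousOn (fun t => G (x t, y t)) (Icc a b) :=
    hG.comp_continuousOn (hxc.continuousOn.prodMk hy)
  have hui : uIcc a b = Icc a b := uIcc_of_le hab
  -- the identity with cutoff
  have key : ∀ n, ∫ t in a..b, u t • (cut b₀ n (x t) • G (x t, y t)) =
      (∫ s in b₀..x b, cut b₀ n s • ψ (c (x b, y b)) s) -
        ∫ s in b₀..x a, cut b₀ n s • ψ (c (x a, y a)) s := by
    intro n
    have hII : ∀ a' ∈ Icc a b, ∀ b' ∈ Icc a b, IntervalIntegrable
        (fun t => u t • (cut b₀ n (x t) • G (x t, y t))) volume a' b' := by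
      intro a' ha' b' hb'
      have hsub : uIcc a' b' ⊆ Icc a b := ordConnected_Icc.uIcc_subset ha' hb'
      exact hu.intervalIntegrable.smul_continuousOn
        ((((cut_cont b₀ n).comp hxc).continuousOn.smul hGc).mono hsub)
    have hψI : ∀ τ a' b', IntervalIntegrable (fun s => cut b₀ n s • ψ τ s) volume a' b' :=
      fun τ a' b' => (hψi τ a' b').continuousOn_smul (cut_cont b₀ n).continuousOn
    have hc := const_of_local (fun t => (∫ s in a..t, u s • (cut b₀ n (x s) • G (x s, y s))) -
      ∫ s in b₀..x t, cut b₀ n s • ψ (c (x t, y t)) s) a b hab ?_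
    · simp only [intervalIntegral.integral_same, zero_sub] at hc
      rw [sub_eq_iff_eq_add] at hc
      rw [hc]
      abel
    · intro t₀ ht₀
      by_cases h0 : x t₀ = b₀
      · have hpos : (0 : ℝ) < 1 / ((n : ℝ) + 1) := by positivity
        obtain ⟨δ, hδ, hδ'⟩ := Metric.continuousAt_iff.1 (hxc.continuousAt (x := t₀)) _ hpos
        refine ⟨δ, hδ, fun t ht htt => ?_⟩
        have hz : ∀ s ∈ uIcc t₀ t, cut b₀ n (x s) = 0 := by
          intro s hs
          refine cut_zero _ _ _ ?_
          have h1 : |s - t₀| ≤ |t - t₀| := abs_sub_left_of_mem_uIcc hs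
          have h2 := hδ' (x := s) (by rw [Real.dist_eq]; exact h1.trans_lt htt)
          rwa [Real.dist_eq, h0] at h2
        have hxt : |x t - b₀| < 1 / ((n : ℝ) + 1) := by
          have h2 := hδ' (x := t) (by rw [Real.dist_eq]; exact htt)
          rwa [Real.dist_eq, h0] at h2
        have e1 : ∫ s in b₀..x t, cut b₀ n s • ψ (c (x t, y t)) s = 0 := by
          rw [intervalIntegral.integral_congr (g := fun _ => (0 : E))]
          · simp
          · intro s hs
            have h1 : |s - b₀| ≤ |x t - b₀| := abs_sub_left_of_mem_uIcc hs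
            simp only
            rw [cut_zero _ _ _ (h1.trans_lt hxt), zero_smul]
        have e2 : ∫ s in b₀..x t₀, cut b₀ n s • ψ (c (x t₀, y t₀)) s = 0 := by
          rw [h0, intervalIntegral.integral_same]
        have e3 : ∫ s in t₀..t, u s • (cut b₀ n (x s) • G (x s, y s)) = 0 := by
          rw [intervalIntegral.integral_congr (g := fun _ => (0 : E))]
          · simp
          · intro s hs
            simp only
            rw [hz s hs, zero_smul, smul_zero]
        have e4 := intervalIntegral.integral_add_adjacent_intervals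
          (hII a (left_mem_Icc.2 hab) t₀ ht₀) (hII t₀ ht₀ t ht)
        rw [e1, e2, ← e4, e3, add_zero]
      · have hnot : x t₀ ∉ Λ := fun h => h0 (hb t₀ ht₀ h)
        have hev := hloc (x t₀, y t₀) (hZ t₀ ht₀) hnot
        have hcw : ContinuousWithinAt (fun t => (x t, y t)) (Icc a b) t₀ :=
          (hxc.continuousWithinAt).prodMk (hy t₀ ht₀)
        have hev2 : ∀ᶠ t in 𝓝[Icc a b] t₀, (x t, y t) ∈ Z → c (x t, y t) = c (x t₀, y t₀) :=
          hcw.eventually hev
        obtain ⟨δ, hδ, hδ'⟩ := Metric.mem_nhdsWithin_iff.1 hev2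
        refine ⟨δ, hδ, fun t ht htt => ?_⟩
        have hcode : ∀ s ∈ uIcc t₀ t, c (x s, y s) = c (x t₀, y t₀) := by
          intro s hs
          have hs2 : s ∈ Icc a b := (ordConnected_Icc.uIcc_subset ht₀ ht) hs
          have h1 : |s - t₀| ≤ |t - t₀| := abs_sub_left_of_mem_uIcc hs
          exact hδ' ⟨by rw [Metric.mem_ball, Real.dist_eq]; exact h1.trans_lt htt, hs2⟩
            (hZ s hs2)
        have hp := piece' x u hu x₀ hx hxc t₀ t (fun s => G (x s, y s))
          (hGc.mono (ordConnected_Icc.uIcc_subset ht₀ ht)) (ψ (c (x t₀, y t₀))) (by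
            intro s hs
            have hs2 : s ∈ Icc a b := (ordConnected_Icc.uIcc_subset ht₀ ht) hs
            rw [← hψG _ (hZ s hs2), hcode s hs]) (cut b₀ n) (cut_cont b₀ n)
        have e4 := intervalIntegral.integral_add_adjacent_intervals
          (hII a (left_mem_Icc.2 hab) t₀ ht₀) (hII t₀ ht₀ t ht)
        have e5 := intervalIntegral.integral_add_adjacent_intervals
          (hψI (c (x t₀, y t₀)) b₀ (x t₀)) (hψI (c (x t₀, y t₀)) (x t₀) (x t))
        rw [hcode t right_mem_uIcc, ← e4, ← e5, hp]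
        abel
  -- the limits
  have hlev := level x u hu x₀ hx b₀
  have hL : Tendsto (fun n => ∫ t in a..b, u t • (cut b₀ n (x t) • G (x t, y t))) atTop
      (𝓝 (∫ t in a..b, u t • G (x t, y t))) := by
    have hI : IntervalIntegrable (fun t => u t • G (x t, y t)) volume a b :=
      hu.intervalIntegrable.smul_continuousOn (by rw [hui]; exact hGc)
    refine intervalIntegral.tendsto_integral_filter_of_dominated_convergence
      (fun t => ‖u t • G (x t, y t)‖) ?_ ?_ ?_ ?_
    · refine Eventually.of_forall fun n => ?_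
      have : IntervalIntegrable (fun t => u t • (cut b₀ n (x t) • G (x t, y t))) volume a b :=
        hu.intervalIntegrable.smul_continuousOn
          (by rw [hui]; exact ((cut_cont b₀ n).comp hxc).continuousOn.smul hGc)
      exact (intervalIntegrable_iff.1 this).aestronglyMeasurable
    · refine Eventually.of_forall fun n => Eventually.of_forall fun t _ => ?_
      rw [norm_smul, norm_smul, norm_smul, Real.norm_of_nonneg (cut_nonneg b₀ n _)]
      have h1 := cut_le_one b₀ n (x t)
      have h2 := cut_nonneg b₀ n (x t)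
      have h3 := norm_nonneg (G (x t, y t))
      have h4 := norm_nonneg (u t)
      exact mul_le_mul_of_nonneg_left (mul_le_of_le_one_left h3 h1) h4
    · exact hI.norm
    · filter_upwards [hlev] with t ht _
      by_cases h0 : x t = b₀
      · simp [ht h0]
      · have := (cut_tendsto b₀ (x t) h0).smul_const (G (x t, y t))
        rw [one_smul] at this
        exact this.const_smul (u t)
  have hRt : ∀ τ d, Tendsto (fun n => ∫ s in b₀..d, cut b₀ n s • ψ τ s) atTop
      (𝓝 (∫ s in b₀..d, ψ τ s)) := by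
    intro τ d
    refine intervalIntegral.tendsto_integral_filter_of_dominated_convergence
      (fun t => ‖ψ τ t‖) ?_ ?_ ?_ ?_
    · refine Eventually.of_forall fun n => ?_
      have : IntervalIntegrable (fun s => cut b₀ n s • ψ τ s) volume b₀ d :=
        (hψi τ b₀ d).continuousOn_smul (cut_cont b₀ n).continuousOn
      exact (intervalIntegrable_iff.1 this).aestronglyMeasurable
    · refine Eventually.of_forall fun n => Eventually.of_forall fun t _ => ?_
      rw [norm_smul, Real.norm_of_nonneg (cut_nonneg b₀ n _)]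
      exact mul_le_of_le_one_left (norm_nonneg _) (cut_le_one b₀ n _)
    · exact (hψi τ b₀ d).norm
    · have : ∀ᵐ s : ℝ, s ≠ b₀ := by simp [ae_iff, measure_singleton]
      filter_upwards [this] with s hs _
      have := (cut_tendsto b₀ s hs).smul_const (ψ τ s)
      rwa [one_smul] at this
  exact tendsto_nhds_unique (hL.congr key) ((hRt _ _).sub (hRt _ _))

end PATH

/-- PATH: line integrals along paths in a planar curve. -/
theorem path {E : Type} [NormedAddCommGroup E] [NormedSpace ℝ E] [CompleteSpace E] {K : Type}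
    (x y u : ℝ → ℝ) (hu : IntegrableOn u (Ioc 0 1))
    (hx : ∀ t ∈ Icc (0 : ℝ) 1, x t = x 0 + ∫ s in (0 : ℝ)..t, u s)
    (hy : ContinuousOn y (Icc 0 1))
    (Z : Set (ℝ × ℝ)) (hZ : ∀ t ∈ Icc (0 : ℝ) 1, (x t, y t) ∈ Z)
    (c : ℝ × ℝ → K) (Λ : Set ℝ) (hΛ : Λ.Finite)
    (hloc : ∀ q ∈ Z, q.1 ∉ Λ → ∀ᶠ q' in nhds q, q' ∈ Z → c q' = c q)
    (hinj : ∀ q ∈ Z, ∀ q' ∈ Z, q.1 = q'.1 → c q = c q' → q = q')
    (ψ : K → ℝ → E) (M : ℝ) (hψM : ∀ τ s, ‖ψ τ s‖ ≤ M)
    (hψi : ∀ τ a b, IntervalIntegrable (ψ τ) volume a b)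
    (G : ℝ × ℝ → E) (hG : Continuous G) (hψG : ∀ q ∈ Z, ψ (c q) q.1 = G q) (R : ℝ) :
    (∫ t in (0 : ℝ)..1, u t • G (x t, y t)) -
      ((∫ s in R..x 1, ψ (c (x 1, y 1)) s) - ∫ s in R..x 0, ψ (c (x 0, y 0)) s) ∈
      AddSubgroup.closure {v : E | ∃ b ∈ Λ, ∃ τ, v = ∫ s in R..b, ψ τ s} := by
  have _h1 := hinj
  have _h2 := hψM
  set Γ := AddSubgroup.closure {v : E | ∃ b ∈ Λ, ∃ τ, v = ∫ s in R..b, ψ τ s} with hΓ
  -- extend `u` by zero
  set v : ℝ → ℝ := (Ioc (0 : ℝ) 1).indicator u with hvdef
  have hv : Integrable v := (integrable_indicator_iff measurableSet_Ioc).2 hu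
  set X : ℝ → ℝ := fun t => x 0 + ∫ s in (0 : ℝ)..t, v s with hXdef
  have hX : ∀ t, X t = x 0 + ∫ s in (0 : ℝ)..t, v s := fun t => rfl
  have hXc : Continuous X := continuous_const.add
    (intervalIntegral.continuous_primitive (fun a b => hv.intervalIntegrable) 0)
  have hvu : ∀ t ∈ Icc (0 : ℝ) 1, ∀ s ∈ uIoc 0 t, v s = u s := by
    intro t ht s hs
    rw [uIoc_of_le ht.1] at hs
    have hm : s ∈ Ioc (0 : ℝ) 1 := ⟨hs.1, hs.2.trans ht.2⟩
    exact indicator_of_mem hm u
  have hXx : ∀ t ∈ Icc (0 : ℝ) 1, X t = x t := by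
    intro t ht
    rw [hX, hx t ht]
    congr 1
    exact intervalIntegral.integral_congr_ae (Eventually.of_forall fun s hs => hvu t ht s hs)
  have h01 : (0 : ℝ) ≤ 1 := zero_le_one
  have hX0 := hXx 0 (left_mem_Icc.2 h01)
  have hX1 := hXx 1 (right_mem_Icc.2 h01)
  have hT : ∫ t in (0 : ℝ)..1, u t • G (x t, y t) = ∫ t in (0 : ℝ)..1, v t • G (X t, y t) := by
    refine intervalIntegral.integral_congr_ae (Eventually.of_forall fun s hs => ?_)
    rw [hvu 1 (right_mem_Icc.2 h01) s hs]
    rw [uIoc_of_le h01] at hs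
    rw [hXx s ⟨hs.1.le, hs.2⟩]
  have hZX : ∀ t ∈ Icc (0 : ℝ) 1, (X t, y t) ∈ Z := fun t ht => by
    rw [hXx t ht]; exact hZ t ht
  have hGc : ContinuousOn (fun t => G (X t, y t)) (Icc 0 1) :=
    hG.comp_continuousOn (hXc.continuousOn.prodMk hy)
  have hII : ∀ a' ∈ Icc (0 : ℝ) 1, ∀ b' ∈ Icc (0 : ℝ) 1, IntervalIntegrable
      (fun t => v t • G (X t, y t)) volume a' b' := by
    intro a' ha' b' hb'
    have hsub : uIcc a' b' ⊆ Icc 0 1 := ordConnected_Icc.uIcc_subset ha' hb'
    exact hv.intervalIntegrable.smul_continuousOn (hGc.mono hsub)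
  -- the function which is constant modulo `Γ`
  have hfin := PATH.const_of_local (fun t => ((((∫ s in (0 : ℝ)..t, v s • G (X s, y s)) -
    ∫ s in R..X t, ψ (c (X t, y t)) s : E)) : E ⧸ Γ)) 0 1 h01 ?_
  · have h2 := QuotientAddGroup.eq.1 hfin.symm
    simp only [intervalIntegral.integral_same, zero_sub] at h2
    rw [hT, ← hX0, ← hX1]
    convert h2 using 1
    abel
  · intro t₀ ht₀
    -- `x` avoids the other points of `Λ`
    have hcl : IsClosed (Λ \ {X t₀}) := (hΛ.subset sdiff_subset).isClosed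
    have hn1 : ∀ᶠ t in 𝓝 t₀, X t ∉ Λ \ {X t₀} :=
      hXc.continuousAt.eventually (hcl.isOpen_compl.mem_nhds (by simp))
    obtain ⟨δ₁, hδ₁, hd1⟩ := Metric.eventually_nhds_iff.1 hn1
    obtain ⟨δ₂, hδ₂, hd2⟩ : ∃ δ₂ > 0, ∀ t ∈ Icc (0 : ℝ) 1, |t - t₀| < δ₂ → X t₀ ∉ Λ →
        c (X t, y t) = c (X t₀, y t₀) := by
      by_cases hm : X t₀ ∈ Λ
      · exact ⟨1, one_pos, fun t _ _ h => absurd hm h⟩
      · have hev := hloc (X t₀, y t₀) (hZX t₀ ht₀) hm
        have hcw : ContinuousWithinAt (fun t => (X t, y t)) (Icc 0 1) t₀ :=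
          (hXc.continuousWithinAt).prodMk (hy t₀ ht₀)
        have hev2 : ∀ᶠ t in 𝓝[Icc 0 1] t₀, (X t, y t) ∈ Z → c (X t, y t) = c (X t₀, y t₀) :=
          hcw.eventually hev
        obtain ⟨δ, hδ, hδ'⟩ := Metric.mem_nhdsWithin_iff.1 hev2
        exact ⟨δ, hδ, fun t ht htt _ => hδ' ⟨by rwa [Metric.mem_ball, Real.dist_eq], ht⟩
          (hZX t ht)⟩
    refine ⟨min δ₁ δ₂, lt_min hδ₁ hδ₂, fun t ht htt => ?_⟩
    have hav : ∀ s ∈ uIcc t₀ t, X s ∈ Λ → X s = X t₀ := by
      intro s hs hsΛ
      have h1 : |s - t₀| ≤ |t - t₀| := abs_sub_left_of_mem_uIcc hs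
      have h2 := hd1 (y := s) (by
        rw [Real.dist_eq]; exact h1.trans_lt (htt.trans_le (min_le_left _ _)))
      by_contra hne
      exact h2 ⟨hsΛ, hne⟩
    -- the increment of the line integral
    have hinc : ∫ s in t₀..t, v s • G (X s, y s) = ∫ s in X t₀..X t, ψ (c (X t, y t)) s := by
      rcases le_total t₀ t with hle | hle
      · have h := PATH.local_piece X y v hv (x 0) hX hXc t₀ t hle
          (hy.mono (Icc_subset_Icc ht₀.1 ht.2)) Z
          (fun s hs => hZX s ⟨ht₀.1.trans hs.1, hs.2.trans ht.2⟩) c Λ hloc ψ hψi G hG hψG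
          (X t₀) (by rw [uIcc_of_le hle] at hav; exact hav)
        rw [h, intervalIntegral.integral_same, sub_zero]
      · have h := PATH.local_piece X y v hv (x 0) hX hXc t t₀ hle
          (hy.mono (Icc_subset_Icc ht.1 ht₀.2)) Z
          (fun s hs => hZX s ⟨ht.1.trans hs.1, hs.2.trans ht₀.2⟩) c Λ hloc ψ hψi G hG hψG
          (X t₀) (by rw [uIcc_of_ge hle] at hav; exact hav)
        rw [intervalIntegral.integral_symm, h, intervalIntegral.integral_same, zero_sub, neg_neg]
    have e4 := intervalIntegral.integral_add_adjacent_intervals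
      (hII 0 (left_mem_Icc.2 h01) t₀ ht₀) (hII t₀ ht₀ t ht)
    have e5 := intervalIntegral.integral_add_adjacent_intervals
      (hψi (c (X t, y t)) R (X t₀)) (hψi (c (X t, y t)) (X t₀) (X t))
    refine QuotientAddGroup.eq.2 ?_
    have e6 : -((∫ s in (0 : ℝ)..t, v s • G (X s, y s)) - ∫ s in R..X t, ψ (c (X t, y t)) s) +
        ((∫ s in (0 : ℝ)..t₀, v s • G (X s, y s)) - ∫ s in R..X t₀, ψ (c (X t₀, y t₀)) s) =
        (∫ s in R..X t₀, ψ (c (X t, y t)) s) - ∫ s in R..X t₀, ψ (c (X t₀, y t₀)) s := by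
      rw [← e4, ← e5, hinc]
      abel
    rw [e6]
    by_cases hm : X t₀ ∈ Λ
    · exact sub_mem (AddSubgroup.subset_closure ⟨X t₀, hm, _, rfl⟩)
        (AddSubgroup.subset_closure ⟨X t₀, hm, _, rfl⟩)
    · rw [hd2 t ht (htt.trans_le (min_le_right _ _)) hm, sub_self]
      exact zero_mem _

end Pool.Agent.MetSard
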