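import Pool.Agent.Lib.MP_0e3b4a_gt.H14.MonoB
import Pool.Agent.Lib.MP_0e3b4a_gt.H14.DIM
import Pool.Agent.Lib.MP_0e3b4a_gt.H14.PATH

/-! # The planar theorem for monic families, part C: assembly -/

set_option autoImplicit false
set_option linter.unusedSectionVars false

namespace Pool.Agent.MetSard

open MeasureTheory Set Polynomial Filter Topology
open Pool.Agent.CutLoci Pool.Agent.CutLoci.H21
open scoped NNReal ENNReal

/-- The statement of NET. -/
def NetS : Prop :=
  ∀ (d : ℕ) (ι : Type) [Finite ι] (p : ι → MvPolynomial (Fin d ⊕ Fin 2) ℝ)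
    (B : Set (Fin 2 → ℝ)), MeasurableSet B → volume B ≠ ⊤ →
    ∃ C : ℝ, ∀ ε : ℝ, 0 < ε → ε ≤ 1 → ∀ S : Finset (Fin d → ℝ),
      (∀ a ∈ S, ∀ a' ∈ S, a ≠ a' → ε < (volume (dis p B a a')).toReal) →
      (S.card : ℝ) ≤ C * ε⁻¹ ^ ((d : ℝ) + 1 / 2)

/-- The statement of INT. -/
def RelS : Prop :=
  ∀ (B : Type) [CommRing B] (f H : B[X]), f.Monic → ∃ Q : B[X], Q.Monic ∧ f ∣ Q.comp H

/-- The statement of BRK. -/
def BrkS : Prop :=
  ∀ (D : ℕ) (f : ℝ[X][X]) (Q : ℕ → ℝ[X][X]),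
    (∀ j ≤ D, f ∣ (Q j).comp (derivative^[j] f)) → ∀ (m : ℕ → ℕ),
    (∀ j ≤ D, ∀ i < m j, (Q j).coeff i = 0) → ∀ (x₀ y₀ : ℝ),
    (∀ j ≤ D, ((Q j).coeff (m j)).eval x₀ ≠ 0) → f.evalEval x₀ y₀ = 0 →
    ∀ᶠ q : ℝ × ℝ in nhds (x₀, y₀), f.evalEval q.1 q.2 = 0 →
      code D (f.map (evalRingHom q.1)) q.2 = code D (f.map (evalRingHom x₀)) y₀

namespace Mono

variable {d : ℕ} {κ : Type} [Fintype κ]

/-- The parametrised values. -/
noncomputable def ww (D : ℕ) (F : (MvPolynomial (Fin d) ℝ)[X][X])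
    (G : κ → MvPolynomial (Fin 2) ℝ) (R : ℝ) (De : ℕ) (e : (MvPolynomial (Fin d) ℝ)[X])
    (τ₀ τ₁ : Fin (D + 1) → SignType)
    (n : (Fin (De + 1) → SignType) × (Fin (D + 1) → SignType) → ℤ)
    (a : Fin d → ℝ) (z : Fin 2 → ℝ) : (Fin 2 → ℝ) × (κ → ℝ) :=
  (z, VA D F G R τ₁ a (z 0) - VA D F G R τ₀ a 0 + ∑ p, n p • VV D F G R De e p.1 p.2 a)

theorem piece_dim (hnet : NetS) (D : ℕ) (F : (MvPolynomial (Fin d) ℝ)[X][X])
    (G : κ → MvPolynomial (Fin 2) ℝ) (R : ℝ) (hR : 0 ≤ R) (De : ℕ)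
    (e : (MvPolynomial (Fin d) ℝ)[X]) (τ₀ τ₁ : Fin (D + 1) → SignType)
    (n : (Fin (De + 1) → SignType) × (Fin (D + 1) → SignType) → ℤ) :
    dimH {y | ∃ a z, ‖z‖ ≤ R ∧ ww D F G R De e τ₀ τ₁ n a z = y} ≤ (d : ℝ≥0∞) + 5 / 2 := by
  classical
  choose p1 hp1 using fun j : Fin (D + 1) => conv (derivative^[(j : ℕ)] F)
  choose p2 hp2 using fun l : Fin (De + 1) => conv1 (derivative^[(l : ℕ)] e)
  set p : Fin (D + 1) ⊕ Fin (De + 1) → MvPolynomial (Fin d ⊕ Fin 2) ℝ := Sum.elim p1 p2 with hp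
  obtain ⟨C, hC⟩ := hnet d (Fin (D + 1) ⊕ Fin (De + 1)) p (Box R) (Box_meas R) (Box_fin R)
  obtain ⟨M, hM0, hM⟩ := hh_bound (d := d) D F G R
  have hfin : ∀ a a', volume (dis p (Box R) a a') ≠ ⊤ := fun a a' =>
    (lt_of_le_of_lt (measure_mono fun q hq => hq.1) (lt_top_iff_ne_top.2 (Box_fin R))).ne
  have hcodes : ∀ a a' : Fin d → ℝ, ∀ q ∈ Box R, q ∉ dis p (Box R) a a' →
      cF D F a q = cF D F a' q ∧ cE De e a (q 0) = cE De e a' (q 0) := by
    intro a a' q hq hd
    have h1 : ∀ i, SignType.sign (MvPolynomial.eval (Sum.elim a q) (p i)) =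
        SignType.sign (MvPolynomial.eval (Sum.elim a' q) (p i)) := by
      intro i
      by_contra hne
      exact hd ⟨hq, i, hne⟩
    constructor
    · funext j
      have := h1 (Sum.inl j)
      rw [hp, Sum.elim_inl, hp1, hp1] at this
      rw [cF_apply, cF_apply, this]
    · funext j
      have := h1 (Sum.inr j)
      rw [hp, Sum.elim_inr, hp2, hp2] at this
      rw [cE_apply, cE_apply, this]
  set L : ℝ := 1 + M * (2 * R) + 4 * M + ∑ q, |(n q : ℝ)| * (2 * M) with hL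
  have hsum0 : 0 ≤ ∑ q, |(n q : ℝ)| * (2 * M) :=
    Finset.sum_nonneg fun q _ => by positivity
  have hL0 : 0 ≤ L := by positivity
  have hk0 : (((d : ℝ≥0) + 1 / 2 : ℝ≥0) : ℝ) = (d : ℝ) + 1 / 2 := by
    push_cast
    rfl
  have hdim := dim_net (P := Fin d → ℝ) (Y := (Fin 2 → ℝ) × (κ → ℝ)) 2
    ((d : ℝ≥0) + 1 / 2) C L R
    (fun a a' => (volume (dis p (Box R) a a')).toReal) (fun a => ?_) (fun a b => ?_)
    (fun ε h0 h1 S hS => by rw [hk0]; exact hC ε h0 h1 S hS) (ww D F G R De e τ₀ τ₁ n) (fun a a' z z' hz hz' => ?_)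
    hL0
  · refine hdim.trans (le_of_eq ?_)
    have : (((d : ℝ≥0) + 1 / 2 : ℝ≥0) : ℝ≥0∞) = (d : ℝ≥0∞) + 1 / 2 := by
      rw [ENNReal.coe_add, ENNReal.coe_div (by norm_num)]
      simp
    rw [this, add_assoc]
    congr 1
    have h5 : (5 : ℝ≥0∞) = 1 + 2 * 2 := by norm_num
    rw [h5, ENNReal.add_div]
    congr 1
    rw [mul_div_assoc, ENNReal.div_self (by norm_num) (by norm_num), mul_one]
    norm_num
  · have : dis p (Box R) a a = ∅ := by
      ext q
      simp [dis]
    show (volume (dis p (Box R) a a)).toReal = 0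
    rw [this]
    simp
  · have : dis p (Box R) a b = dis p (Box R) b a := by
      ext q
      simp only [dis, mem_ofPred_eq, ne_comm]
    show (volume (dis p (Box R) a b)).toReal = (volume (dis p (Box R) b a)).toReal
    rw [this]
  · set δ := (volume (dis p (Box R) a a')).toReal with hδ
    have hδ0 : 0 ≤ δ := ENNReal.toReal_nonneg
    have hz0 : -R ≤ z 0 := by
      have := (norm_le_pi_norm z 0).trans hz
      rw [Real.norm_eq_abs] at this
      linarith [neg_abs_le (z 0)]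
    have hz0' : -R ≤ z' 0 := by
      have := (norm_le_pi_norm z' 0).trans hz'
      rw [Real.norm_eq_abs] at this
      linarith [neg_abs_le (z' 0)]
    have hzz : |z 0 - z' 0| ≤ dist z z' := by
      rw [← Real.dist_eq]
      exact dist_le_pi_dist z z' 0
    have e1 := VA_dis D F G R hM hM0 τ₁ a a' (z 0) _ (hfin a a')
      fun q hq hd => (hcodes a a' q hq hd).1
    have e2 := VA_lip D F G R hM hR τ₁ a' hz0 hz0'
    have e3 := VA_dis D F G R hM hM0 τ₀ a a' 0 _ (hfin a a')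
      fun q hq hd => (hcodes a a' q hq hd).1
    have e4 : ∀ q : (Fin (De + 1) → SignType) × (Fin (D + 1) → SignType),
        ‖VV D F G R De e q.1 q.2 a - VV D F G R De e q.1 q.2 a'‖ ≤ 2 * M * δ := fun q =>
      VV_dis D F G R hM hM0 De e q.1 q.2 a a' _ (hfin a a') (hcodes a a')
    show dist (ww D F G R De e τ₀ τ₁ n a z) (ww D F G R De e τ₀ τ₁ n a' z') ≤
      L * (δ + dist z z')
    rw [Prod.dist_eq]
    have hd0 : 0 ≤ dist z z' := dist_nonneg
    refine max_le ?_ ?_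
    · show dist z z' ≤ _
      have h1 : (1 : ℝ) ≤ L := by
        rw [hL]
        have : 0 ≤ M * (2 * R) := by positivity
        linarith
      nlinarith
    · rw [dist_eq_norm]
      have hsplit : (ww D F G R De e τ₀ τ₁ n a z).2 - (ww D F G R De e τ₀ τ₁ n a' z').2 =
          (VA D F G R τ₁ a (z 0) - VA D F G R τ₁ a' (z 0)) +
          (VA D F G R τ₁ a' (z 0) - VA D F G R τ₁ a' (z' 0)) -
          (VA D F G R τ₀ a 0 - VA D F G R τ₀ a' 0) +
          ∑ q, n q • (VV D F G R De e q.1 q.2 a - VV D F G R De e q.1 q.2 a') := by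
        simp only [ww, smul_sub, Finset.sum_sub_distrib]
        abel
      rw [hsplit]
      have hs : ‖∑ q, n q • (VV D F G R De e q.1 q.2 a - VV D F G R De e q.1 q.2 a')‖ ≤
          (∑ q, |(n q : ℝ)| * (2 * M)) * δ := by
        refine (norm_sum_le _ _).trans ?_
        rw [Finset.sum_mul]
        refine Finset.sum_le_sum fun q _ => ?_
        have h1 : n q • (VV D F G R De e q.1 q.2 a - VV D F G R De e q.1 q.2 a') =
            (n q : ℝ) • (VV D F G R De e q.1 q.2 a - VV D F G R De e q.1 q.2 a') := by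
          rw [Int.cast_smul_eq_zsmul]
        rw [h1, norm_smul, Real.norm_eq_abs, mul_assoc]
        exact mul_le_mul_of_nonneg_left (e4 q) (abs_nonneg _)
      have h2 := norm_add_le ((VA D F G R τ₁ a (z 0) - VA D F G R τ₁ a' (z 0)) +
          (VA D F G R τ₁ a' (z 0) - VA D F G R τ₁ a' (z' 0)) -
          (VA D F G R τ₀ a 0 - VA D F G R τ₀ a' 0))
          (∑ q, n q • (VV D F G R De e q.1 q.2 a - VV D F G R De e q.1 q.2 a'))
      have h3 := norm_sub_le ((VA D F G R τ₁ a (z 0) - VA D F G R τ₁ a' (z 0)) +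
          (VA D F G R τ₁ a' (z 0) - VA D F G R τ₁ a' (z' 0)))
          (VA D F G R τ₀ a 0 - VA D F G R τ₀ a' 0)
      have h4 := norm_add_le (VA D F G R τ₁ a (z 0) - VA D F G R τ₁ a' (z 0))
          (VA D F G R τ₁ a' (z 0) - VA D F G R τ₁ a' (z' 0))
      have h5 : M * (2 * R) * |z 0 - z' 0| ≤ M * (2 * R) * dist z z' :=
        mul_le_mul_of_nonneg_left hzz (by positivity)
      have h6 : 0 ≤ M * (2 * R) * δ := by positivity
      have h7 : 0 ≤ M * dist z z' := by positivity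
      have h8 : 0 ≤ (∑ q, |(n q : ℝ)| * (2 * M)) * dist z z' := mul_nonneg hsum0 hd0
      rw [hL]
      nlinarith [h2, h3, h4, e1, e2, e3, hs, h5, h6, h7, h8]

theorem comp_int_pi (f : ℝ → κ → ℝ) (hf : IntervalIntegrable f volume 0 1) (k : κ) :
    (∫ t in (0 : ℝ)..1, f t) k = ∫ t in (0 : ℝ)..1, f t k := by
  have h := (ContinuousLinearMap.proj k : (κ → ℝ) →L[ℝ] ℝ).intervalIntegral_comp_comm hf
  exact h.symm

theorem int_smul_pi {u : ℝ → ℝ} (hu : IntegrableOn u (Ioc 0 1)) {f : ℝ → κ → ℝ}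
    (hf : ContinuousOn f (Icc 0 1)) : IntervalIntegrable (fun t => u t • f t) volume 0 1 := by
  rw [← integrableOn_Icc_iff_integrableOn_Ioc] at hu
  have h3 := hu.smul_continuousOn hf isCompact_Icc
  rw [integrableOn_Icc_iff_integrableOn_Ioc] at h3
  exact ii h3 ⟨zero_le_one, le_rfl⟩

/-- The indices of the pieces. -/
abbrev Idx (D : ℕ) (De : (Fin (D + 1) → ℕ) → ℕ) : Type :=
  Σ _ : ℕ, Σ m : Fin (D + 1) → ℕ,
    (Fin (D + 1) → SignType) × (Fin (D + 1) → SignType) ×
      ((Fin (De m + 1) → SignType) × (Fin (D + 1) → SignType) → ℤ)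

theorem Idx_countable (D : ℕ) (De : (Fin (D + 1) → ℕ) → ℕ) : Countable (Idx D De) := by
  have h1 : ∀ m : Fin (D + 1) → ℕ,
      Countable ((Fin (De m + 1) → SignType) × (Fin (D + 1) → SignType) → ℤ) :=
    fun m => inferInstance
  have h2 : ∀ m : Fin (D + 1) → ℕ, Countable
      ((Fin (D + 1) → SignType) × (Fin (D + 1) → SignType) ×
      ((Fin (De m + 1) → SignType) × (Fin (D + 1) → SignType) → ℤ)) := fun m => by
    have := h1 m
    infer_instance
  have h3 : Countable (Σ m : Fin (D + 1) → ℕ,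
      (Fin (D + 1) → SignType) × (Fin (D + 1) → SignType) ×
      ((Fin (De m + 1) → SignType) × (Fin (D + 1) → SignType) → ℤ)) := inferInstance
  exact instCountableSigma

/-- The monic planar theorem from the modules. -/
theorem mono_of (hnet : NetS) (hrel : RelS) (hbrk : BrkS) : MonoS := by
  classical
  intro d F hF κ _ G
  choose Q hQm hQd using fun j : ℕ => hrel (MvPolynomial (Fin d) ℝ)[X] F (derivative^[j] F) hF
  set D := F.natDegree with hD
  let e : (Fin (D + 1) → ℕ) → (MvPolynomial (Fin d) ℝ)[X] :=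
    fun m => ∏ j : Fin (D + 1), (Q j).coeff (m j)
  let De : (Fin (D + 1) → ℕ) → ℕ := fun m => (e m).natDegree
  let T : Idx D De → Set ((Fin 2 → ℝ) × (κ → ℝ)) := fun i =>
    {y | ∃ a z, ‖z‖ ≤ (i.1 : ℝ) ∧
      ww D F G i.1 (De i.2.1) (e i.2.1) i.2.2.1 i.2.2.2.1 i.2.2.2.2 a z = y}
  have hcount : Countable (Idx D De) := Idx_countable D De
  have hcover : TT F G ⊆ ⋃ i, T i := by
    rintro v ⟨a, u, hu, hz, hv1, hv2⟩
    have h00 : (0 : ℝ) ∈ Icc (0 : ℝ) 1 := ⟨le_rfl, zero_le_one⟩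
    have h11 : (1 : ℝ) ∈ Icc (0 : ℝ) 1 := ⟨zero_le_one, le_rfl⟩
    have hvec : ∀ t, xx u t = ![xx u t 0, xx u t 1] := by
      intro t
      funext i
      fin_cases i <;> rfl
    have hx0 : xx u 0 = 0 := by
      funext i
      simp [xx]
    -- a bound for the path
    obtain ⟨R0, hR0⟩ := isCompact_Icc.exists_bound_of_continuousOn (cont_xx hu)
    obtain ⟨R, hR⟩ := exists_nat_gt (max R0 0)
    have hRpos : (0 : ℝ) < R := lt_of_le_of_lt (le_max_right _ _) hR
    have hRb : ∀ t ∈ Icc (0 : ℝ) 1, ‖xx u t‖ ≤ R := fun t ht =>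
      (hR0 t ht).trans ((le_max_left _ _).trans hR.le)
    have hRi : ∀ t ∈ Icc (0 : ℝ) 1, ∀ i, xx u t i ∈ Icc (-(R : ℝ)) R := by
      intro t ht i
      have h := (norm_le_pi_norm (xx u t) i).trans (hRb t ht)
      rw [Real.norm_eq_abs] at h
      exact abs_le.1 h
    -- the type
    let m : ℕ → ℕ := fun j => (sp (Q j) a).natTrailingDegree
    let m' : Fin (D + 1) → ℕ := fun j => m j
    have hQa : ∀ j, (sp (Q j) a).Monic := fun j => (hQm j).map _
    have hea : (e m').map (MvPolynomial.eval a) = ∏ j : Fin (D + 1), (sp (Q j) a).coeff (m j) := by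
      show Polynomial.map _ (∏ j : Fin (D + 1), (Q j).coeff (m' j)) = _
      rw [Polynomial.map_prod]
      refine Finset.prod_congr rfl fun j _ => ?_
      rw [sp, coeff_map]
      rfl
    have hce : ∀ j, (sp (Q j) a).coeff (m j) ≠ 0 := fun j => by
      have h := (hQa j).ne_zero
      exact (Polynomial.trailingCoeff_nonzero_iff_nonzero).2 h
    have hea0 : (e m').map (MvPolynomial.eval a) ≠ 0 := by
      rw [hea]
      exact Finset.prod_ne_zero_iff.2 fun j _ => hce j
    -- the data of PATH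
    set f := sp F a with hf
    set Λ : Set ℝ := {b | b ∈ Icc (-(R : ℝ)) R ∧ ((e m').map (MvPolynomial.eval a)).eval b = 0}
      with hΛ
    have hΛf : Λ.Finite := by
      refine ((((e m').map (MvPolynomial.eval a)).roots.toFinset).finite_toSet).subset ?_
      rintro b ⟨_, hb⟩
      rw [Finset.mem_coe, Multiset.mem_toFinset, mem_roots hea0]
      exact hb
    set Z : Set (ℝ × ℝ) := {q | q.1 ∈ Icc (-(R : ℝ)) R ∧ q.2 ∈ Icc (-(R : ℝ)) R ∧
      f.evalEval q.1 q.2 = 0} with hZ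
    set c : ℝ × ℝ → (Fin (D + 1) → SignType) := fun q => cF D F a ![q.1, q.2] with hc
    have hcc : ∀ q : ℝ × ℝ, c q = code D (f.map (evalRingHom q.1)) q.2 := fun q => rfl
    have hmon : ∀ s, (f.map (evalRingHom s)).Monic := fun s => (hF.map _).map _
    have hdeg : ∀ s, (f.map (evalRingHom s)).natDegree ≤ D := fun s =>
      Polynomial.natDegree_map_le.trans Polynomial.natDegree_map_le
    have hth : ∀ s y y', f.evalEval s y' = 0 → (prec (c (s, y)) (c (s, y')) ↔ y < y') := by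
      intro s y y' h
      refine thom D _ (hmon s).ne_zero (hdeg s) y y' ?_
      rw [map_evalRingHom_eval]
      exact h
    have hloc : ∀ q ∈ Z, q.1 ∉ Λ → ∀ᶠ q' in nhds q, q' ∈ Z → c q' = c q := by
      intro q hq hqΛ
      have h1 : ((e m').map (MvPolynomial.eval a)).eval q.1 ≠ 0 := fun h => hqΛ ⟨hq.1, h⟩
      rw [hea, eval_prod, Finset.prod_ne_zero_iff] at h1
      have hdvd : ∀ j ≤ D, f ∣ (sp (Q j) a).comp (derivative^[j] f) := by
        intro j _
        obtain ⟨g, hg⟩ := hQd j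
        refine ⟨sp g a, ?_⟩
        have h2 := congrArg (Polynomial.map (mapRingHom (MvPolynomial.eval a))) hg
        rw [Polynomial.map_comp, Polynomial.map_mul, ← iterate_derivative_map] at h2
        exact h2
      have h3 := hbrk D f (fun j => sp (Q j) a) hdvd m
        (fun j _ i hi => coeff_eq_zero_of_lt_natTrailingDegree hi) q.1 q.2
        (fun j hj => h1 ⟨j, by omega⟩ (Finset.mem_univ _)) hq.2.2
      have h4 : (nhds q : Filter (ℝ × ℝ)) = nhds (q.1, q.2) := rfl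
      rw [h4]
      filter_upwards [h3] with q' hq' hZ'
      exact hq' hZ'.2.2
    have hinj : ∀ q ∈ Z, ∀ q' ∈ Z, q.1 = q'.1 → c q = c q' → q = q' := by
      rintro ⟨s, y⟩ hq ⟨s', y'⟩ hq' h1 h2
      simp only at h1
      subst h1
      have h3 := hth s y y' hq'.2.2
      have h4 := hth s y' y hq.2.2
      have h5 := hth s y y hq.2.2
      rw [h2] at h4 h5
      rw [h2] at h3
      have h6 : ¬ prec (c (s, y')) (c (s, y')) := fun h => lt_irrefl _ (h5.1 h)
      have h7 : ¬ y < y' := fun h => h6 (h3.2 h)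
      have h8 : ¬ y' < y := fun h => h6 (h4.2 h)
      rw [le_antisymm (not_lt.1 h8) (not_lt.1 h7)]
    obtain ⟨M, hM0, hM⟩ := hh_bound (d := d) D F G (R : ℝ)
    have hGc : Continuous fun q : ℝ × ℝ => (fun k => MvPolynomial.eval ![q.1, q.2] (G k) :
        κ → ℝ) := by
      refine continuous_pi fun k => (MvPolynomial.continuous_eval (G k)).comp ?_
      refine continuous_pi fun i => ?_
      fin_cases i
      · exact continuous_fst
      · exact continuous_snd
    have hxx : ∀ i : Fin 2, ∀ t ∈ Icc (0 : ℝ) 1, xx u t i = ∫ s in (0 : ℝ)..t, u s i :=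
      fun i t ht => int_comp hu i ht
    have hxc : ∀ i : Fin 2, ContinuousOn (fun t => xx u t i) (Icc 0 1) := fun i =>
      (continuous_apply i).comp_continuousOn (cont_xx hu)
    have hpath := path (E := κ → ℝ) (fun t => xx u t 0) (fun t => xx u t 1) (fun t => u t 0)
      (comp_int hu 0) (fun t ht => by
        show xx u t 0 = xx u 0 0 + _
        rw [hx0, Pi.zero_apply, zero_add]
        exact hxx 0 t ht)
      (hxc 1) Z
      (fun t ht => ⟨hRi t ht 0, hRi t ht 1, hz t ht⟩) c Λ hΛf hloc hinj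
      (ps D F G R a) (M * (2 * R)) (fun τ s => ps_bound D F G R hM hRpos.le a τ s)
      (fun τ b b' => (ps_int D F G R a τ).intervalIntegrable)
      (fun q k => MvPolynomial.eval ![q.1, q.2] (G k)) hGc
      (fun q hq => ps_eq D F G R hF le_rfl a hRpos q.1 q.2 hq.1 hq.2.1 hq.2.2) (-(R : ℝ))
    have hcl : AddSubgroup.closure {v : κ → ℝ | ∃ b ∈ Λ, ∃ τ, v = ∫ s in (-(R : ℝ))..b,
        ps D F G R a τ s} ≤ AddSubgroup.closure (Set.range
          fun p : (Fin (De m' + 1) → SignType) × (Fin (D + 1) → SignType) =>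
            VV D F G R (De m') (e m') p.1 p.2 a) := by
      refine (AddSubgroup.closure_le _).2 ?_
      rintro _ ⟨b, hb, τ, rfl⟩
      refine AddSubgroup.subset_closure ⟨(cE (De m') (e m') a b, τ), ?_⟩
      rw [VA_eq D F G R τ a hb.1.1]
      exact VV_eq D F G R (De m') (e m') le_rfl a hea0 b hb.2 τ
    have hmem := hcl hpath
    rw [← Submodule.span_int_eq_addSubgroupClosure, Submodule.mem_toAddSubgroup,
      Submodule.mem_span_range_iff_exists_fun] at hmem
    obtain ⟨n, hn⟩ := hmem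
    refine mem_iUnion.2 ⟨⟨R, m', c (xx u 0 0, xx u 0 1), c (xx u 1 0, xx u 1 1), n⟩,
      a, xx u 1, hRb 1 h11, ?_⟩
    refine Prod.ext hv1.symm ?_
    show VA D F G R (c (xx u 1 0, xx u 1 1)) a (xx u 1 0) -
      VA D F G R (c (xx u 0 0, xx u 0 1)) a 0 +
        ∑ p, n p • VV D F G R (De m') (e m') p.1 p.2 a = v.2
    have hx00 : xx u 0 0 = 0 := by rw [hx0]; rfl
    have e1 := VA_eq D F G R (c (xx u 1 0, xx u 1 1)) a (hRi 1 h11 0).1
    have e0 := VA_eq D F G R (c (xx u 0 0, xx u 0 1)) a (hRi 0 h00 0).1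
    rw [hn, e1, e0]
    rw [show VA D F G R (c (xx u 0 0, xx u 0 1)) a (xx u 0 0) =
      VA D F G R (c (xx u 0 0, xx u 0 1)) a 0 by rw [hx00], add_sub_cancel]
    funext k
    have h2 : ContinuousOn (fun t => (fun k => MvPolynomial.eval
        ![xx u t 0, xx u t 1] (G k) : κ → ℝ)) (Icc 0 1) := by
      refine continuousOn_pi.2 fun k => (cont_eval (cont_xx hu) (G k)).congr fun t _ => ?_
      show MvPolynomial.eval ![xx u t 0, xx u t 1] (G k) = MvPolynomial.eval (xx u t) (G k)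
      rw [← hvec t]
    have h4 := comp_int_pi (fun t => u t 0 • (fun k => MvPolynomial.eval
        ![xx u t 0, xx u t 1] (G k) : κ → ℝ)) (int_smul_pi (comp_int hu 0) h2) k
    refine h4.trans ?_
    rw [hv2 k]
    refine intervalIntegral.integral_congr fun t _ => ?_
    show u t 0 * MvPolynomial.eval ![xx u t 0, xx u t 1] (G k) =
      u t 0 * MvPolynomial.eval (xx u t) (G k)
    rw [← hvec t]
  refine (dimH_mono hcover).trans ?_
  rw [dimH_iUnion]
  refine iSup_le fun i => ?_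
  exact piece_dim hnet D F G i.1 (Nat.cast_nonneg _) _ _ _ _ _

end Mono

end Pool.Agent.MetSard
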